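import Pool.Agent.Helper29.CW.Base
import Pool.Agent.Helper29.TD.TyCard

/-!
# Block CW-8: the number of types of labelled structures

Compare `Pool/Agent/Helper29/TD/TyCard.lean`.  Show for all `m`, by induction on `q`:
`Tow (fun K => Nat.card (Ty (S ⊕ Fin K) (Sum.elim ar (fun _ => 1)) q m))`.  For `q = 0` the number is
`2 ^ (m * m) * (∏ s : S, 2 ^ (m ^ ar s)) * (2 ^ m) ^ K` (`Nat.card_pi` or `Fintype.prod_sum_type`), for `q + 1` it is this number times
`2 ^` (the number for `q`, `m + 1`).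
-/

set_option autoImplicit false

namespace Pool.Agent.Helper29.CW

open Pool.Agent.Helper20.Spectra Pool.Agent.Helper29.TD

section aux71

variable (S : Type) [Finite S] (ar : S → ℕ)

private lemma card_prop71 : Nat.card Prop = 2 := by
  rw [Nat.card_eq_fintype_card]
  rfl

private lemma card_base71 [Fintype S] (k : ℕ) :
    Nat.card ((Fin k → Fin k → Prop) × ∀ s : S, (Fin (ar s) → Fin k) → Prop) =
      (2 ^ k) ^ k * 2 ^ (∑ s, k ^ ar s) := by
  rw [Nat.card_prod]
  congr 1
  · rw [Nat.card_fun, Nat.card_fun, card_prop71, Nat.card_fin]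
  · rw [Nat.card_pi]
    have h1 : ∀ s : S, Nat.card ((Fin (ar s) → Fin k) → Prop) = 2 ^ (k ^ ar s) := by
      intro s
      rw [Nat.card_fun, Nat.card_fun, card_prop71, Nat.card_fin, Nat.card_fin]
    rw [Finset.prod_congr rfl fun s _ => h1 s, Finset.prod_pow_eq_pow_sum]

private lemma card_succ71 (q k : ℕ) : Nat.card (Ty S ar (q + 1) k) =
    Nat.card ((Fin k → Fin k → Prop) × ∀ s : S, (Fin (ar s) → Fin k) → Prop) *
      2 ^ Nat.card (Ty S ar q (k + 1)) := by
  have := finite_Ty (S := S) (ar := ar) q (k + 1)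
  have h1 : Nat.card (Ty S ar (q + 1) k) =
    Nat.card (((Fin k → Fin k → Prop) × ∀ s : S, (Fin (ar s) → Fin k) → Prop) ×
      (Ty S ar q (k + 1) → Prop)) := rfl
  rw [h1, Nat.card_prod, Nat.card_fun (α := Ty S ar q (k + 1)), card_prop71]

private lemma tow_base71 (m : ℕ) :
    Tow (fun K => Nat.card ((Fin m → Fin m → Prop) ×
      ∀ s : S ⊕ Fin K, (Fin (Sum.elim ar (fun _ => 1) s) → Fin m) → Prop)) := by
  have : Fintype S := Fintype.ofFinite S
  have h1 : (fun K => Nat.card ((Fin m → Fin m → Prop) ×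
      ∀ s : S ⊕ Fin K, (Fin (Sum.elim ar (fun _ => 1) s) → Fin m) → Prop)) =
      fun K => ((2 ^ m) ^ m * 2 ^ (∑ s, m ^ ar s)) * 2 ^ (K * m) := by
    funext K
    rw [card_base71 (S ⊕ Fin K) (Sum.elim ar (fun _ => 1)) m, Fintype.sum_sum_type]
    simp only [Sum.elim_inl, Sum.elim_inr, pow_one, Finset.sum_const, Finset.card_univ,
      Fintype.card_fin, smul_eq_mul]
    rw [pow_add, mul_assoc]
  rw [h1]
  exact Tow.mul (Tow.const _) (Tow.two_pow (Tow.mul Tow.id (Tow.const m)))

private lemma card_all71 (q : ℕ) : ∀ m : ℕ,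
    Tow (fun K => Nat.card (Ty (S ⊕ Fin K) (Sum.elim ar (fun _ => 1)) q m)) := by
  induction q with
  | zero => exact fun m => tow_base71 S ar m
  | succ q ih =>
    intro m
    have h1 : (fun K => Nat.card (Ty (S ⊕ Fin K) (Sum.elim ar (fun _ => 1)) (q + 1) m)) = fun K =>
        Nat.card ((Fin m → Fin m → Prop) ×
          ∀ s : S ⊕ Fin K, (Fin (Sum.elim ar (fun _ => 1) s) → Fin m) → Prop) *
          2 ^ Nat.card (Ty (S ⊕ Fin K) (Sum.elim ar (fun _ => 1)) q (m + 1)) := by
      funext K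
      exact card_succ71 (S ⊕ Fin K) (Sum.elim ar (fun _ => 1)) q m
    rw [h1]
    exact Tow.mul (tow_base71 S ar m) (Tow.two_pow (ih (m + 1)))

end aux71

variable {S : Type} {ar : S → ℕ}

theorem card_lty [Finite S] (q : ℕ) :
    Tow (fun K => Nat.card (Ty (S ⊕ Fin K) (Sum.elim ar (fun _ => 1)) q 0)) := by
  exact card_all71 S ar q 0

end Pool.Agent.Helper29.CW
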