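import Pool.Agent.Helper29.CW.Base
import Pool.Agent.Helper29.TD.BFBasic
import Pool.Agent.Helper29.TD.Types

/-!
# Block CW-7: the type of a join is determined by the types of the parts

By `tp_eq_iff` (with `prs` of the empty tuples `= ∅`) it is enough to show, by induction on `q` for all `P₁`, `P₂`: if
`BF (lab J₁ l₁) (lab J₁' l₁') univ univ q P₁` and `BF (lab J₂ l₂) (lab J₂' l₂') univ univ q P₂` then
`BF (lab (jn R J₁ l₁ J₂ l₂) _) (lab (jn R J₁' l₁' J₂' l₂') _) univ univ q (Prod.map inl inl '' P₁ ∪ Prod.map inr inr '' P₂)`.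
A move `inl x` is answered by `inl y` with the answer `y` of the first game, `inr x` by the second game.
`PIso`: equality: clear.  A pair `(x, x')` in `P₁` has `l₁ x = l₁' x'` (the relation `inr (l₁ x)` of `lab`), similarly for `P₂`; so for a tuple
`v` of pairs in the union `Sum.map l₁ l₂ (v i).1 = Sum.map l₁' l₂' (v i).2`.  All `(v i).1` are of the form `inl` iff all `(v i).2` are; the
first two parts of `jn` correspond to each other by `PIso` for the parts, the third one since the labels are equal.  The relations `inr a`: the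
labels of the join are `r` of the same element.
-/

/-!
# Block CW-7: the type of a join is determined by the types of the parts

By `tp_eq_iff` (with `prs` of the empty tuples `= ∅`) it is enough to show, by induction on `q` for all `P₁`, `P₂`: if
`BF (lab J₁ l₁) (lab J₁' l₁') univ univ q P₁` and `BF (lab J₂ l₂) (lab J₂' l₂') univ univ q P₂` then
`BF (lab (jn R J₁ l₁ J₂ l₂) _) (lab (jn R J₁' l₁' J₂' l₂') _) univ univ q (Prod.map inl inl '' P₁ ∪ Prod.map inr inr '' P₂)`.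
A move `inl x` is answered by `inl y` with the answer `y` of the first game, `inr x` by the second game.
`PIso`: equality: clear.  A pair `(x, x')` in `P₁` has `l₁ x = l₁' x'` (the relation `inr (l₁ x)` of `lab`), similarly for `P₂`; so for a tuple
`v` of pairs in the union `Sum.map l₁ l₂ (v i).1 = Sum.map l₁' l₂' (v i).2`.  All `(v i).1` are of the form `inl` iff all `(v i).2` are; the
first two parts of `jn` correspond to each other by `PIso` for the parts, the third one since the labels are equal.  The relations `inr a`: the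
labels of the join are `r` of the same element.
-/

set_option autoImplicit false

namespace Pool.Agent.Helper29.CW

open Pool.Agent.Helper20.Spectra Pool.Agent.Helper29.TD

variable {S : Type} {ar : S → ℕ} {L V₁ V₂ V₁' V₂' : Type}

/-- the pairs of the join -/
private def prj (P₁ : Set (V₁ × V₁')) (P₂ : Set (V₂ × V₂')) : Set ((V₁ ⊕ V₂) × (V₁' ⊕ V₂')) :=
  Prod.map Sum.inl Sum.inl '' P₁ ∪ Prod.map Sum.inr Sum.inr '' P₂

private theorem label_eq {J₁ : Interp S ar V₁} {J₁' : Interp S ar V₁'} {l₁ : V₁ → L}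
    {l₁' : V₁' → L} {P : Set (V₁ × V₁')} (h : PIso (lab J₁ l₁) (lab J₁' l₁') P) {x : V₁} {y : V₁'}
    (hp : (x, y) ∈ P) : l₁ x = l₁' y := by
  have h1 := (h.2 (Sum.inr (l₁ x)) (fun _ => (x, y)) (fun _ => hp)).1 (fun _ => rfl)
  exact (h1 (0 : Fin 1)).symm

private theorem piso_jn {J₁ : Interp S ar V₁} {J₁' : Interp S ar V₁'} {J₂ : Interp S ar V₂}
    {J₂' : Interp S ar V₂'} {l₁ : V₁ → L} {l₁' : V₁' → L} {l₂ : V₂ → L} {l₂' : V₂' → L}
    (R : ∀ s : S, (Fin (ar s) → L ⊕ L) → Prop) (r : L ⊕ L → L)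
    {P₁ : Set (V₁ × V₁')} {P₂ : Set (V₂ × V₂')}
    (h₁ : PIso (lab J₁ l₁) (lab J₁' l₁') P₁) (h₂ : PIso (lab J₂ l₂) (lab J₂' l₂') P₂) :
    PIso (lab (jn R J₁ l₁ J₂ l₂) (fun x => r (Sum.map l₁ l₂ x)))
      (lab (jn R J₁' l₁' J₂' l₂') (fun x => r (Sum.map l₁' l₂' x))) (prj P₁ P₂) := by
  have hmap : ∀ p ∈ prj P₁ P₂, Sum.map l₁ l₂ p.1 = Sum.map l₁' l₂' p.2 := by
    rintro p (⟨⟨x, y⟩, hp, rfl⟩ | ⟨⟨x, y⟩, hp, rfl⟩)
    · change Sum.inl (l₁ x) = Sum.inl (l₁' y)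
      rw [label_eq h₁ hp]
    · change Sum.inr (l₂ x) = Sum.inr (l₂' y)
      rw [label_eq h₂ hp]
  have hL1 : ∀ p ∈ prj P₁ P₂, ∀ x, p.1 = Sum.inl x → ∃ y, p.2 = Sum.inl y ∧ (x, y) ∈ P₁ := by
    rintro p (⟨⟨x, y⟩, hp, rfl⟩ | ⟨⟨x, y⟩, hp, rfl⟩) x' hx'
    · have e : x = x' := Sum.inl.inj hx'
      subst e
      exact ⟨y, rfl, hp⟩
    · exact absurd hx' (by simp)
  have hL2 : ∀ p ∈ prj P₁ P₂, ∀ x, p.1 = Sum.inr x → ∃ y, p.2 = Sum.inr y ∧ (x, y) ∈ P₂ := by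
    rintro p (⟨⟨x, y⟩, hp, rfl⟩ | ⟨⟨x, y⟩, hp, rfl⟩) x' hx'
    · exact absurd hx' (by simp)
    · have e : x = x' := Sum.inr.inj hx'
      subst e
      exact ⟨y, rfl, hp⟩
  have hR1 : ∀ p ∈ prj P₁ P₂, ∀ y, p.2 = Sum.inl y → ∃ x, p.1 = Sum.inl x ∧ (x, y) ∈ P₁ := by
    rintro p (⟨⟨x, y⟩, hp, rfl⟩ | ⟨⟨x, y⟩, hp, rfl⟩) y' hy'
    · have e : y = y' := Sum.inl.inj hy'
      subst e
      exact ⟨x, rfl, hp⟩
    · exact absurd hy' (by simp)
  have hR2 : ∀ p ∈ prj P₁ P₂, ∀ y, p.2 = Sum.inr y → ∃ x, p.1 = Sum.inr x ∧ (x, y) ∈ P₂ := by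
    rintro p (⟨⟨x, y⟩, hp, rfl⟩ | ⟨⟨x, y⟩, hp, rfl⟩) y' hy'
    · exact absurd hy' (by simp)
    · have e : y = y' := Sum.inr.inj hy'
      subst e
      exact ⟨x, rfl, hp⟩
  refine ⟨?_, ?_⟩
  · rintro p (⟨⟨x, y⟩, hp, rfl⟩ | ⟨⟨x, y⟩, hp, rfl⟩) p' (⟨⟨x', y'⟩, hp', rfl⟩ | ⟨⟨x', y'⟩, hp', rfl⟩)
    · have := h₁.1 _ hp _ hp'
      simpa using this
    · simp
    · simp
    · have := h₂.1 _ hp _ hp'
      simpa using this
  · rintro (s | a) v hv
    · change jn R J₁ l₁ J₂ l₂ s (fun i => (v i).1) ↔ jn R J₁' l₁' J₂' l₂' s (fun i => (v i).2)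
      unfold jn
      refine or_congr ?_ (or_congr ?_ (and_congr ?_ (and_congr ?_ ?_)))
      · constructor
        · rintro ⟨u, hu, e⟩
          have h3 : ∀ i, ∃ y, (v i).2 = Sum.inl y ∧ (u i, y) ∈ P₁ := fun i =>
            hL1 _ (hv i) _ (congrFun e i)
          choose u' hu' hm using h3
          exact ⟨u', (h₁.2 (Sum.inl s) (fun i => (u i, u' i)) hm).1 hu, funext hu'⟩
        · rintro ⟨u, hu, e⟩
          have h3 : ∀ i, ∃ x, (v i).1 = Sum.inl x ∧ (x, u i) ∈ P₁ := fun i =>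
            hR1 _ (hv i) _ (congrFun e i)
          choose u' hu' hm using h3
          exact ⟨u', (h₁.2 (Sum.inl s) (fun i => (u' i, u i)) hm).2 hu, funext hu'⟩
      · constructor
        · rintro ⟨u, hu, e⟩
          have h3 : ∀ i, ∃ y, (v i).2 = Sum.inr y ∧ (u i, y) ∈ P₂ := fun i =>
            hL2 _ (hv i) _ (congrFun e i)
          choose u' hu' hm using h3
          exact ⟨u', (h₂.2 (Sum.inl s) (fun i => (u i, u' i)) hm).1 hu, funext hu'⟩
        · rintro ⟨u, hu, e⟩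
          have h3 : ∀ i, ∃ x, (v i).1 = Sum.inr x ∧ (x, u i) ∈ P₂ := fun i =>
            hR2 _ (hv i) _ (congrFun e i)
          choose u' hu' hm using h3
          exact ⟨u', (h₂.2 (Sum.inl s) (fun i => (u' i, u i)) hm).2 hu, funext hu'⟩
      · constructor
        · rintro ⟨i, x, hx⟩
          obtain ⟨y, hy, -⟩ := hL1 _ (hv i) _ hx
          exact ⟨i, y, hy⟩
        · rintro ⟨i, y, hy⟩
          obtain ⟨x, hx, -⟩ := hR1 _ (hv i) _ hy
          exact ⟨i, x, hx⟩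
      · constructor
        · rintro ⟨i, x, hx⟩
          obtain ⟨y, hy, -⟩ := hL2 _ (hv i) _ hx
          exact ⟨i, y, hy⟩
        · rintro ⟨i, y, hy⟩
          obtain ⟨x, hx, -⟩ := hR2 _ (hv i) _ hy
          exact ⟨i, x, hx⟩
      · have e : (fun i => Sum.map l₁ l₂ (v i).1) = fun i => Sum.map l₁' l₂' (v i).2 :=
          funext fun i => hmap _ (hv i)
        exact iff_of_eq (congrArg (R s) e)
    · change (∀ i, r (Sum.map l₁ l₂ (v i).1) = a) ↔ (∀ i, r (Sum.map l₁' l₂' (v i).2) = a)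
      refine forall_congr' fun i => ?_
      rw [hmap _ (hv i)]

private theorem insert_inl (P₁ : Set (V₁ × V₁')) (P₂ : Set (V₂ × V₂')) (x : V₁) (y : V₁') :
    prj (insert (x, y) P₁) P₂ = insert (Sum.inl x, Sum.inl y) (prj P₁ P₂) := by
  unfold prj
  rw [Set.image_insert_eq, Set.insert_union]
  rfl

private theorem insert_inr (P₁ : Set (V₁ × V₁')) (P₂ : Set (V₂ × V₂')) (x : V₂) (y : V₂') :
    prj P₁ (insert (x, y) P₂) = insert (Sum.inr x, Sum.inr y) (prj P₁ P₂) := by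
  unfold prj
  rw [Set.image_insert_eq, Set.union_insert]
  rfl

private theorem bf_jn {J₁ : Interp S ar V₁} {J₁' : Interp S ar V₁'} {J₂ : Interp S ar V₂}
    {J₂' : Interp S ar V₂'} {l₁ : V₁ → L} {l₁' : V₁' → L} {l₂ : V₂ → L} {l₂' : V₂' → L}
    (R : ∀ s : S, (Fin (ar s) → L ⊕ L) → Prop) (r : L ⊕ L → L) (q : ℕ) :
    ∀ {P₁ : Set (V₁ × V₁')} {P₂ : Set (V₂ × V₂')},
    BF (lab J₁ l₁) (lab J₁' l₁') Set.univ Set.univ q P₁ →
    BF (lab J₂ l₂) (lab J₂' l₂') Set.univ Set.univ q P₂ →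
    BF (lab (jn R J₁ l₁ J₂ l₂) (fun x => r (Sum.map l₁ l₂ x)))
      (lab (jn R J₁' l₁' J₂' l₂') (fun x => r (Sum.map l₁' l₂' x))) Set.univ Set.univ q
      (prj P₁ P₂) := by
  induction q with
  | zero => intro P₁ P₂ h₁ h₂; exact piso_jn R r h₁ h₂
  | succ q ih =>
    intro P₁ P₂ h₁ h₂
    refine ⟨piso_jn R r h₁.piso h₂.piso, ?_, ?_⟩
    · rintro (x | x) -
      · obtain ⟨y, -, h3⟩ := h₁.2.1 x trivial
        refine ⟨Sum.inl y, trivial, ?_⟩
        rw [← insert_inl]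
        exact ih h3 (h₂.mono (Nat.le_succ q))
      · obtain ⟨y, -, h3⟩ := h₂.2.1 x trivial
        refine ⟨Sum.inr y, trivial, ?_⟩
        rw [← insert_inr]
        exact ih (h₁.mono (Nat.le_succ q)) h3
    · rintro (y | y) -
      · obtain ⟨x, -, h3⟩ := h₁.2.2 y trivial
        refine ⟨Sum.inl x, trivial, ?_⟩
        rw [← insert_inl]
        exact ih h3 (h₂.mono (Nat.le_succ q))
      · obtain ⟨x, -, h3⟩ := h₂.2.2 y trivial
        refine ⟨Sum.inr x, trivial, ?_⟩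
        rw [← insert_inr]
        exact ih (h₁.mono (Nat.le_succ q)) h3

private theorem prs_empty {M N : Type} (c : Fin 0 → M) (e : Fin 0 → N) : prs c e = ∅ := by
  ext p
  constructor
  · rintro ⟨i, -⟩
    exact i.elim0
  · intro h
    exact h.elim

theorem lty_jn (q : ℕ) {J₁ : Interp S ar V₁} {J₁' : Interp S ar V₁'} {J₂ : Interp S ar V₂}
    {J₂' : Interp S ar V₂'} {l₁ : V₁ → L} {l₁' : V₁' → L} {l₂ : V₂ → L} {l₂' : V₂' → L}
    (R : ∀ s : S, (Fin (ar s) → L ⊕ L) → Prop) (r : L ⊕ L → L)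
    (h₁ : lty q J₁ l₁ = lty q J₁' l₁') (h₂ : lty q J₂ l₂ = lty q J₂' l₂') :
    lty q (jn R J₁ l₁ J₂ l₂) (fun x => r (Sum.map l₁ l₂ x)) =
      lty q (jn R J₁' l₁' J₂' l₂') (fun x => r (Sum.map l₁' l₂' x)) := by
  unfold lty at h₁ h₂ ⊢
  rw [tp_eq_iff, prs_empty] at h₁ h₂ ⊢
  have h3 := bf_jn R r q h₁ h₂
  have e : prj (∅ : Set (V₁ × V₁')) (∅ : Set (V₂ × V₂')) = ∅ := by
    unfold prj
    rw [Set.image_empty, Set.image_empty, Set.union_empty]
  rw [e] at h3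
  exact h3

end Pool.Agent.Helper29.CW
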