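import Pool.Agent.Helper29.CW.TyCard
import Pool.Agent.Helper29.TW.Card

/-!
# Block CW-14: the number of states is bounded by a tower of constant height

`Nat.card (Option α) = Nat.card α + 1` (`Finite.card_option`), `Nat.card` of the product is the product; `card_lty` composed (`TW.tow_comp`) with
`Tow (fun k => KK S (k + 1))`; `Nat.card (Set α) = 2 ^ Nat.card α`, `Nat.card (Fin K × Col S k) = K * (k + 2 ^ (Nat.card S * (2 * k)))`
(functions `S → Bool → Fin k → Prop`).  `Tow.mul`, `Tow.add`, `Tow.two_pow`, `Tow.const`, `Tow.id`.  See `TW/Card.lean` for the method.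
-/

set_option autoImplicit false

namespace Pool.Agent.Helper29.CW

open Pool.Agent.Helper20.Spectra Pool.Agent.Helper29.TD

variable {S : Type} {ar : S → ℕ}

instance finite_Stt [Finite S] (q K k N : ℕ) : Finite (Stt S ar q K k N) := by
  have := finite_Ty (S := S ⊕ Fin K) (ar := Sum.elim ar (fun _ => 1)) q 0
  unfold Stt
  infer_instance

theorem tow_KK (S : Type) : Tow (fun k => KK S (k + 1)) := by
  have h1 : Tow (fun k => k + 1) := Tow.add Tow.id (Tow.const 1)
  have h2 : Tow (fun k => DD S * (k + 1) + 1) := Tow.add (Tow.mul (Tow.const _) h1) (Tow.const 1)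
  have h3 : Tow (fun k => 3 * (DD S * (k + 1) + 1) + 1) := Tow.add (Tow.mul (Tow.const 3) h2) (Tow.const 1)
  exact (Tow.mul h3 (Tow.const (DD S))).two_pow

private lemma card_set141 (α : Type) [Finite α] : Nat.card (Set α) = 2 ^ Nat.card α := by
  have h1 : Nat.card (Set α) = Nat.card (α → Prop) := rfl
  have h2 : Nat.card Prop = 2 := by
    rw [Nat.card_eq_fintype_card]
    rfl
  rw [h1, Nat.card_fun, h2]

private lemma card_Col1 [Finite S] (k : ℕ) :
    Nat.card (Col S k) = k + ((2 ^ k) ^ 2) ^ Nat.card S := by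
  have h2 : Nat.card Prop = 2 := by
    rw [Nat.card_eq_fintype_card]
    rfl
  have h3 : Nat.card Bool = 2 := by
    rw [Nat.card_eq_fintype_card]
    rfl
  rw [Nat.card_sum, Nat.card_fin, Nat.card_fun, Nat.card_fun, Nat.card_fun, h2, h3, Nat.card_fin]

theorem card_Stt [Finite S] (q : ℕ) :
    Tow (fun k => Nat.card (Option (Stt S ar q (KK S (k + 1)) k (NN S k)))) := by
  have hK : Tow (fun k => KK S (k + 1)) := tow_KK S
  have hN : Tow (fun k => 3 * NN S k + 1) :=
    Tow.add (Tow.mul (Tow.const 3) (Tow.add (Tow.mul (Tow.const _) Tow.id) (Tow.const 1))) (Tow.const 1)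
  have hC : Tow (fun k => k + ((2 ^ k) ^ 2) ^ Nat.card S) :=
    Tow.add Tow.id (Tow.pow (Tow.pow (Tow.two_pow Tow.id) (Tow.const 2)) (Tow.const _))
  have hT : Tow (fun k => Nat.card (Ty (S ⊕ Fin (KK S (k + 1))) (Sum.elim ar (fun _ => 1)) q 0)) :=
    TW.tow_comp (card_lty q) hK
  have h : (fun k => Nat.card (Option (Stt S ar q (KK S (k + 1)) k (NN S k)))) = fun k =>
      Nat.card (Ty (S ⊕ Fin (KK S (k + 1))) (Sum.elim ar (fun _ => 1)) q 0) * ((3 * NN S k + 1) *
        2 ^ (2 ^ (KK S (k + 1) * (k + ((2 ^ k) ^ 2) ^ Nat.card S)) *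
          ((3 * NN S k + 1) * (3 * NN S k + 1)))) + 1 := by
    funext k
    rw [Finite.card_option, Nat.card_prod, Nat.card_prod, Nat.card_fin, card_set141, Nat.card_prod,
      Nat.card_prod, Nat.card_fin, card_set141, Nat.card_prod, Nat.card_fin, card_Col1]
  rw [h]
  exact Tow.add (Tow.mul hT (Tow.mul hN (Tow.two_pow (Tow.mul (Tow.two_pow (Tow.mul hK hC))
    (Tow.mul hN hN))))) (Tow.const 1)

end Pool.Agent.Helper29.CW
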