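import Pool.Agent.Helper29.CW.Base

/-!
# Block CW-10: cuts and valid colourings

`cut_iff` (⇒): `κ x := inl (τ x)` for `x ∈ Z`, and for `x ∉ Z` `κ x := inr π` with `π s true c := ∃ z ∈ Z, τ z = c ∧ P2 J s z x`,
`π s false c := ∃ z ∈ Z, τ z = c ∧ P2 J s x z`.  (⇐): `τ x := c` if `κ x = inl c`, and some element of `Fin k` otherwise (`1 ≤ k`).
`lnk_iff`: by `cut_iff`.
-/

set_option autoImplicit false

namespace Pool.Agent.Helper29.CW

open Pool.Agent.Helper20.Spectra Pool.Agent.Helper29.TD

variable {S : Type} {ar : S → ℕ} {V L : Type}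

theorem cut_iff (J : Interp S ar V) {k : ℕ} (hk : 1 ≤ k) (Z : Set V) :
    Cut J k Z ↔ ∃ κ : V → Col S k, Valid J κ ∧ lft κ = Z := by
  classical
  constructor
  · rintro ⟨τ, hτ⟩
    refine ⟨fun x => if x ∈ Z then Sum.inl (τ x) else Sum.inr (fun s b c => ∃ z ∈ Z, τ z = c ∧
      (if b = true then P2 J s z x else P2 J s x z)), ?_, ?_⟩
    · intro x y c π hx hy s
      by_cases hxZ : x ∈ Z
      · by_cases hyZ : y ∈ Z
        · simp only [hyZ, if_true] at hy
          exact absurd hy (by simp)
        · simp only [hxZ, if_true] at hx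
          simp only [hyZ, if_false] at hy
          have hc : τ x = c := Sum.inl.inj hx
          have hπ := Sum.inr.inj hy
          rw [← hπ]
          constructor
          · constructor
            · intro h
              exact ⟨x, hxZ, hc, by simpa using h⟩
            · rintro ⟨z, hz, hzc, h⟩
              have h1 : P2 J s z y := by simpa using h
              exact ((hτ z hz x hxZ (hzc.trans hc.symm) y hyZ) s).1.1 h1
          · constructor
            · intro h
              exact ⟨x, hxZ, hc, by simpa using h⟩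
            · rintro ⟨z, hz, hzc, h⟩
              have h1 : P2 J s y z := by simpa using h
              exact ((hτ z hz x hxZ (hzc.trans hc.symm) y hyZ) s).2.1 h1
      · simp only [hxZ, if_false] at hx
        exact absurd hx (by simp)
    · ext x
      constructor
      · rintro ⟨c, hc⟩
        by_contra hxZ
        simp only [hxZ, if_false] at hc
        exact absurd hc (by simp)
      · intro hx
        exact ⟨τ x, by simp only [hx, if_true]⟩
  · rintro ⟨κ, hκ, rfl⟩
    refine ⟨fun x => Sum.elim id (fun _ => ⟨0, hk⟩) (κ x), ?_⟩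
    rintro x ⟨c, hc⟩ x' ⟨c', hc'⟩ h y hy s
    simp only [hc, hc', Sum.elim_inl, id] at h
    subst h
    obtain ⟨π, hπ⟩ : ∃ π, κ y = Sum.inr π := by
      rcases hky : κ y with d | π
      · exact absurd ⟨d, hky⟩ hy
      · exact ⟨π, rfl⟩
    have h1 := hκ x y c π hc hπ s
    have h2 := hκ x' y c π hc' hπ s
    exact ⟨h1.1.trans h2.1.symm, h1.2.trans h2.2.symm⟩

theorem lnk_iff (J : Interp S ar V) (l : V → L) {k : ℕ} (hk : 1 ≤ k) (N : ℕ) (W : Set V) :
    Lnk J k N W ↔ W.ncard = 3 * N ∧
      ∀ (P : Set (L × Col S k)) (a b : ℕ), Sp J l W P a b → a < N ∨ b < N := by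
  refine and_congr_right fun _ => ⟨?_, ?_⟩
  · rintro h P a b ⟨κ, hκ, -, ha, hb⟩
    rw [← ha, ← hb]
    exact h _ ((cut_iff J hk _).2 ⟨κ, hκ, rfl⟩)
  · intro h Z hZ
    obtain ⟨κ, hκ, rfl⟩ := (cut_iff J hk _).1 hZ
    exact h _ _ _ ⟨κ, hκ, rfl, rfl, rfl⟩

end Pool.Agent.Helper29.CW
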