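import Pool.Agent.Helper29.CW.DerIff
import Pool.Agent.Helper29.CW.Card
import Pool.Agent.Helper29.CW.CutIff
import Pool.Agent.Helper29.TW.DerSmall
import Pool.Agent.Helper29.TW.DerPump

/-!
# Small and large structures with the same state
-/

set_option autoImplicit false

namespace Pool.Agent.Helper29.CW

open Pool.Agent.Helper20.Spectra Pool.Agent.Helper29.TD Pool.Agent.Helper29.TW

variable {S : Type} {ar : S → ℕ}

lemma Sp.le {L V : Type} [Finite V] {J : Interp S ar V} {l : V → L} {W : Set V} {k : ℕ}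
    {P : Set (L × CW.Col S k)} {a b : ℕ} (h : CW.Sp J l W P a b) : a ≤ W.ncard ∧ b ≤ W.ncard := by
  obtain ⟨κ, -, -, rfl, rfl⟩ := h
  exact ⟨Set.ncard_le_ncard Set.inter_subset_left (Set.toFinite _),
    Set.ncard_le_ncard Set.diff_subset (Set.toFinite _)⟩

theorem pump_down [Finite S] (q : ℕ) : ∃ F : ℕ → ℕ, Tow F ∧ ∀ (k : ℕ), 1 ≤ k → ∀ (V : Type)
    (J : Interp S ar V) (l : V → Fin (KK S (k + 1))) (W : Set V),
    CW.Gen S ar (Fin (KK S (k + 1))) V J l → Lnk J k (NN S k) W →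
    ∃ (V' : Type) (J' : Interp S ar V') (l' : V' → Fin (KK S (k + 1))) (W' : Set V'),
      CW.Gen S ar (Fin (KK S (k + 1))) V' J' l' ∧ lty q J' l' = lty q J l ∧
      Lnk J' k (NN S k) W' ∧ Nat.card V' ≤ F k := by
  refine ⟨fun k => 2 ^ Nat.card (Option (CW.Stt S ar q (KK S (k + 1)) k (NN S k))),
    (CW.card_Stt q).two_pow, ?_⟩
  intro k hk V J l W hG hL
  obtain ⟨hW, hL'⟩ := (lnk_iff J l hk (NN S k) W).1 hL
  obtain ⟨σ, hσ⟩ := CW.exists_st q (k := k) J l W hW.le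
  obtain ⟨m, hm, hder⟩ := (CW.der_of_gen hG W σ hσ).small
  obtain ⟨V', J', l', W', hG', hσ', hc⟩ := CW.gen_of_der hder
  have := hG'.finite
  have hW' : W'.ncard = 3 * NN S k := by
    rw [← hσ'.2.1, hσ.2.1, hW]
  refine ⟨V', J', l', W', hG', hσ'.1.symm.trans hσ.1, ?_, ?_⟩
  · rw [lnk_iff J' l' hk (NN S k) W']
    refine ⟨hW', fun P a b hs => ?_⟩
    obtain ⟨ha, hb⟩ := hs.le
    rw [hW'] at ha hb
    have h1 := (hσ'.2.2 (P, ⟨a, by omega⟩, ⟨b, by omega⟩)).2 hs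
    have h2 := (hσ.2.2 (P, ⟨a, by omega⟩, ⟨b, by omega⟩)).1 h1
    exact hL' P a b h2
  · rw [hc]
    exact hm.le

theorem pump_up [Finite S] (q K : ℕ) : ∃ p N : ℕ, 1 ≤ p ∧ ∀ (V : Type)
    (J : Interp S ar V) (l : V → Fin K), CW.Gen S ar (Fin K) V J l → N ≤ Nat.card V →
    ∃ (V' : Type) (J' : Interp S ar V') (l' : V' → Fin K), CW.Gen S ar (Fin K) V' J' l' ∧
      lty q J' l' = lty q J l ∧ Nat.card V' = Nat.card V + p := by
  obtain ⟨p, N, hp, h⟩ := Der.pump (CW.BSt S ar q K 0 0) (CW.USt S ar q K 0 0)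
    (CW.JSt S ar q K 0 0)
  refine ⟨p, N, hp, fun V J l hG hN => ?_⟩
  obtain ⟨σ, hσ⟩ := CW.exists_st q (k := 0) (N := 0) J l (∅ : Set V) (by simp)
  obtain ⟨V', J', l', W', hG', hσ', hc⟩ := CW.gen_of_der (h _ _ hN (CW.der_of_gen hG _ σ hσ))
  exact ⟨V', J', l', hG', hσ'.1.symm.trans hσ.1, hc⟩

end Pool.Agent.Helper29.CW
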