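import Pool.Agent.Helper29.CW.Defs

/-!
# Spectra of sentences whose models have small width: definitions
-/

set_option autoImplicit false

namespace Pool.Agent.Helper29.CW

open FirstOrder FirstOrder.Language Pool.Agent.Helper20.Spectra Pool.Agent.Helper29.TD
  Pool.Agent.Helper29.TW

/-- the three width parameters: number of vertices of a longest path, tree-width, clique-width -/
inductive Width : Type
  | path
  | tree
  | clique

/-- the width `μ` of `(M, I)` is at most `k` -/
def WidthLe {S : Type} {ar : S → ℕ} {M : Type} (μ : Width) (I : Interp S ar M) (k : ℕ) : Prop :=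
  match μ with
  | Width.path => PathLe I k
  | Width.tree => TwLe I k
  | Width.clique => CwLe I k

/-- `A` is the spectrum of a first-order sentence `φ` in finitely many relation symbols (of arity at
most `2` in the case of the clique-width) such that all models of `φ` with `n` elements have width
at most `w n` -/
def WidthSpectrum (μ : Width) (w : ℕ → ℕ) (A : Set ℕ) : Prop :=
  ∃ (S : Type) (_ : Finite S) (ar : S → ℕ) (φ : (RelLang S ar).Sentence),
    (μ = Width.clique → ∀ s, ar s ≤ 2) ∧
    (∀ (n : ℕ) (I : Interp S ar (Fin n)), 1 ≤ n → Sat I φ → WidthLe μ I (w n)) ∧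
    ∀ n : ℕ, n ∈ A ↔ (1 ≤ n ∧ ∃ I : Interp S ar (Fin n), Sat I φ)

end Pool.Agent.Helper29.CW
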