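import Pool.Agent.Helper29.CW.Main
import Pool.Agent.Helper29.CW.Width
import Pool.Agent.Helper29.TW.Main

/-!
# The threshold for the three width parameters
-/

set_option autoImplicit false

namespace Pool.Agent.Helper29.CW

open FirstOrder FirstOrder.Language Pool.Agent.Helper20.Spectra Pool.Agent.Helper20.OP
  Pool.Agent.Helper29.TD Pool.Agent.Helper29.TW Filter

lemma widthSpectrum_path {w : ℕ → ℕ} {A : Set ℕ} :
    WidthSpectrum Width.path w A ↔ ShortSpectrum w A := by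
  constructor
  · rintro ⟨S, hS, ar, φ, -, h1, h2⟩
    exact ⟨S, hS, ar, φ, h1, h2⟩
  · rintro ⟨S, hS, ar, φ, h1, h2⟩
    exact ⟨S, hS, ar, φ, (fun h => Width.noConfusion h), h1, h2⟩

lemma widthSpectrum_tree {w : ℕ → ℕ} {A : Set ℕ} :
    WidthSpectrum Width.tree w A ↔ NarrowSpectrum w A := by
  constructor
  · rintro ⟨S, hS, ar, φ, -, h1, h2⟩
    exact ⟨S, hS, ar, φ, h1, h2⟩
  · rintro ⟨S, hS, ar, φ, h1, h2⟩
    exact ⟨S, hS, ar, φ, (fun h => Width.noConfusion h), h1, h2⟩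

lemma widthSpectrum_clique {w : ℕ → ℕ} {A : Set ℕ} :
    WidthSpectrum Width.clique w A ↔ ThinSpectrum w A := by
  constructor
  · rintro ⟨S, hS, ar, φ, h0, h1, h2⟩
    exact ⟨S, hS, ar, φ, h0 rfl, h1, h2⟩
  · rintro ⟨S, hS, ar, φ, h0, h1, h2⟩
    exact ⟨S, hS, ar, φ, fun _ => h0, h1, h2⟩

theorem width_threshold (μ : Width) (w : ℕ → ℕ) :
    ((∃ d, ∀ᶠ n in atTop, n ≤ E d (w n)) →
      ((∀ A : Set ℕ, WidthSpectrum μ w A → IsRudimentary A) ↔
        ∀ A : Set ℕ, IsSpectrum A ↔ (IsRudimentary A ∧ 0 ∉ A))) ∧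
    ((∀ d, ∀ᶠ n in atTop, E d (w n) ≤ n) →
      ∀ A : Set ℕ, WidthSpectrum μ w A → UltPeriodic A ∧ ∃ L, WidthSpectrum μ (fun _ => L) A) := by
  cases μ with
  | path =>
    simp only [widthSpectrum_path]
    exact TD.threshold w
  | tree =>
    simp only [widthSpectrum_tree]
    exact TW.threshold w
  | clique =>
    simp only [widthSpectrum_clique]
    exact CW.threshold w

end Pool.Agent.Helper29.CW
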