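import Pool.Agent.Helper29.CW.Defs
import Pool.Agent.Helper29.TD.BF

/-!
# Spectra of sentences whose models have small clique-width: auxiliary definitions
-/

set_option autoImplicit false

namespace Pool.Agent.Helper29.CW

open FirstOrder FirstOrder.Language Pool.Agent.Helper20.Spectra Pool.Agent.Helper29.TD

variable {S : Type} {ar : S → ℕ} {M : Type}

/-! ### Cuts with few types -/

/-- the pair `x`, `y` is in the relation `s`, whose arity is at least `2` -/
def P2 (I : Interp S ar M) (s : S) (x y : M) : Prop :=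
  2 ≤ ar s ∧ I s (fun i => if i.1 = 0 then x else y)

/-- `x` and `x'` have the same relations to `y` -/
def Same (I : Interp S ar M) (x x' y : M) : Prop :=
  ∀ s, (P2 I s x y ↔ P2 I s x' y) ∧ (P2 I s y x ↔ P2 I s y x')

/-- there are at most `k` types of elements of `Z` over the other elements -/
def Cut (I : Interp S ar M) (k : ℕ) (Z : Set M) : Prop :=
  ∃ τ : M → Fin k, ∀ x ∈ Z, ∀ x' ∈ Z, τ x = τ x' → ∀ y, y ∉ Z → Same I x x' y

/-- `W` has `3 * N` elements and no `Z` with at most `k` types is balanced on `W` -/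
def Lnk (I : Interp S ar M) (k N : ℕ) (W : Set M) : Prop :=
  W.ncard = 3 * N ∧ ∀ Z : Set M, Cut I k Z → (W ∩ Z).ncard < N ∨ (W \ Z).ncard < N

/-! ### Generated labelled structures -/

variable {L : Type} {V V₁ V₂ : Type}

/-- joining two labelled structures: the tuples meeting both of them are given by the labels -/
def jn (R : ∀ s : S, (Fin (ar s) → L ⊕ L) → Prop) (J₁ : Interp S ar V₁) (l₁ : V₁ → L)
    (J₂ : Interp S ar V₂) (l₂ : V₂ → L) : Interp S ar (V₁ ⊕ V₂) :=
  fun s v => (∃ u : Fin (ar s) → V₁, J₁ s u ∧ v = fun i => Sum.inl (u i)) ∨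
    (∃ u : Fin (ar s) → V₂, J₂ s u ∧ v = fun i => Sum.inr (u i)) ∨
    ((∃ i x, v i = Sum.inl x) ∧ (∃ i y, v i = Sum.inr y) ∧ R s (fun i => Sum.map l₁ l₂ (v i)))

/-- the labelled structures built from structures with one element by joins -/
inductive Gen (S : Type) (ar : S → ℕ) (L : Type) : (V : Type) → Interp S ar V → (V → L) → Prop
  | point (J : Interp S ar Unit) (a : L) : Gen S ar L Unit J (fun _ => a)
  | join (V₁ V₂ : Type) (J₁ : Interp S ar V₁) (J₂ : Interp S ar V₂) (l₁ : V₁ → L) (l₂ : V₂ → L)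
      (R : ∀ s : S, (Fin (ar s) → L ⊕ L) → Prop) (r : L ⊕ L → L) :
      Gen S ar L V₁ J₁ l₁ → Gen S ar L V₂ J₂ l₂ →
      Gen S ar L (V₁ ⊕ V₂) (jn R J₁ l₁ J₂ l₂) (fun x => r (Sum.map l₁ l₂ x))

/-- the substructure on `X`, labelled by `l`, is isomorphic to a generated structure -/
def Rep (I : Interp S ar M) (K : ℕ) (X : Set M) (l : M → Fin K) : Prop :=
  ∃ (V : Type) (J : Interp S ar V) (l' : V → Fin K) (e : V → M), Gen S ar (Fin K) V J l' ∧
    Function.Injective e ∧ Set.range e = X ∧ (∀ x, l' x = l (e x)) ∧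
    ∀ (s : S) (v : Fin (ar s) → V), J s v ↔ I s (fun i => e (v i))

/-- the substructure on `X`, labelled by `l`, is built with `k` labels -/
def Bld (I : Interp S ar M) (k : ℕ) (X : Set M) (l : M → Fin k) : Prop :=
  ∃ (V : Type) (J : Interp S ar V) (l' : V → Fin k) (e : V → M), Expr S ar k V J l' ∧
    Function.Injective e ∧ Set.range e = X ∧ (∀ x, l' x = l (e x)) ∧
    ∀ (s : S) (v : Fin (ar s) → V), J s v ↔ I s (fun i => e (v i))

/-! ### Types -/

/-- the labels as unary relations -/
def lab (J : Interp S ar V) (l : V → L) : Interp (S ⊕ L) (Sum.elim ar (fun _ => 1)) V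
  | Sum.inl s => fun v => J s v
  | Sum.inr a => fun v => ∀ i, l (v i) = a

/-- the type of rank `q` of a labelled structure -/
def lty (q : ℕ) (J : Interp S ar V) (l : V → L) : Ty (S ⊕ L) (Sum.elim ar (fun _ => 1)) q 0 :=
  tp (lab J l) Set.univ q (fun i : Fin 0 => i.elim0)

/-! ### Partitions, as colourings -/

/-- the colours: `inl c` is for the elements of type `c` on the first side, `inr π` for the elements
on the second side with the relations `π` to the elements of the first side -/
abbrev Col (S : Type) (k : ℕ) : Type := Fin k ⊕ (S → Bool → Fin k → Prop)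

def Valid {k : ℕ} (J : Interp S ar V) (κ : V → Col S k) : Prop :=
  ∀ (x y : V) (c : Fin k) (π : S → Bool → Fin k → Prop), κ x = Sum.inl c → κ y = Sum.inr π →
    ∀ s, (P2 J s x y ↔ π s true c) ∧ (P2 J s y x ↔ π s false c)

/-- the elements of the first side -/
def lft {k : ℕ} (κ : V → Col S k) : Set V := {x | ∃ c, κ x = Sum.inl c}

/-- there is a valid colouring in which `P` are the pairs of label and colour, with `a`, `b` elements
of `W` on the first, second side -/
def Sp {k : ℕ} (J : Interp S ar V) (l : V → L) (W : Set V) (P : Set (L × Col S k)) (a b : ℕ) :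
    Prop :=
  ∃ κ : V → Col S k, Valid J κ ∧ Set.range (fun x => (l x, κ x)) = P ∧
    (W ∩ lft κ).ncard = a ∧ (W \ lft κ).ncard = b

/-- the states -/
abbrev Stt (S : Type) (ar : S → ℕ) (q K k N : ℕ) : Type :=
  Ty (S ⊕ Fin K) (Sum.elim ar (fun _ => 1)) q 0 × Fin (3 * N + 1) ×
    Set (Set (Fin K × Col S k) × Fin (3 * N + 1) × Fin (3 * N + 1))

/-- `σ` is the state of `(J, l, W)` -/
def HasSt {q K k N : ℕ} (J : Interp S ar V) (l : V → Fin K) (W : Set V) (σ : Stt S ar q K k N) :
    Prop :=
  σ.1 = lty q J l ∧ (σ.2.1 : ℕ) = W.ncard ∧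
    ∀ κ : Set (Fin K × Col S k) × Fin (3 * N + 1) × Fin (3 * N + 1),
      κ ∈ σ.2.2 ↔ Sp J l W κ.1 κ.2.1 κ.2.2

/-! ### The numbers -/

/-- twice the number of relations, plus one -/
noncomputable def DD (S : Type) : ℕ := 2 * Nat.card S + 1

/-- the number `N` for `k` -/
noncomputable def NN (S : Type) (k : ℕ) : ℕ := DD S * k + 1

/-- the bound for the ranks of the cuts -/
noncomputable def rr (S : Type) (k : ℕ) : ℕ := (3 * NN S k + 1) * DD S

/-- the number of labels -/
noncomputable def KK (S : Type) (k : ℕ) : ℕ := 2 ^ rr S k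

end Pool.Agent.Helper29.CW
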