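import Pool.Agent.Helper29.CW.Base

/-!
# Block CW-4: building a structure by adding elements

`Bld.point`: `V := Unit`, `e _ := x`.  `Bld.rename`: `Expr.rename`; `l' x = r (l x)` for `x ∈ X`.
`Bld.insert`: let `V`, `J`, `l'`, `e` be given for `X`.  Take `V ⊕ Unit`, `e' := Sum.elim e (fun _ => u)`, `Expr.point` with the structure on
`{u}` and the label `l u`, `Expr.union`, then `Expr.add` with
`R s t := ∃ v : Fin (ar s) → M, I s v ∧ (∀ i, v i = u ∨ v i ∈ P) ∧ (∃ i, v i = u) ∧ (∃ i, v i ≠ u) ∧ t = fun i => l (v i)`.
Let `w` be a tuple in `V ⊕ Unit`.  If its labels are `t = l ∘ v` with such a `v`, then `e' (w i) = v i` for all `i`: if `v i = u` the label is `l u`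
and only `u` has this label; if `v i = p ∈ P` then the label is `l p ≠ l u`, so `e' (w i) ∈ X` has the label `l p`, so it is `p`.  Hence
`I s (e' ∘ w)`.  Conversely let `I s (e' ∘ w)`.  If all `w i` are in `V`: the first part of the union.  If all are in `Unit`: the second part.
Otherwise `ar s = 2` (`har`), one element is `u`, the other one is `x ∈ X`, and `Adj I x u`, so `x ∈ P`; the two labels are different.
-/

set_option autoImplicit false

namespace Pool.Agent.Helper29.CW

open Pool.Agent.Helper20.Spectra Pool.Agent.Helper29.TD

variable {S : Type} {ar : S → ℕ} {M : Type} {I : Interp S ar M} {k : ℕ} {X : Set M} {l : M → Fin k}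

theorem Bld.point (x : M) (l : M → Fin k) : Bld I k {x} l := by
  refine ⟨Unit, fun s _ => I s (fun _ => x), fun _ => l x, fun _ => x, Expr.point _ _, ?_, ?_,
    fun _ => rfl, fun _ _ => Iff.rfl⟩
  · intro a b _
    exact Subsingleton.elim a b
  · ext y
    constructor
    · rintro ⟨_, rfl⟩
      rfl
    · intro hy
      exact ⟨(), (Set.mem_singleton_iff.1 hy).symm⟩

theorem Bld.rename (h : Bld I k X l) (r : Fin k → Fin k) {l' : M → Fin k}
    (hl : ∀ x ∈ X, l' x = r (l x)) : Bld I k X l' := by
  obtain ⟨V, J, l₀, e, hE, hi, hr, hlab, hJ⟩ := h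
  refine ⟨V, J, fun x => r (l₀ x), e, Expr.rename V J l₀ r hE, hi, hr, fun x => ?_, hJ⟩
  change r (l₀ x) = l' (e x)
  rw [hl (e x) (by rw [← hr]; exact ⟨x, rfl⟩), hlab x]

theorem Bld.insert (har : ∀ s, ar s ≤ 2) (h : Bld I k X l) {u : M} (hu : u ∉ X) {P : Set M}
    (hP : ∀ p ∈ P, ∀ x ∈ X, l x = l p → x = p) (hPX : P ⊆ X) (hlu : ∀ x ∈ X, l x ≠ l u)
    (hadj : ∀ x ∈ X, Adj I x u → x ∈ P) : Bld I k (insert u X) l := by
  obtain ⟨V, J, l₀, e, hE, hi, hr, hlab, hJ⟩ := h
  have heX : ∀ x, e x ∈ X := fun x => by
    rw [← hr]
    exact ⟨x, rfl⟩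
  set R : ∀ s : S, (Fin (ar s) → Fin k) → Prop := fun s t =>
    ∃ v : Fin (ar s) → M, I s v ∧ (∀ i, v i = u ∨ v i ∈ P) ∧ (∃ i, v i = u) ∧ (∃ i, v i ≠ u) ∧
      t = fun i => l (v i) with hR
  set e' : V ⊕ Unit → M := Sum.elim e (fun _ => u) with he'
  set l'' : V ⊕ Unit → Fin k := Sum.elim l₀ (fun _ => l u) with hl''
  have hE1 := Expr.union V Unit J (fun s _ => I s (fun _ => u)) l₀ (fun _ => l u) hE
    (Expr.point (S := S) (ar := ar) (k := k) (fun s _ => I s (fun _ => u)) (l u))
  have hE2 := Expr.add _ _ _ R hE1
  have hlab' : ∀ x, l'' x = l (e' x) := by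
    rintro (x | x)
    · exact hlab x
    · rfl
  have hins : ∀ x, e' x = u ∨ e' x ∈ X := by
    rintro (x | x)
    · exact Or.inr (heX x)
    · exact Or.inl rfl
  refine ⟨V ⊕ Unit, _, l'', e', hE2, ?_, ?_, hlab', ?_⟩
  · rintro (x | x) (y | y) hxy
    · exact congrArg Sum.inl (hi hxy)
    · exfalso
      have h1 : e x = u := hxy
      exact hu (h1 ▸ heX x)
    · exfalso
      have h1 : u = e y := hxy
      exact hu (h1 ▸ heX y)
    · rfl
  · rw [he', Set.Sum.elim_range, hr]
    ext y
    constructor
    · rintro (hy | ⟨_, rfl⟩)
      · exact Set.mem_insert_of_mem _ hy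
      · exact Set.mem_insert _ _
    · intro hy
      rcases Set.mem_insert_iff.1 hy with rfl | hy
      · exact Or.inr ⟨(), rfl⟩
      · exact Or.inl hy
  · intro s w
    constructor
    · rintro ((⟨w₁, h1, rfl⟩ | ⟨w₁, h1, rfl⟩) | ⟨_, v, h1, h2, h3, h4, h5⟩)
      · exact (hJ s w₁).1 h1
      · exact h1
      · have h6 : (fun i => e' (w i)) = v := by
          funext i
          have h7 : l (e' (w i)) = l (v i) := by
            rw [← hlab' (w i)]
            exact congrFun h5 i
          rcases h2 i with h8 | h8
          · rcases hins (w i) with h9 | h9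
            · rw [h9, h8]
            · rw [h8] at h7
              exact absurd h7 (hlu _ h9)
          · rcases hins (w i) with h9 | h9
            · rw [h9] at h7
              exact absurd h7.symm (hlu _ (hPX h8))
            · exact hP _ h8 _ h9 h7
        rw [h6]
        exact h1
    · intro hI
      by_cases hall : ∀ i, ∃ x, w i = Sum.inl x
      · choose w₁ hw₁ using hall
        refine Or.inl (Or.inl ⟨w₁, (hJ s w₁).2 ?_, funext hw₁⟩)
        have h1 : (fun i => e (w₁ i)) = fun i => e' (w i) := by
          funext i
          rw [hw₁ i]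
          rfl
        rw [h1]
        exact hI
      · push Not at hall
        obtain ⟨j, hj⟩ := hall
        have hj' : w j = Sum.inr () := by
          rcases h : w j with x | x
          · exact absurd h (hj x)
          · rfl
        by_cases hall' : ∀ i, w i = Sum.inr ()
        · refine Or.inl (Or.inr ⟨fun _ => (), ?_, funext hall'⟩)
          have h1 : (fun _ => u) = fun i => e' (w i) := by
            funext i
            rw [hall' i]
            rfl
          change I s (fun _ => u)
          rw [h1]
          exact hI
        · push Not at hall'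
          obtain ⟨i, hi'⟩ := hall'
          obtain ⟨x, hx⟩ : ∃ x, w i = Sum.inl x := by
            rcases h : w i with x | x
            · exact ⟨x, rfl⟩
            · exact absurd h hi'
          have hij : i ≠ j := by
            rintro rfl
            rw [hx] at hj'
            exact absurd hj' (by simp)
          have heij : ∀ b : Fin (ar s), b = i ∨ b = j := by
            intro b
            have h1 := har s
            have h2 := i.2
            have h3 := j.2
            have h4 := b.2
            have h5 : (i : ℕ) ≠ j := fun h => hij (Fin.ext h)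
            by_cases h6 : (b : ℕ) = i
            · exact Or.inl (Fin.ext h6)
            · right
              apply Fin.ext
              omega
          have hne : l'' (w i) ≠ l'' (w j) := by
            rw [hx, hj']
            change l₀ x ≠ l u
            rw [hlab x]
            exact hlu _ (heX x)
          refine Or.inr ⟨?_, fun b => e' (w b), hI, ?_, ⟨j, ?_⟩, ⟨i, ?_⟩, ?_⟩
          · intro a b hab
            have hab' : l'' (w a) = l'' (w b) := hab
            rcases heij a with rfl | rfl <;> rcases heij b with rfl | rfl
            · rfl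
            · exact absurd hab' hne
            · exact absurd hab'.symm hne
            · rfl
          · intro b
            rcases h : w b with y | y
            · right
              have hby : e' (w b) = e y := by
                rw [h]
                rfl
              change e' (w b) ∈ P
              rw [hby]
              refine hadj _ (heX y) ⟨fun h0 => hu (h0 ▸ heX y), s, fun b => e' (w b), hI,
                ⟨b, hby⟩, ⟨j, ?_⟩⟩
              change e' (w j) = u
              rw [hj']
              rfl
            · left
              change e' (w b) = u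
              rw [h]
              rfl
          · change e' (w j) = u
            rw [hj']
            rfl
          · change e' (w i) ≠ u
            rw [hx]
            intro h0
            have h1 : e x = u := h0
            exact hu (h1 ▸ heX x)
          · funext b
            exact hlab' (w b)

/-- all of `M` -/
theorem Bld.cwLe (h : Bld I k Set.univ l) : CwLe I k := by
  obtain ⟨V, J, l₀, e, hE, hi, hr, hlab, hJ⟩ := h
  have hb : Function.Bijective e := ⟨hi, Set.range_eq_univ.1 hr⟩
  refine ⟨V, J, l₀, (Equiv.ofBijective e hb).symm, hE, fun s v => ?_⟩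
  rw [hJ]
  have h1 : (fun i => e ((Equiv.ofBijective e hb).symm (v i))) = v := by
    funext i
    exact (Equiv.ofBijective e hb).apply_symm_apply (v i)
  rw [h1]

end Pool.Agent.Helper29.CW
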