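import Pool.Agent.Helper29.TW.Defs

/-!
# Spectra of sentences whose models have small clique-width: definitions
-/

set_option autoImplicit false

namespace Pool.Agent.Helper29.CW

open FirstOrder FirstOrder.Language Pool.Agent.Helper20.Spectra Pool.Agent.Helper29.TD

variable {S : Type} {ar : S → ℕ} {M : Type}

/-- The structures whose elements have labels in `Fin k`, built from structures with one element by
disjoint union, by renaming the labels, and by adding to each relation `s` all tuples whose labels
are pairwise different and form a tuple in `R s`. -/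
inductive Expr (S : Type) (ar : S → ℕ) (k : ℕ) :
    (V : Type) → Interp S ar V → (V → Fin k) → Prop
  | point (J : Interp S ar Unit) (a : Fin k) : Expr S ar k Unit J (fun _ => a)
  | union (V₁ V₂ : Type) (J₁ : Interp S ar V₁) (J₂ : Interp S ar V₂) (l₁ : V₁ → Fin k)
      (l₂ : V₂ → Fin k) : Expr S ar k V₁ J₁ l₁ → Expr S ar k V₂ J₂ l₂ →
      Expr S ar k (V₁ ⊕ V₂) (fun s v => (∃ u : Fin (ar s) → V₁, J₁ s u ∧ v = fun i => Sum.inl (u i)) ∨
        ∃ u : Fin (ar s) → V₂, J₂ s u ∧ v = fun i => Sum.inr (u i)) (Sum.elim l₁ l₂)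
  | rename (V : Type) (J : Interp S ar V) (l : V → Fin k) (r : Fin k → Fin k) :
      Expr S ar k V J l → Expr S ar k V J (fun x => r (l x))
  | add (V : Type) (J : Interp S ar V) (l : V → Fin k) (R : ∀ s : S, (Fin (ar s) → Fin k) → Prop) :
      Expr S ar k V J l → Expr S ar k V (fun s v => J s v ∨
        (Function.Injective (fun i => l (v i)) ∧ R s (fun i => l (v i)))) l

/-- the clique-width of `(M, I)` is at most `k` -/
def CwLe (I : Interp S ar M) (k : ℕ) : Prop :=
  ∃ (V : Type) (J : Interp S ar V) (l : V → Fin k) (e : M ≃ V), Expr S ar k V J l ∧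
    ∀ (s : S) (v : Fin (ar s) → M), I s v ↔ J s (fun i => e (v i))

/-- `A` is the spectrum of a first-order sentence `φ` in finitely many relation symbols of arity at
most `2` such that all models of `φ` with `n` elements have clique-width at most `w n` -/
def ThinSpectrum (w : ℕ → ℕ) (A : Set ℕ) : Prop :=
  ∃ (S : Type) (_ : Finite S) (ar : S → ℕ) (φ : (RelLang S ar).Sentence), (∀ s, ar s ≤ 2) ∧
    (∀ (n : ℕ) (I : Interp S ar (Fin n)), 1 ≤ n → Sat I φ → CwLe I (w n)) ∧
    ∀ n : ℕ, n ∈ A ↔ (1 ≤ n ∧ ∃ I : Interp S ar (Fin n), Sat I φ)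

end Pool.Agent.Helper29.CW
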