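import Pool.Agent.Helper29.CW.StCong
import Pool.Agent.Helper29.TW.Base

/-!
# Block CW-13: derivable states are the states of generated structures

`TW.Der` has base elements of size `0`, unary steps of size `1` and binary steps.  Here the states are `some σ`, and `none` is an auxiliary base
element; the unary steps lead from `none` to the states of structures with one element.
`Gen.finite`: induction.  `der_of_gen`: induction on `Gen`, for all `W` and `σ`.  `point`: `Der.base none`, then `Der.unary`;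
`Nat.card Unit = 1`.  `join`: given `W` with the state `σ`, `(Sum.inl ⁻¹' W).ncard ≤ W.ncard ≤ 3 * N` (`ncard_sum`), so `exists_st` gives `σ₁`,
`σ₂`, and `JSt` holds by definition.  `Nat.card (V₁ ⊕ V₂) = Nat.card V₁ + Nat.card V₂`.
`gen_of_der`: induction on `Der` for the statement: for all `σ`, if the derived element is `some σ` then there are `V`, ...  `unary`: the
number is `0 + 1`, since a derivation of `none` is a base step (a separate induction: `Der _ _ _ none n → n = 0`).  `join`: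
`W := Sum.inl '' W₁ ∪ Sum.inr '' W₂`, `HasSt.jn`.
-/

set_option autoImplicit false

namespace Pool.Agent.Helper29.CW

open Pool.Agent.Helper20.Spectra Pool.Agent.Helper29.TD Pool.Agent.Helper29.TW

variable (S : Type) (ar : S → ℕ) (q K k N : ℕ)

def BSt (σ : Option (CW.Stt S ar q K k N)) : Prop := σ = none

/-- the states of the structures with one element -/
def USt (σ τ : Option (CW.Stt S ar q K k N)) : Prop :=
  σ = none ∧ ∃ (J : Interp S ar Unit) (a : Fin K) (W : Set Unit) (τ' : CW.Stt S ar q K k N),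
    τ = some τ' ∧ CW.HasSt J (fun _ => a) W τ'

/-- the states of two structures and of a join -/
def JSt (σ₁ σ₂ σ : Option (CW.Stt S ar q K k N)) : Prop :=
  ∃ (V₁ V₂ : Type) (_ : Finite V₁) (_ : Finite V₂) (J₁ : Interp S ar V₁) (J₂ : Interp S ar V₂)
    (l₁ : V₁ → Fin K) (l₂ : V₂ → Fin K) (R : ∀ s : S, (Fin (ar s) → Fin K ⊕ Fin K) → Prop)
    (r : Fin K ⊕ Fin K → Fin K) (W : Set (V₁ ⊕ V₂)) (τ₁ τ₂ τ : CW.Stt S ar q K k N),
    σ₁ = some τ₁ ∧ σ₂ = some τ₂ ∧ σ = some τ ∧ CW.HasSt J₁ l₁ (Sum.inl ⁻¹' W) τ₁ ∧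
    CW.HasSt J₂ l₂ (Sum.inr ⁻¹' W) τ₂ ∧
    CW.HasSt (CW.jn R J₁ l₁ J₂ l₂) (fun x => r (Sum.map l₁ l₂ x)) W τ

variable {S ar q K k N}

theorem Gen.finite {L V : Type} {J : Interp S ar V} {l : V → L} (h : CW.Gen S ar L V J l) :
    Finite V := by
  induction h with
  | point J a => infer_instance
  | join V₁ V₂ J₁ J₂ l₁ l₂ R r h₁ h₂ ih₁ ih₂ => exact Finite.instSum

theorem der_of_gen {V : Type} {J : Interp S ar V} {l : V → Fin K}
    (h : CW.Gen S ar (Fin K) V J l) (W : Set V) (σ : CW.Stt S ar q K k N)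
    (hσ : CW.HasSt J l W σ) :
    Der (CW.BSt S ar q K k N) (CW.USt S ar q K k N) (CW.JSt S ar q K k N) (some σ) (Nat.card V) := by
  induction h generalizing σ with
  | point J a =>
    have h0 : Nat.card Unit = 0 + 1 := by simp
    rw [h0]
    exact Der.unary none (some σ) 0 ⟨rfl, J, a, W, σ, rfl, hσ⟩ (Der.base none rfl)
  | join V₁ V₂ J₁ J₂ l₁ l₂ R r h₁ h₂ ih₁ ih₂ =>
    have hf₁ := h₁.finite
    have hf₂ := h₂.finite
    have hW : W.ncard ≤ 3 * N := by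
      have h3 := hσ.2.1
      have h4 := σ.2.1.2
      omega
    have hs := CW.ncard_sum W
    obtain ⟨σ₁, hσ₁⟩ := CW.exists_st q (k := k) (N := N) J₁ l₁ (Sum.inl ⁻¹' W) (by omega)
    obtain ⟨σ₂, hσ₂⟩ := CW.exists_st q (k := k) (N := N) J₂ l₂ (Sum.inr ⁻¹' W) (by omega)
    rw [Nat.card_sum]
    exact Der.join (some σ₁) (some σ₂) (some σ) _ _
      ⟨V₁, V₂, hf₁, hf₂, J₁, J₂, l₁, l₂, R, r, W, σ₁, σ₂, σ, rfl, rfl, rfl, hσ₁, hσ₂, hσ⟩
      (ih₁ _ _ hσ₁) (ih₂ _ _ hσ₂)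

private theorem gen_of_der_aux {x : Option (CW.Stt S ar q K k N)} {n : ℕ}
    (h : Der (CW.BSt S ar q K k N) (CW.USt S ar q K k N) (CW.JSt S ar q K k N) x n) :
    (x = none → n = 0) ∧ ∀ σ, x = some σ → ∃ (V : Type) (J : Interp S ar V) (l : V → Fin K)
      (W : Set V), CW.Gen S ar (Fin K) V J l ∧ CW.HasSt J l W σ ∧ Nat.card V = n := by
  induction h with
  | base t ht =>
    refine ⟨fun _ => rfl, fun σ hσ => ?_⟩
    have h1 : t = none := ht
    rw [h1] at hσ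
    exact absurd hσ (by simp)
  | unary t t' n hU _ ih =>
    obtain ⟨h0, J, a, W, τ', h1, h2⟩ := hU
    refine ⟨fun h3 => absurd (h1.symm.trans h3) (by simp), fun σ hσ => ?_⟩
    have h4 : τ' = σ := Option.some.inj (h1.symm.trans hσ)
    subst h4
    refine ⟨Unit, J, fun _ => a, W, Gen.point J a, h2, ?_⟩
    rw [ih.1 h0]
    simp
  | join t₁ t₂ t n₁ n₂ hJ _ _ ih₁ ih₂ =>
    obtain ⟨V₁, V₂, hf₁, hf₂, J₁, J₂, l₁, l₂, R, r, W, σ₁, σ₂, τ, e₁, e₂, e, ht₁, ht₂, ht⟩ := hJ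
    refine ⟨fun h3 => absurd (e.symm.trans h3) (by simp), fun σ hσ => ?_⟩
    have h4 : τ = σ := Option.some.inj (e.symm.trans hσ)
    subst h4
    obtain ⟨V₁', J₁', l₁', W₁', hG₁, hs₁, hc₁⟩ := ih₁.2 σ₁ e₁
    obtain ⟨V₂', J₂', l₂', W₂', hG₂, hs₂, hc₂⟩ := ih₂.2 σ₂ e₂
    have hg₁ := hG₁.finite
    have hg₂ := hG₂.finite
    have f1 : (Sum.inl ⁻¹' (Sum.inl '' W₁' ∪ Sum.inr '' W₂' : Set (V₁' ⊕ V₂'))) = W₁' := by
      ext x
      simp
    have f2 : (Sum.inr ⁻¹' (Sum.inl '' W₁' ∪ Sum.inr '' W₂' : Set (V₁' ⊕ V₂'))) = W₂' := by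
      ext x
      simp
    refine ⟨V₁' ⊕ V₂', CW.jn R J₁' l₁' J₂' l₂', fun x => r (Sum.map l₁' l₂' x),
      Sum.inl '' W₁' ∪ Sum.inr '' W₂', Gen.join V₁' V₂' J₁' J₂' l₁' l₂' R r hG₁ hG₂,
      CW.HasSt.jn R r ht₁ (by rw [f1]; exact hs₁) ht₂ (by rw [f2]; exact hs₂) ht, ?_⟩
    rw [Nat.card_sum, hc₁, hc₂]

theorem gen_of_der {σ : CW.Stt S ar q K k N} {n : ℕ}
    (h : Der (CW.BSt S ar q K k N) (CW.USt S ar q K k N) (CW.JSt S ar q K k N) (some σ) n) :
    ∃ (V : Type) (J : Interp S ar V) (l : V → Fin K) (W : Set V),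
      CW.Gen S ar (Fin K) V J l ∧ CW.HasSt J l W σ ∧ Nat.card V = n :=
  (gen_of_der_aux h).2 σ rfl

end Pool.Agent.Helper29.CW
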