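import Pool.Agent.Helper29.CW.Base

/-!
# Block CW-3: generated structures with `K` labels have clique-width at most `2 * K`

`expr_of_gen`: induction on `Gen`; the label of `x` is `Fin.castAdd K (l x)`.  `point`: `Expr.point`.  `join`: by the induction hypotheses
`V₁`, `V₂` are built with the labels `Fin.castAdd K (l₁ x)`, `Fin.castAdd K (l₂ y)`.  `Expr.rename` for `V₂` with a map taking
`Fin.castAdd K a` to `Fin.natAdd K a` (for instance `t ↦ Sum.elim (Fin.natAdd K) (Fin.natAdd K) (finSumFinEquiv.symm t)`).  `Expr.union`: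
now the label of `x : V₁ ⊕ V₂` is `finSumFinEquiv (Sum.map l₁ l₂ x)`.  `Expr.add` with
`R' s t := (∃ i a, t i = Fin.castAdd K a) ∧ (∃ i b, t i = Fin.natAdd K b) ∧ R s (fun i => finSumFinEquiv.symm (t i))`.  As `ar s ≤ 2`, a tuple
meeting both `V₁` and `V₂` has exactly two elements, one in each, so its labels are different: the new tuples are those in `jn`.
`Expr.rename` with `t ↦ Fin.castAdd K (r (finSumFinEquiv.symm t))`.  (The interpretations are equal functions: `funext`, `propext`.)
`Rep.cwLe`: `e` is a bijection `V → M`; take its inverse.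
-/

set_option autoImplicit false

namespace Pool.Agent.Helper29.CW

open Pool.Agent.Helper20.Spectra Pool.Agent.Helper29.TD

variable {S : Type} {ar : S → ℕ} {K : ℕ}

private def sw86 (K : ℕ) (t : Fin (K + K)) : Fin (K + K) :=
  Sum.elim (Fin.natAdd K) (Fin.natAdd K) (finSumFinEquiv.symm t)

private lemma sw86_castAdd (a : Fin K) : sw86 K (Fin.castAdd K a) = Fin.natAdd K a := by
  unfold sw86
  rw [finSumFinEquiv_symm_apply_castAdd]
  rfl

private lemma lab86 {V₁ V₂ : Type} (l₁ : V₁ → Fin K) (l₂ : V₂ → Fin K) :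
    (Sum.elim (fun x => Fin.castAdd K (l₁ x)) (fun x => sw86 K (Fin.castAdd K (l₂ x))) : V₁ ⊕ V₂ → Fin (K + K)) =
      fun x => finSumFinEquiv (Sum.map l₁ l₂ x) := by
  funext x
  rcases x with x | x
  · rfl
  · change sw86 K (Fin.castAdd K (l₂ x)) = finSumFinEquiv (Sum.inr (l₂ x))
    rw [sw86_castAdd]
    rfl

private def RR86 (S : Type) (ar : S → ℕ) (K : ℕ) (R : ∀ s : S, (Fin (ar s) → Fin K ⊕ Fin K) → Prop) (s : S)
    (t : Fin (ar s) → Fin (K + K)) : Prop :=
  (∃ i a, t i = Fin.castAdd K a) ∧ (∃ i b, t i = Fin.natAdd K b) ∧ R s (fun i => finSumFinEquiv.symm (t i))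

private lemma int86 (har : ∀ s, ar s ≤ 2) {V₁ V₂ : Type} (J₁ : Interp S ar V₁) (J₂ : Interp S ar V₂)
    (l₁ : V₁ → Fin K) (l₂ : V₂ → Fin K) (R : ∀ s : S, (Fin (ar s) → Fin K ⊕ Fin K) → Prop) :
    jn R J₁ l₁ J₂ l₂ = fun s v => ((∃ u : Fin (ar s) → V₁, J₁ s u ∧ v = fun i => Sum.inl (u i)) ∨
        ∃ u : Fin (ar s) → V₂, J₂ s u ∧ v = fun i => Sum.inr (u i)) ∨
        (Function.Injective (fun i => finSumFinEquiv (Sum.map l₁ l₂ (v i))) ∧
          RR86 S ar K R s (fun i => finSumFinEquiv (Sum.map l₁ l₂ (v i)))) := by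
  funext s v
  apply propext
  unfold jn RR86
  rw [or_assoc]
  apply or_congr Iff.rfl
  apply or_congr Iff.rfl
  simp only [Equiv.symm_apply_apply]
  constructor
  · rintro ⟨⟨i, x, hx⟩, ⟨j, y, hy⟩, hR⟩
    refine ⟨?_, ⟨i, l₁ x, ?_⟩, ⟨j, l₂ y, ?_⟩, hR⟩
    · have hij : i ≠ j := by
        rintro rfl
        rw [hx] at hy
        exact absurd hy (by simp)
      have hL : finSumFinEquiv (Sum.map l₁ l₂ (v i)) ≠ finSumFinEquiv (Sum.map l₁ l₂ (v j)) := by
        intro h
        have h2 := finSumFinEquiv.injective h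
        rw [hx, hy] at h2
        simp at h2
      have hall : ∀ k : Fin (ar s), k = i ∨ k = j := by
        intro k
        have h1 := har s
        have h2 : (i : ℕ) ≠ j := fun h => hij (Fin.ext h)
        have h3 : (k : ℕ) = i ∨ (k : ℕ) = j := by
          have := i.2; have := j.2; have := k.2
          omega
        rcases h3 with h3 | h3
        · exact Or.inl (Fin.ext h3)
        · exact Or.inr (Fin.ext h3)
      intro a b hab
      rcases hall a with rfl | rfl <;> rcases hall b with rfl | rfl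
      · rfl
      · exact absurd hab hL
      · exact absurd hab.symm hL
      · rfl
    · rw [hx]; rfl
    · rw [hy]; rfl
  · rintro ⟨-, ⟨i, a, ha⟩, ⟨j, b, hb⟩, hR⟩
    refine ⟨?_, ?_, hR⟩
    · rcases hv : v i with x | x
      · exact ⟨i, x, hv⟩
      · exfalso
        rw [hv] at ha
        have h2 : finSumFinEquiv (Sum.inr (l₂ x)) = finSumFinEquiv (Sum.inl a) := ha
        exact absurd (finSumFinEquiv.injective h2) (by simp)
    · rcases hv : v j with x | x
      · exfalso
        rw [hv] at hb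
        have h2 : finSumFinEquiv (Sum.inl (l₁ x)) = finSumFinEquiv (Sum.inr b) := hb
        exact absurd (finSumFinEquiv.injective h2) (by simp)
      · exact ⟨j, x, hv⟩

theorem expr_of_gen (har : ∀ s, ar s ≤ 2) {V : Type} {J : Interp S ar V} {l : V → Fin K}
    (h : Gen S ar (Fin K) V J l) : Expr S ar (K + K) V J (fun x => Fin.castAdd K (l x)) := by
  induction h with
  | point J a => exact Expr.point J (Fin.castAdd K a)
  | join V₁ V₂ J₁ J₂ l₁ l₂ R r _ _ ih₁ ih₂ =>
    have E2 := Expr.rename _ _ _ (sw86 K) ih₂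
    have E3 := Expr.union _ _ _ _ _ _ ih₁ E2
    have E4 := Expr.add _ _ _ (RR86 S ar K R) E3
    have E5 := Expr.rename _ _ _ (fun t => Fin.castAdd K (r (finSumFinEquiv.symm t))) E4
    rw [lab86] at E5
    simp only [Equiv.symm_apply_apply] at E5
    rw [int86 har]
    exact E5

theorem Rep.cwLe (har : ∀ s, ar s ≤ 2) {M : Type} {I : Interp S ar M} {l : M → Fin K}
    (h : Rep I K Set.univ l) : CwLe I (K + K) := by
  obtain ⟨V, J, l', e, hG, hinj, hran, -, hI⟩ := h
  have hb : Function.Bijective e := ⟨hinj, Set.range_eq_univ.mp hran⟩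
  refine ⟨V, J, _, (Equiv.ofBijective e hb).symm, expr_of_gen har hG, ?_⟩
  intro s v
  rw [hI]
  have : (fun i => e ((Equiv.ofBijective e hb).symm (v i))) = v := by
    funext i
    exact (Equiv.ofBijective e hb).apply_symm_apply (v i)
  rw [this]

end Pool.Agent.Helper29.CW
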