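import Pool.Agent.Helper29.CW.Base

/-!
# Block CW-1: every set is split by a cut with few types

Induction on `Expr`.  `point`: `W.ncard ≤ 1 ≤ m`, so there is nothing to prove.
`union`: `W₁ := Sum.inl ⁻¹' W`, `W₂ := Sum.inr ⁻¹' W`, `W₁.ncard + W₂.ncard = W.ncard`.  If `m < W₁.ncard`: take `Z₁`, `τ₁` from the induction
hypothesis, `Z := Sum.inl '' Z₁`, `τ (inl x) := τ₁ x`, `τ (inr y) := ` anything (for instance `l₂ y`).  No tuple of the union contains both
`inl x` and `inr y`, so both `P2` for such pairs are false (there `2 ≤ ar s`, so the tuple has both elements: positions `0` and `1`); for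
`inl x`, `inl x'` use that `P2` of the union for `inl x`, `inl y` is `P2 J₁ s x y`.  Similarly if `m < W₂.ncard`.  If both are at most `m`: one
of them, say `W₁`, has `m < 2 * W₁.ncard`; `Z := range Sum.inl`, `τ := Sum.elim l₁ l₂`: for `x`, `x'` in `Z` and `y ∉ Z` all `P2` are false.
`rename`: the same `Z`, `τ`.  `add`: the same `Z`, `τ`: if `τ x = τ x'` then `l x = l x'`, so the tuples `fun i => if i.1 = 0 then x else y`
and the one for `x'` have the same labels.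
-/

set_option autoImplicit false

namespace Pool.Agent.Helper29.CW

open Pool.Agent.Helper20.Spectra Pool.Agent.Helper29.TD

variable {S : Type} {ar : S → ℕ} {k : ℕ}

theorem Expr.finite {V : Type} {J : Interp S ar V} {l : V → Fin k} (h : Expr S ar k V J l) :
    Finite V := by
  induction h with
  | point J a => infer_instance
  | union V₁ V₂ J₁ J₂ l₁ l₂ h₁ h₂ ih₁ ih₂ => infer_instance
  | rename V J l r h ih => exact ih
  | add V J l R h ih => exact ih

/-- the disjoint union of two structures -/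
private def un88 {V₁ V₂ : Type} (J₁ : Interp S ar V₁) (J₂ : Interp S ar V₂) :
    Interp S ar (V₁ ⊕ V₂) :=
  fun s v => (∃ u : Fin (ar s) → V₁, J₁ s u ∧ v = fun i => Sum.inl (u i)) ∨
    ∃ u : Fin (ar s) → V₂, J₂ s u ∧ v = fun i => Sum.inr (u i)

private theorem un_ll88 {V₁ V₂ : Type} (J₁ : Interp S ar V₁) (J₂ : Interp S ar V₂) (s : S)
    (a b : V₁) : P2 (un88 J₁ J₂) s (Sum.inl a) (Sum.inl b) ↔ P2 J₁ s a b := by
  unfold P2
  refine and_congr_right fun h2 => ?_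
  constructor
  · rintro (⟨u, hu, hv⟩ | ⟨u, hu, hv⟩)
    · have : u = fun i => if i.1 = 0 then a else b := by
        funext i
        have h3 := congrFun hv i
        split_ifs at h3 ⊢ with h4
        · exact (Sum.inl.inj h3).symm
        · exact (Sum.inl.inj h3).symm
      rw [← this]; exact hu
    · have h3 := congrFun hv ⟨0, by omega⟩
      simp at h3
  · intro h
    left
    refine ⟨_, h, ?_⟩
    funext i
    split_ifs <;> rfl

private theorem un_rr88 {V₁ V₂ : Type} (J₁ : Interp S ar V₁) (J₂ : Interp S ar V₂) (s : S)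
    (a b : V₂) : P2 (un88 J₁ J₂) s (Sum.inr a) (Sum.inr b) ↔ P2 J₂ s a b := by
  unfold P2
  refine and_congr_right fun h2 => ?_
  constructor
  · rintro (⟨u, hu, hv⟩ | ⟨u, hu, hv⟩)
    · have h3 := congrFun hv ⟨0, by omega⟩
      simp at h3
    · have : u = fun i => if i.1 = 0 then a else b := by
        funext i
        have h3 := congrFun hv i
        split_ifs at h3 ⊢ with h4
        · exact (Sum.inr.inj h3).symm
        · exact (Sum.inr.inj h3).symm
      rw [← this]; exact hu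
  · intro h
    right
    refine ⟨_, h, ?_⟩
    funext i
    split_ifs <;> rfl

private theorem un_lr88 {V₁ V₂ : Type} (J₁ : Interp S ar V₁) (J₂ : Interp S ar V₂) (s : S)
    (a : V₁) (b : V₂) : ¬ P2 (un88 J₁ J₂) s (Sum.inl a) (Sum.inr b) := by
  rintro ⟨h2, ⟨u, hu, hv⟩ | ⟨u, hu, hv⟩⟩
  · have h3 := congrFun hv ⟨1, by omega⟩
    simp at h3
  · have h3 := congrFun hv ⟨0, by omega⟩
    simp at h3

private theorem un_rl88 {V₁ V₂ : Type} (J₁ : Interp S ar V₁) (J₂ : Interp S ar V₂) (s : S)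
    (a : V₁) (b : V₂) : ¬ P2 (un88 J₁ J₂) s (Sum.inr b) (Sum.inl a) := by
  rintro ⟨h2, ⟨u, hu, hv⟩ | ⟨u, hu, hv⟩⟩
  · have h3 := congrFun hv ⟨0, by omega⟩
    simp at h3
  · have h3 := congrFun hv ⟨1, by omega⟩
    simp at h3

private theorem same_lr88 {V₁ V₂ : Type} (J₁ : Interp S ar V₁) (J₂ : Interp S ar V₂)
    (a a' : V₁) (b : V₂) : Same (un88 J₁ J₂) (Sum.inl a) (Sum.inl a') (Sum.inr b) := fun s =>
  ⟨iff_of_false (un_lr88 J₁ J₂ s a b) (un_lr88 J₁ J₂ s a' b),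
    iff_of_false (un_rl88 J₁ J₂ s a b) (un_rl88 J₁ J₂ s a' b)⟩

private theorem same_rl88 {V₁ V₂ : Type} (J₁ : Interp S ar V₁) (J₂ : Interp S ar V₂)
    (b b' : V₂) (a : V₁) : Same (un88 J₁ J₂) (Sum.inr b) (Sum.inr b') (Sum.inl a) := fun s =>
  ⟨iff_of_false (un_rl88 J₁ J₂ s a b) (un_rl88 J₁ J₂ s a b'),
    iff_of_false (un_lr88 J₁ J₂ s a b) (un_lr88 J₁ J₂ s a b')⟩

private theorem same_ll88 {V₁ V₂ : Type} (J₁ : Interp S ar V₁) (J₂ : Interp S ar V₂)
    {a a' b : V₁} (h : Same J₁ a a' b) :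
    Same (un88 J₁ J₂) (Sum.inl a) (Sum.inl a') (Sum.inl b) := fun s =>
  ⟨by rw [un_ll88, un_ll88]; exact (h s).1, by rw [un_ll88, un_ll88]; exact (h s).2⟩

private theorem same_rr88 {V₁ V₂ : Type} (J₁ : Interp S ar V₁) (J₂ : Interp S ar V₂)
    {a a' b : V₂} (h : Same J₂ a a' b) :
    Same (un88 J₁ J₂) (Sum.inr a) (Sum.inr a') (Sum.inr b) := fun s =>
  ⟨by rw [un_rr88, un_rr88]; exact (h s).1, by rw [un_rr88, un_rr88]; exact (h s).2⟩

private theorem ncard_split88 {V₁ V₂ : Type} [Finite V₁] [Finite V₂] (W : Set (V₁ ⊕ V₂)) :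
    W.ncard = (Sum.inl ⁻¹' W : Set V₁).ncard + (Sum.inr ⁻¹' W : Set V₂).ncard := by
  have h1 : W = Sum.inl '' (Sum.inl ⁻¹' W : Set V₁) ∪ Sum.inr '' (Sum.inr ⁻¹' W : Set V₂) := by
    ext x
    cases x with
    | inl a => simp
    | inr b => simp
  have h2 : Disjoint (Sum.inl '' (Sum.inl ⁻¹' W : Set V₁))
      (Sum.inr '' (Sum.inr ⁻¹' W : Set V₂)) := by
    rw [Set.disjoint_left]
    rintro _ ⟨a, _, rfl⟩ ⟨b, _, hb⟩
    exact absurd hb (by simp)
  conv_lhs => rw [h1]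
  rw [Set.ncard_union_eq h2 (Set.toFinite _) (Set.toFinite _),
    Set.ncard_image_of_injective _ Sum.inl_injective,
    Set.ncard_image_of_injective _ Sum.inr_injective]

private theorem inter_l88 {V₁ V₂ : Type} (W : Set (V₁ ⊕ V₂)) (Z : Set V₁) :
    (W ∩ Sum.inl '' Z).ncard = ((Sum.inl ⁻¹' W : Set V₁) ∩ Z).ncard := by
  have h : W ∩ Sum.inl '' Z = Sum.inl '' ((Sum.inl ⁻¹' W : Set V₁) ∩ Z) := by
    ext x
    cases x with
    | inl a => simp
    | inr b => simp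
  rw [h, Set.ncard_image_of_injective _ Sum.inl_injective]

private theorem inter_r88 {V₁ V₂ : Type} (W : Set (V₁ ⊕ V₂)) (Z : Set V₂) :
    (W ∩ Sum.inr '' Z).ncard = ((Sum.inr ⁻¹' W : Set V₂) ∩ Z).ncard := by
  have h : W ∩ Sum.inr '' Z = Sum.inr '' ((Sum.inr ⁻¹' W : Set V₂) ∩ Z) := by
    ext x
    cases x with
    | inl a => simp
    | inr b => simp
  rw [h, Set.ncard_image_of_injective _ Sum.inr_injective]

theorem expr_split {V : Type} {J : Interp S ar V} {l : V → Fin k} (h : Expr S ar k V J l) {m : ℕ}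
    (hm : 1 ≤ m) (W : Set V) (hW : m < W.ncard) :
    ∃ (Z : Set V) (τ : V → Fin k), (∀ x ∈ Z, ∀ x' ∈ Z, τ x = τ x' → l x = l x' ∧
      ∀ y, y ∉ Z → Same J x x' y) ∧ m < 2 * (W ∩ Z).ncard ∧ (W ∩ Z).ncard ≤ m := by
  induction h with
  | point J a =>
    exfalso
    have h1 : W.ncard ≤ (Set.univ : Set Unit).ncard := Set.ncard_le_ncard (Set.subset_univ _)
    rw [Set.ncard_univ, Nat.card_unique] at h1
    omega
  | union V₁ V₂ J₁ J₂ l₁ l₂ h₁ h₂ ih₁ ih₂ =>
    have := h₁.finite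
    have := h₂.finite
    have hsum := ncard_split88 W
    by_cases hc1 : m < (Sum.inl ⁻¹' W : Set V₁).ncard
    · obtain ⟨Z, τ, hZ, hz1, hz2⟩ := ih₁ _ hc1
      refine ⟨Sum.inl '' Z, Sum.elim τ l₂, ?_, ?_, ?_⟩
      · rintro _ ⟨a, ha, rfl⟩ _ ⟨a', ha', rfl⟩ hτ
        obtain ⟨h3, h4⟩ := hZ a ha a' ha' hτ
        refine ⟨h3, ?_⟩
        rintro (b | b) hb
        · refine same_ll88 J₁ J₂ (h4 b fun hh => hb ⟨b, hh, rfl⟩)
        · exact same_lr88 J₁ J₂ a a' b
      · rw [inter_l88]; exact hz1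
      · rw [inter_l88]; exact hz2
    · by_cases hc2 : m < (Sum.inr ⁻¹' W : Set V₂).ncard
      · obtain ⟨Z, τ, hZ, hz1, hz2⟩ := ih₂ _ hc2
        refine ⟨Sum.inr '' Z, Sum.elim l₁ τ, ?_, ?_, ?_⟩
        · rintro _ ⟨a, ha, rfl⟩ _ ⟨a', ha', rfl⟩ hτ
          obtain ⟨h3, h4⟩ := hZ a ha a' ha' hτ
          refine ⟨h3, ?_⟩
          rintro (b | b) hb
          · exact same_rl88 J₁ J₂ a a' b
          · refine same_rr88 J₁ J₂ (h4 b fun hh => hb ⟨b, hh, rfl⟩)
        · rw [inter_r88]; exact hz1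
        · rw [inter_r88]; exact hz2
      · by_cases hc3 : m < 2 * (Sum.inl ⁻¹' W : Set V₁).ncard
        · refine ⟨Sum.inl '' Set.univ, Sum.elim l₁ l₂, ?_, ?_, ?_⟩
          · rintro _ ⟨a, ha, rfl⟩ _ ⟨a', ha', rfl⟩ hτ
            refine ⟨hτ, ?_⟩
            rintro (b | b) hb
            · exact absurd ⟨b, Set.mem_univ _, rfl⟩ hb
            · exact same_lr88 J₁ J₂ a a' b
          · rw [inter_l88, Set.inter_univ]; exact hc3
          · rw [inter_l88, Set.inter_univ]; omega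
        · refine ⟨Sum.inr '' Set.univ, Sum.elim l₁ l₂, ?_, ?_, ?_⟩
          · rintro _ ⟨a, ha, rfl⟩ _ ⟨a', ha', rfl⟩ hτ
            refine ⟨hτ, ?_⟩
            rintro (b | b) hb
            · exact same_rl88 J₁ J₂ a a' b
            · exact absurd ⟨b, Set.mem_univ _, rfl⟩ hb
          · rw [inter_r88, Set.inter_univ]; omega
          · rw [inter_r88, Set.inter_univ]; omega
  | rename V J l r h ih =>
    obtain ⟨Z, τ, hZ, hz⟩ := ih W hW
    refine ⟨Z, τ, ?_, hz⟩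
    intro x hx x' hx' hτ
    obtain ⟨h3, h4⟩ := hZ x hx x' hx' hτ
    exact ⟨congrArg r h3, h4⟩
  | add V J l R h ih =>
    obtain ⟨Z, τ, hZ, hz⟩ := ih W hW
    refine ⟨Z, τ, ?_, hz⟩
    intro x hx x' hx' hτ
    obtain ⟨h3, h4⟩ := hZ x hx x' hx' hτ
    refine ⟨h3, ?_⟩
    intro y hy s
    obtain ⟨h5, h6⟩ := h4 y hy s
    have e1 : (fun i : Fin (ar s) => l (if i.1 = 0 then x else y)) =
        fun i => l (if i.1 = 0 then x' else y) := by
      funext i
      split_ifs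
      · exact h3
      · rfl
    have e2 : (fun i : Fin (ar s) => l (if i.1 = 0 then y else x)) =
        fun i => l (if i.1 = 0 then y else x') := by
      funext i
      split_ifs
      · rfl
      · exact h3
    unfold P2 at h5 h6 ⊢
    simp only at h5 h6 ⊢
    rw [e1, e2]
    constructor
    · constructor
      · rintro ⟨h2, h7 | h7⟩
        · exact ⟨h2, Or.inl (h5.1 ⟨h2, h7⟩).2⟩
        · exact ⟨h2, Or.inr h7⟩
      · rintro ⟨h2, h7 | h7⟩
        · exact ⟨h2, Or.inl (h5.2 ⟨h2, h7⟩).2⟩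
        · exact ⟨h2, Or.inr h7⟩
    · constructor
      · rintro ⟨h2, h7 | h7⟩
        · exact ⟨h2, Or.inl (h6.1 ⟨h2, h7⟩).2⟩
        · exact ⟨h2, Or.inr h7⟩
      · rintro ⟨h2, h7 | h7⟩
        · exact ⟨h2, Or.inl (h6.2 ⟨h2, h7⟩).2⟩
        · exact ⟨h2, Or.inr h7⟩

end Pool.Agent.Helper29.CW
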