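import Pool.Agent.Helper29.CW.LowA

/-!
# Block CW-2: highly linked sets bound the clique-width from below

`Cut.map`, `Lnk.map`: transport along the equivalence `e` (`Cut` of `e '' Z`, `τ ∘ e.symm`; for `Z : Set N` use `e.symm`; `P2` for
`fun s v => I s (fun i => e.symm (v i))` at `e x`, `e y` is `P2 I s x y`, up to `apply_ite` and `Equiv.symm_apply_apply`).
`Cut.mono`: compose `τ` with `Fin.castLE`.
`low`: transport `W` to `V`; `expr_split` with `m := 2 * N`: `2 * N < 3 * N = W.ncard`; the set `Z` has `2 * N < 2 * (W ∩ Z).ncard` and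
`(W ∩ Z).ncard ≤ 2 * N`, so `(W \ Z).ncard ≥ N` (`Set.ncard_inter_add_ncard_diff_eq_ncard`), a contradiction to `Lnk`.
-/

set_option autoImplicit false

namespace Pool.Agent.Helper29.CW

open Pool.Agent.Helper20.Spectra Pool.Agent.Helper29.TD

variable {S : Type} {ar : S → ℕ} {M N : Type}

theorem Cut.mono {I : Interp S ar M} {k k' : ℕ} (h : k ≤ k') {Z : Set M} (hZ : Cut I k Z) :
    Cut I k' Z := by
  obtain ⟨τ, hτ⟩ := hZ
  refine ⟨fun x => Fin.castLE h (τ x), fun x hx x' hx' he y hy => hτ x hx x' hx' ?_ y hy⟩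
  exact Fin.castLE_injective h he

private theorem p2_map41 (I : Interp S ar M) (e : M ≃ N) (s : S) (x y : M) :
    P2 (fun s v => I s (fun i => e.symm (v i)) : Interp S ar N) s (e x) (e y) ↔ P2 I s x y := by
  unfold P2
  have h : (fun i : Fin (ar s) => e.symm (if i.1 = 0 then e x else e y)) =
      fun i => if i.1 = 0 then x else y := by
    funext i
    split_ifs
    · exact e.symm_apply_apply x
    · exact e.symm_apply_apply y
  change (2 ≤ ar s ∧ I s (fun i => e.symm (if i.1 = 0 then e x else e y))) ↔ _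
  rw [h]

theorem Lnk.map {I : Interp S ar M} {k n : ℕ} {W : Set M} (h : Lnk I k n W) (e : M ≃ N) :
    Lnk (fun s v => I s (fun i => e.symm (v i)) : Interp S ar N) k n (e '' W) := by
  refine ⟨?_, fun Z hZ => ?_⟩
  · rw [Set.ncard_image_of_injective _ e.injective]
    exact h.1
  · obtain ⟨τ, hτ⟩ := hZ
    have hcut : Cut I k (e ⁻¹' Z) := by
      refine ⟨fun x => τ (e x), fun x hx x' hx' he y hy s => ?_⟩
      have h1 := hτ (e x) hx (e x') hx' he (e y) hy s
      rw [p2_map41, p2_map41, p2_map41, p2_map41] at h1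
      exact h1
    have h2 := h.2 _ hcut
    rw [← Set.image_inter_preimage, ← Set.image_sdiff_preimage,
      Set.ncard_image_of_injective _ e.injective, Set.ncard_image_of_injective _ e.injective]
    exact h2

/-- a structure of clique-width at most `k` has no linked set -/
theorem low {I : Interp S ar M} {k n : ℕ} (hn : 1 ≤ n) (h : CwLe I k) (W : Set M) :
    ¬ Lnk I k n W := by
  intro hL
  obtain ⟨V, J, l, e, hE, hI⟩ := h
  have h1 := hL.map e
  have hJ : (fun s v => I s (fun i => e.symm (v i)) : Interp S ar V) = J := by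
    funext s v
    apply propext
    rw [hI]
    simp only [Equiv.apply_symm_apply]
  rw [hJ] at h1
  have : Finite V := hE.finite
  obtain ⟨Z, τ, h2, h3, h4⟩ := expr_split hE (m := 2 * n) (by omega) (e '' W) (by rw [h1.1]; omega)
  have hcut : Cut J k Z := ⟨τ, fun x hx x' hx' he y hy => (h2 x hx x' hx' he).2 y hy⟩
  have h5 := Set.ncard_inter_add_ncard_sdiff_eq_ncard (e '' W) Z (Set.toFinite _)
  rw [h1.1] at h5
  rcases h1.2 Z hcut with h6 | h6
  · omega
  · omega

end Pool.Agent.Helper29.CW
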