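import Pool.Agent.Helper29.CW.ShortCw
import Pool.Agent.Helper29.TD.Main

/-!
# Block CW-6: above an iterated logarithm the thin spectra are as hard as all spectra

`short2_sizes`: the proof of `TD.short_sizes`, with `∀ s, Sy.ar s ≤ 2` (cases).
`thin_of_short2`: for a model `I` with `n ≥ 1` elements `PathLe I (w n - 1)`, so `1 ≤ w n - 1` (a single vertex is a path), and `cwLe_of_pathLe`
gives `CwLe I (w n - 1 + 1)`, `w n - 1 + 1 = w n`.
`wild`: the proof of `TD.wild` with `w' n := w n - 1`: `n ≤ E d (w n) ≤ E (d + 1) (w n - 1)` since `w n ≤ 2 ^ (w n - 1)`, and `hr` is used only for the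
two sets given by `short_sizes`, here by `short2_sizes` and `thin_of_short2`.
-/

set_option autoImplicit false

namespace Pool.Agent.Helper29.CW

open FirstOrder FirstOrder.Language Pool.Agent.Helper20.Spectra Pool.Agent.Helper29.Prefix
  Pool.Agent.Helper20.OP Pool.Agent.Helper29.TD Filter

/-- `A` is the spectrum of a sentence in relations of arity at most `2`, with only short paths -/
def Short2 (w : ℕ → ℕ) (A : Set ℕ) : Prop :=
  ∃ (S : Type) (_ : Finite S) (ar : S → ℕ) (φ : (RelLang S ar).Sentence), (∀ s, ar s ≤ 2) ∧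
    (∀ (n : ℕ) (I : Interp S ar (Fin n)), 1 ≤ n → Sat I φ → PathLe I (w n)) ∧
    ∀ n : ℕ, n ∈ A ↔ (1 ≤ n ∧ ∃ I : Interp S ar (Fin n), Sat I φ)

theorem short2_sizes {w : ℕ → ℕ} {d0 c0 : ℕ} (h2 : 2 ≤ c0)
    (hthr : ∀ N n : ℕ, c0 ≤ (Nat.clog 2)^[d0 + 2] N → (Nat.clog 2)^[d0 + 2] N ≤ n → N ≤ n →
      ((Nat.clog 2)^[d0 + 2] N + 1) * (2 * (d0 + 2 + 3) + 1) ≤ w n) {Γ : Type} [Finite Γ]
    (W : Wang Γ) : Short2 w (Sizes (d0 + 2) c0 W) := by
  obtain ⟨φ, hφ⟩ := (def_cond (d0 + 2) c0 W).exists_sentence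
  refine ⟨Sy Γ, inferInstance, Sy.ar, φ, ?_, ?_, ?_⟩
  · intro s
    cases s <;> simp [Sy.ar]
  · intro n I hn hI
    have hI' : Sat (St.ofI I).toI φ := by rw [St.toI_ofI]; exact hI
    have hC := (hφ _ _).1 hI'
    obtain ⟨N, m, h3, h4, h5, h6, -⟩ := hC.decode h2
    have h7 := hC.1.pathLe
    rw [St.toI_ofI, ← h4] at h7
    rw [Nat.card_fin] at h6
    have h8 := le_Fs (d0 + 2) N
    refine h7.mono (hthr N n h3 ?_ (by omega))
    rw [h4]
    have := Finite.card_subtype_le (fun a => (St.ofI I).apex a)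
    rwa [Nat.card_fin] at this
  · intro n
    constructor
    · rintro ⟨N, m, h3, h4, h5, rfl⟩
      obtain ⟨V, hV, R, hR, hc⟩ := encode W h2 h3 h5 h4
      have h8 := le_Fs (d0 + 2) N
      refine ⟨by omega, ?_⟩
      let e : V ≃ Fin (Fs (d0 + 2) N + m) := (Finite.equivFin V).trans (finCongr hc)
      exact ⟨_, (Sat.iso R.toI e φ).1 ((hφ _ _).2 hR)⟩
    · rintro ⟨hn, I, hI⟩
      have hI' : Sat (St.ofI I).toI φ := by rw [St.toI_ofI]; exact hI
      have hC := (hφ _ _).1 hI'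
      obtain ⟨N, m, h3, h4, h5, h6, h7⟩ := hC.decode h2
      rw [Nat.card_fin] at h6
      exact ⟨N, m, h3, h7, h5, h6⟩

theorem thin_of_short2 {w : ℕ → ℕ} {A : Set ℕ} (h : Short2 (fun n => w n - 1) A) :
    ThinSpectrum w A := by
  obtain ⟨S, hS, ar, φ, har, h1, h2⟩ := h
  refine ⟨S, hS, ar, φ, har, fun n I hn hI => ?_, h2⟩
  have hp : PathLe I (w n - 1) := h1 n I hn hI
  haveI : Nonempty (Fin n) := ⟨⟨0, hn⟩⟩
  have h3 : 1 ≤ w n - 1 := by
    refine hp 1 (fun _ => ⟨0, hn⟩) ⟨fun a b _ => Subsingleton.elim a b, fun i j hij => ?_⟩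
    have := i.2
    have := j.2
    omega
  have h4 := cwLe_of_pathLe har hp
  rwa [show w n - 1 + 1 = w n by omega] at h4

theorem wild (w : ℕ → ℕ) (hw : ∃ d, ∀ᶠ n in atTop, n ≤ E d (w n))
    (hr : ∀ A : Set ℕ, ThinSpectrum w A → IsRudimentary A) :
    ∀ A : Set ℕ, IsSpectrum A ↔ (IsRudimentary A ∧ 0 ∉ A) := by
  obtain ⟨d1, hd1⟩ := hw
  have hd2 : ∀ᶠ n in atTop, n ≤ E (d1 + 1) (w n - 1) := by
    filter_upwards [hd1] with n hn
    refine hn.trans ?_
    rw [← E_two_pow]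
    refine E_mono d1 ?_
    rcases Nat.eq_zero_or_pos (w n) with h | h
    · rw [h]; exact Nat.zero_le _
    · have h5 : w n - 1 < 2 ^ (w n - 1) := Nat.lt_two_pow_self
      omega
  obtain ⟨d0, hd0⟩ : ∃ d0, ∀ᶠ n in atTop, n ≤ E d0 (w n - 1) := ⟨d1 + 1, hd2⟩
  obtain ⟨c0, h2, hthr⟩ := thr (fun n => w n - 1) d0 hd0
  intro A
  refine ⟨fun hA => ⟨?_, hA.zero_notMem⟩, fun hA => hA.1.isSpectrum hA.2⟩
  obtain ⟨Θ₀, hΘ₀⟩ := exists_universal_two
  obtain ⟨g, hg2, hg⟩ := hΘ₀ A hA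
  have hS₁ := hr _ (thin_of_short2 (short2_sizes h2 hthr triv))
  have hS₂ := hr _ (thin_of_short2 (short2_sizes h2 hthr (blockWang Θ₀)))
  have hred := red hS₁ hS₂ (Fs (d0 + 2)) (fun N => c0 ≤ (Nat.clog 2)^[d0 + 2] N)
    (fun N => Tiles (blockWang Θ₀) N)
    (Polynomial.X + (1 + 2 * (Polynomial.X + 1) ^ (d0 + 2)) * Polynomial.X ^ 2)
    (Fs_gap (d0 + 2)) (fun N => by
      have := Fs_le (d0 + 2) N
      simpa using this)
    (fun n => by
      constructor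
      · rintro ⟨N, m, h3, -, h5, h6⟩
        exact ⟨N, m, h3, h5, h6⟩
      · rintro ⟨N, m, h3, h5, h6⟩
        exact ⟨N, m, h3, tiles_triv N, h5, h6⟩)
    (fun n => Iff.rfl)
  obtain ⟨N1, hN1⟩ := le_clog_iter (d0 + 2) c0
  have hsq : IsRudimentary (squareSizes Θ₀) := by
    refine rud_of_eventually hred (N1 + 1) (fun n hn => ?_)
    rw [mem_squareSizes_iff Θ₀ (by omega)]
    constructor
    · rintro ⟨-, -, h⟩
      exact h
    · intro h
      exact ⟨by omega, hN1 n (by omega), h⟩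
  rw [hg]
  exact hsq.preimage g

end Pool.Agent.Helper29.CW
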