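import Pool.Agent.Helper29.CW.Tame
import Pool.Agent.Helper29.CW.Wild

/-!
# The threshold for the clique-width
-/

set_option autoImplicit false

namespace Pool.Agent.Helper29.CW

open FirstOrder FirstOrder.Language Pool.Agent.Helper20.Spectra Pool.Agent.Helper20.OP
  Pool.Agent.Helper29.TD Filter

/-- a thin spectrum is a spectrum -/
lemma ThinSpectrum.isSpectrum {w : ℕ → ℕ} {A : Set ℕ} (h : ThinSpectrum w A) : IsSpectrum A := by
  obtain ⟨S, hS, ar, φ, -, -, h2⟩ := h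
  have h3 : ShortSpectrum (fun n => n) A := by
    refine ⟨S, hS, ar, φ, fun n I _ _ l p hp => ?_, h2⟩
    simpa using Fintype.card_le_of_injective p hp.1
  exact h3.isSpectrum

theorem threshold (w : ℕ → ℕ) :
    ((∃ d, ∀ᶠ n in atTop, n ≤ E d (w n)) →
      ((∀ A : Set ℕ, ThinSpectrum w A → IsRudimentary A) ↔
        ∀ A : Set ℕ, IsSpectrum A ↔ (IsRudimentary A ∧ 0 ∉ A))) ∧
    ((∀ d, ∀ᶠ n in atTop, E d (w n) ≤ n) →
      ∀ A : Set ℕ, ThinSpectrum w A → UltPeriodic A ∧ ∃ L, ThinSpectrum (fun _ => L) A) := by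
  refine ⟨fun h => ⟨fun hr => wild w h hr, fun hr A hA => ?_⟩, fun h A hA => tame w h A hA⟩
  exact ((hr A).1 hA.isSpectrum).1

end Pool.Agent.Helper29.CW
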