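import Pool.Agent.Helper29.CW.Rk

/-!
# Block CW-20: independent columns

The columns in `Y` (as functions on `X`) span a space of dimension `rk m X Y ≥ n`, so there is a linearly independent family of `n` of them
(`exists_linearIndependent` or a basis contained in the spanning set); let `B` be a set of `n` elements of `Y` giving it.  For `X ⊆ Z` the
columns in `B` are also linearly independent as functions on `Z` (restrict to `X`), so for `B' ⊆ B` the span of the columns in `B'` has
dimension `B'.ncard`.
-/

set_option autoImplicit false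

namespace Pool.Agent.Helper29.CW

variable {M : Type}

theorem exists_base [Finite M] (m : M → M → ZMod 2) (X Y : Set M) {n : ℕ} (hn : n ≤ rk m X Y) :
    ∃ B : Set M, B ⊆ Y ∧ B.ncard = n ∧ ∀ (Z B' : Set M), X ⊆ Z → B' ⊆ B →
      B'.ncard ≤ rk m Z B' := by
  classical
  obtain ⟨κ, a, ha, hspan, hli⟩ := exists_linearIndependent' (ZMod 2)
    (fun (y : Y) => fun (x : X) => m x.1 y.1)
  have hfin : Finite κ := Finite.of_injective a ha
  have hfκ : Fintype κ := Fintype.ofFinite κ
  have hcard : Nat.card κ = rk m X Y := by
    rw [rk, ← hspan, finrank_span_eq_card hli, Nat.card_eq_fintype_card]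
  have hinj : Function.Injective (fun k => ((a k : Y) : M)) := fun k l h => ha (Subtype.ext h)
  have hB0 : (Set.range (fun k => ((a k : Y) : M))).ncard = rk m X Y := by
    rw [← hcard, ← Nat.card_coe_set_eq]
    exact Nat.card_congr (Equiv.ofInjective _ hinj).symm
  obtain ⟨B, hB1, hB2⟩ := Set.exists_subset_card_eq (hB0 ▸ hn)
  refine ⟨B, ?_, hB2, ?_⟩
  · intro y hy
    obtain ⟨k, rfl⟩ := hB1 hy
    exact (a k).2
  · intro Z B' hZ hB'
    refine le_trans ?_ (rk_mono m hZ (subset_refl B'))
    have hch : ∀ y : B', ∃ k, ((a k : Y) : M) = y.1 := fun y => hB1 (hB' y.2)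
    choose g hg using hch
    have hginj : Function.Injective g := by
      intro y z h
      apply Subtype.ext
      rw [← hg y, ← hg z, h]
    have hli2 := hli.comp g hginj
    have heq : ((fun (y : Y) => fun (x : X) => m x.1 y.1) ∘ a) ∘ g =
        fun (y : B') => fun (x : X) => m x.1 y.1 := by
      funext y x
      simp only [Function.comp_apply, hg]
    rw [heq] at hli2
    have hfB : Fintype B' := Fintype.ofFinite B'
    rw [rk, finrank_span_eq_card hli2, ← Nat.card_eq_fintype_card, Nat.card_coe_set_eq]

end Pool.Agent.Helper29.CW
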