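import Pool.Agent.Helper29.CW.Rk

/-!
# Block CW-18: a matrix with at most `k` different rows has rank at most `k`

The columns, as functions on `X`, all lie in the image of the linear map `(Fin k → ZMod 2) → (X → ZMod 2)`, `f ↦ fun x => f (τ x)`: for the column
`y` take `f c := m z y` where `z ∈ X` with `τ z = c` (if there is one).  The image has dimension at most `k`.
-/

set_option autoImplicit false

namespace Pool.Agent.Helper29.CW

variable {M : Type}

theorem rk_le_of_types [Finite M] (m : M → M → ZMod 2) (X Y : Set M) {k : ℕ} (τ : M → Fin k)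
    (h : ∀ x ∈ X, ∀ x' ∈ X, τ x = τ x' → ∀ y ∈ Y, m x y = m x' y) : rk m X Y ≤ k := by
  classical
  let L : (Fin k → ZMod 2) →ₗ[ZMod 2] (X → ZMod 2) :=
    { toFun := fun f x => f (τ x.1)
      map_add' := fun f g => rfl
      map_smul' := fun c f => rfl }
  have hle : Submodule.span (ZMod 2) (Set.range fun (y : Y) => fun (x : X) => m x.1 y.1) ≤
      LinearMap.range L := by
    rw [Submodule.span_le]
    rintro _ ⟨y, rfl⟩
    refine ⟨fun c => if hc : ∃ z ∈ X, τ z = c then m hc.choose y.1 else 0, ?_⟩
    funext x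
    have hc : ∃ z ∈ X, τ z = τ x.1 := ⟨x.1, x.2, rfl⟩
    change (if hc : ∃ z ∈ X, τ z = τ x.1 then m hc.choose y.1 else 0) = m x.1 y.1
    rw [dif_pos hc]
    exact h _ hc.choose_spec.1 _ x.2 hc.choose_spec.2 _ y.2
  have : Finite X := inferInstance
  calc rk m X Y ≤ Module.finrank (ZMod 2) (LinearMap.range L) := Submodule.finrank_mono hle
    _ ≤ Module.finrank (ZMod 2) (Fin k → ZMod 2) := LinearMap.finrank_range_le L
    _ = k := by rw [Module.finrank_fin_fun]

end Pool.Agent.Helper29.CW
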