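import Pool.Agent.Helper29.CW.Rk

/-!
# Block CW-19: a matrix of small rank has few different rows

The rows (as functions on `Y`) lie in the row space, which has dimension `rk m X Y` (`rk_transpose`), so it has `2 ^ rk m X Y` elements
(`Module.card_eq_pow_finrank`, `ZMod.card`).  So there is an injection of the row space into `Fin (2 ^ rk m X Y)`; `τ x` is the number of the row
`x` for `x ∈ X`, and `0` for `x ∉ X`.
-/

set_option autoImplicit false

namespace Pool.Agent.Helper29.CW

variable {M : Type}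

theorem exists_types [Finite M] (m : M → M → ZMod 2) (X Y : Set M) :
    ∃ τ : M → Fin (2 ^ rk m X Y), ∀ x ∈ X, ∀ x' ∈ X, (τ x = τ x' ↔ ∀ y ∈ Y, m x y = m x' y) := by
  classical
  obtain ⟨V, hV⟩ : ∃ V : Submodule (ZMod 2) (Y → ZMod 2), V = Submodule.span (ZMod 2)
      (Set.range fun (x : X) => fun (y : Y) => m x.1 y.1) := ⟨_, rfl⟩
  have hrk : Module.finrank (ZMod 2) V = rk m X Y := by
    rw [← rk_transpose m Y X, hV]
    rfl
  have hfin : Finite V := Subtype.finite
  have hcard : Nat.card V = 2 ^ rk m X Y := by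
    rw [← hrk, Module.natCard_eq_pow_finrank (K := ZMod 2) (V := V), Nat.card_zmod]
  have e : V ≃ Fin (2 ^ rk m X Y) := Finite.equivFinOfCardEq hcard
  have hmem : ∀ x ∈ X, (fun y : Y => m x y.1) ∈ V := by
    intro x hx
    rw [hV]
    exact Submodule.subset_span ⟨⟨x, hx⟩, rfl⟩
  refine ⟨fun x => if h : x ∈ X then e ⟨fun y : Y => m x y.1, hmem x h⟩ else e 0, ?_⟩
  intro x hx x' hx'
  simp only [dif_pos hx, dif_pos hx']
  rw [e.apply_eq_iff_eq, Subtype.mk.injEq]
  constructor
  · intro h y hy
    exact congrFun h ⟨y, hy⟩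
  · intro h
    funext y
    exact h y.1 y.2

end Pool.Agent.Helper29.CW
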