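import Pool.Agent.Helper29.CW.RkSub
import Pool.Agent.Helper29.CW.RkFew
import Pool.Agent.Helper29.CW.RkTypes
import Pool.Agent.Helper29.CW.RkBase

/-!
# Block CW-21: the order of a cut

`ord I Z` is the sum of the ranks of the `2 * Fintype.card S` matrices with rows `Z` and columns `Zᶜ`; `mt I s (!b) x y = mt I s b y x`.
`ord_compl`: `rk_transpose` and the permutation `(s, b) ↦ (s, !b)` of the summands.  `ord_submod`: `rk_submod` for each summand
(`Set.compl_inter`, `Set.compl_union`).  `ord_le_of_cut`: each rank is at most `k` by `rk_le_of_types`; there are `2 * card S ≤ DD S` summands.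
`ord_singleton`: `rk_le_ncard`.  `ord_types`: the product of the functions of `exists_types` has at most `2 ^ ord I Z ≤ 2 ^ r` values; choose an
injection of the product of the `Fin (2 ^ rk ..)` into `Fin (2 ^ r)` (cardinalities, `Finset.prod_pow_eq_pow_sum`).
`ord_base`: some summand `rk (mt I s b) X Xᶜ` is at least `n` (for `n = 0` take `B = ∅`); `exists_base` with `Y = Xᶜ`, `B' = B \ Z`, and
`rk (mt I s b) Z (B \ Z) ≤ rk (mt I s b) Z Zᶜ ≤ ord I Z`.
-/

set_option autoImplicit false

namespace Pool.Agent.Helper29.CW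

open Classical Pool.Agent.Helper20.Spectra Pool.Agent.Helper29.TD

variable {S : Type} {ar : S → ℕ} {M : Type}

/-- the matrix of the relation `s` or of its inverse -/
noncomputable def mt (I : Interp S ar M) (s : S) (b : Bool) (x y : M) : ZMod 2 :=
  if (if b = true then P2 I s x y else P2 I s y x) then 1 else 0

/-- the order of the cut `Z` -/
noncomputable def ord [Fintype S] (I : Interp S ar M) (Z : Set M) : ℕ :=
  ∑ d : S × Bool, rk (mt I d.1 d.2) Z Zᶜ

variable [Fintype S] [Finite M] {I : Interp S ar M}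

omit [Finite M] in
private theorem rk_le_ord97 (Z : Set M) (d : S × Bool) : rk (mt I d.1 d.2) Z Zᶜ ≤ ord I Z := by
  unfold ord
  exact Finset.single_le_sum (f := fun d : S × Bool => rk (mt I d.1 d.2) Z Zᶜ)
    (fun _ _ => Nat.zero_le _) (Finset.mem_univ d)

omit [Finite M] in
private theorem ord_le97 {Z : Set M} {k : ℕ} (h : ∀ d : S × Bool, rk (mt I d.1 d.2) Z Zᶜ ≤ k) :
    ord I Z ≤ (2 * Fintype.card S) * k := by
  unfold ord
  refine (Finset.sum_le_card_nsmul _ _ k fun d _ => h d).trans (le_of_eq ?_)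
  rw [Finset.card_univ, Fintype.card_prod, Fintype.card_bool, smul_eq_mul]
  ring

omit [Fintype S] [Finite M] in
private theorem mt_iff97 (s : S) (x x' y y' : M) : mt I s true x y = mt I s true x' y' ↔
    (P2 I s x y ↔ P2 I s x' y') := by
  unfold mt
  by_cases h1 : P2 I s x y <;> by_cases h2 : P2 I s x' y' <;> simp [h1, h2]

omit [Fintype S] [Finite M] in
private theorem mt_iff97' (s : S) (x x' y y' : M) : mt I s false x y = mt I s false x' y' ↔
    (P2 I s y x ↔ P2 I s y' x') := by
  unfold mt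
  by_cases h1 : P2 I s y x <;> by_cases h2 : P2 I s y' x' <;> simp [h1, h2]

omit [Fintype S] [Finite M] in
private theorem mt_not97 (s : S) (b : Bool) (x y : M) : mt I s (!b) x y = mt I s b y x := by
  unfold mt
  cases b
  · rfl
  · rfl

omit [Fintype S] [Finite M] in
private theorem same_iff97 (x x' y : M) : Same I x x' y ↔
    ∀ d : S × Bool, mt I d.1 d.2 x y = mt I d.1 d.2 x' y := by
  constructor
  · rintro h ⟨s, b⟩
    cases b
    · exact (mt_iff97' s x x' y y).2 (h s).2
    · exact (mt_iff97 s x x' y y).2 (h s).1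
  · intro h s
    exact ⟨(mt_iff97 s x x' y y).1 (h (s, true)), (mt_iff97' s x x' y y).1 (h (s, false))⟩

theorem ord_compl (Z : Set M) : ord I Zᶜ = ord I Z := by
  unfold ord
  refine Fintype.sum_equiv (Equiv.prodCongr (Equiv.refl S) Equiv.boolNot) _ _ fun d => ?_
  rw [compl_compl, ← rk_transpose]
  obtain ⟨s, b⟩ := d
  have h : (fun x y => mt I s b y x) = mt I s (!b) := by
    funext x y
    exact (mt_not97 s b x y).symm
  change rk (fun x y => mt I s b y x) Z Zᶜ = rk (mt I s (!b)) Z Zᶜ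
  rw [h]

theorem ord_submod (Z Z' : Set M) : ord I (Z ∩ Z') + ord I (Z ∪ Z') ≤ ord I Z + ord I Z' := by
  unfold ord
  rw [← Finset.sum_add_distrib, ← Finset.sum_add_distrib]
  refine Finset.sum_le_sum fun d _ => ?_
  rw [Set.compl_inter, Set.compl_union]
  exact rk_submod _ _ _ _ _

theorem ord_le_of_cut {k : ℕ} {Z : Set M} (h : Cut I k Z) : ord I Z ≤ DD S * k := by
  obtain ⟨τ, hτ⟩ := h
  have h1 : ∀ d : S × Bool, rk (mt I d.1 d.2) Z Zᶜ ≤ k := fun d =>
    rk_le_of_types _ _ _ τ fun x hx x' hx' hxx y hy => (same_iff97 x x' y).1 (hτ x hx x' hx' hxx y hy) d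
  refine (ord_le97 h1).trans ?_
  unfold DD
  rw [Nat.card_eq_fintype_card]
  exact Nat.mul_le_mul_right k (Nat.le_succ _)

theorem ord_singleton (x : M) : ord I {x} ≤ DD S := by
  have h1 : ∀ d : S × Bool, rk (mt I d.1 d.2) {x} ({x} : Set M)ᶜ ≤ 1 := fun d => by
    have h2 := rk_le_ncard (mt I d.1 d.2) {x} ({x} : Set M)ᶜ
    rwa [Set.ncard_singleton] at h2
  refine (ord_le97 h1).trans ?_
  unfold DD
  rw [Nat.card_eq_fintype_card, mul_one]
  exact Nat.le_succ _

theorem ord_univ : ord I Set.univ = 0 := by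
  have h1 : ∀ d : S × Bool, rk (mt I d.1 d.2) Set.univ (Set.univ : Set M)ᶜ ≤ 0 := fun d => by
    rw [Set.compl_univ, ← rk_transpose]
    have h2 := rk_le_ncard (fun x y => mt I d.1 d.2 y x) ∅ Set.univ
    rwa [Set.ncard_empty] at h2
  have h2 := ord_le97 h1
  rw [mul_zero] at h2
  exact Nat.le_zero.1 h2

theorem ord_types {Z : Set M} {r : ℕ} (h : ord I Z ≤ r) : ∃ τ : M → Fin (2 ^ r),
    ∀ x ∈ Z, ∀ x' ∈ Z, (τ x = τ x' ↔ ∀ y, y ∉ Z → Same I x x' y) := by
  choose T hT using fun d : S × Bool => exists_types (mt I d.1 d.2) Z Zᶜ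
  have hcard : Fintype.card (∀ d : S × Bool, Fin (2 ^ rk (mt I d.1 d.2) Z Zᶜ)) ≤ Fintype.card (Fin (2 ^ r)) := by
    rw [Fintype.card_pi, Fintype.card_fin]
    simp only [Fintype.card_fin]
    rw [Finset.prod_pow_eq_pow_sum]
    exact Nat.pow_le_pow_right (by norm_num) h
  obtain ⟨f⟩ := Function.Embedding.nonempty_of_card_le hcard
  refine ⟨fun x => f (fun d => T d x), fun x hx x' hx' => ?_⟩
  rw [f.injective.eq_iff]
  constructor
  · intro h1 y hy
    rw [same_iff97]
    intro d
    exact (hT d x hx x' hx').1 (congrFun h1 d) y hy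
  · intro h1
    funext d
    exact (hT d x hx x' hx').2 fun y hy => (same_iff97 x x' y).1 (h1 y hy) d

theorem ord_base {X : Set M} {n : ℕ} (h : DD S * n ≤ ord I X) : ∃ B : Set M, B ⊆ Xᶜ ∧
    B.ncard = n ∧ ∀ Z : Set M, X ⊆ Z → (B \ Z).ncard ≤ ord I Z := by
  rcases Nat.eq_zero_or_pos n with hn | hn
  · subst hn
    exact ⟨∅, Set.empty_subset _, Set.ncard_empty _, fun Z _ => by
      rw [Set.empty_sdiff, Set.ncard_empty]
      exact Nat.zero_le _⟩
  · obtain ⟨d, hd⟩ : ∃ d : S × Bool, n ≤ rk (mt I d.1 d.2) X Xᶜ := by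
      by_contra hcon
      push Not at hcon
      have h1 := ord_le97 (k := n) (fun d => (hcon d).le)
      have h2 : (2 * Fintype.card S) * n < DD S * n := by
        unfold DD
        rw [Nat.card_eq_fintype_card]
        exact Nat.mul_lt_mul_of_pos_right (Nat.lt_succ_self _) hn
      omega
    obtain ⟨B, hB, hBn, hB'⟩ := exists_base _ _ _ hd
    refine ⟨B, hB, hBn, fun Z hZ => ?_⟩
    refine (hB' Z (B \ Z) hZ Set.sdiff_subset).trans ((rk_mono _ (Set.Subset.refl Z) ?_).trans
      (rk_le_ord97 Z d))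
    intro y hy
    exact hy.2

end Pool.Agent.Helper29.CW
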