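import Pool.Agent.Helper29.CW.Base

/-!
# Block CW-22: joining represented substructures

`Rep.point`: `V := Unit`.  `Rep.join`: let `V₁`, `J₁`, `l₁'`, `e₁` and `V₂`, `J₂`, `l₂'`, `e₂` be given; `V₁ ⊕ V₂`, `Sum.elim e₁ e₂`,
`R s t := ∃ v : Fin (ar s) → M, I s v ∧ ∀ i, (∀ a, t i = Sum.inl a → v i ∈ X ∧ l₁ (v i) = a) ∧ ∀ b, t i = Sum.inr b → v i ∈ Y ∧ l₂ (v i) = b`,
`r (inl a) := l x` for some `x ∈ X` with `l₁ x = a`, `r (inr b) := l y` for some `y ∈ Y` with `l₂ y = b` (by `h₁`, `h₂` it does not depend on the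
choice).  For a tuple `w` meeting both parts: `jn` holds iff `I s (e ∘ w)`: (⇐) `v := e ∘ w`.  (⇒) `ar s ≤ 2`, so `w` has exactly two elements,
in the positions `0` and `1`, one in each part, say `x = e (w 0) ∈ X`, `y = e (w 1) ∈ Y`; `v` has `v 0 ∈ X`, `l₁ (v 0) = l₁ x`, `v 1 ∈ Y`,
`l₂ (v 1) = l₂ y`; so `P2 I s (v 0) (v 1) ↔ P2 I s x (v 1) ↔ P2 I s x y` by `h₁`, `h₂`.  The same if `w 0` is in the second part.
A tuple of `J₁` (all in `V₁`) is a tuple of `I`.
-/

set_option autoImplicit false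

namespace Pool.Agent.Helper29.CW

open Pool.Agent.Helper20.Spectra Pool.Agent.Helper29.TD

variable {S : Type} {ar : S → ℕ} {M : Type} {I : Interp S ar M} {K : ℕ} {X Y : Set M}

theorem Rep.point (x : M) (l : M → Fin K) : Rep I K {x} l :=
  ⟨Unit, fun s _ => I s (fun _ => x), fun _ => l x, fun _ => x, Gen.point _ _,
    Function.injective_of_subsingleton _, Set.range_const, fun _ => rfl, fun _ _ => Iff.rfl⟩

private theorem pair52 {s : S} (h : ar s = 2) {i j : Fin (ar s)} (hi : i.1 = 0) (hj : j.1 = 1)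
    (v : Fin (ar s) → M) : (fun k : Fin (ar s) => if k.1 = 0 then v i else v j) = v := by
  funext k
  have hk := k.2
  by_cases h0 : k.1 = 0
  · rw [if_pos h0]
    congr 1
    exact Fin.ext (by omega)
  · rw [if_neg h0]
    congr 1
    exact Fin.ext (by omega)

theorem Rep.join (har : ∀ s, ar s ≤ 2) {l₁ l₂ l : M → Fin K} (hd : Disjoint X Y)
    (hX : Rep I K X l₁) (hY : Rep I K Y l₂)
    (h₁ : ∀ x ∈ X, ∀ x' ∈ X, l₁ x = l₁ x' → l x = l x' ∧ ∀ y ∈ Y, Same I x x' y)
    (h₂ : ∀ y ∈ Y, ∀ y' ∈ Y, l₂ y = l₂ y' → l y = l y' ∧ ∀ x ∈ X, Same I y y' x) :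
    Rep I K (X ∪ Y) l := by
  classical
  obtain ⟨V₁, J₁, l₁', e₁, g₁, i₁, r₁, L₁, c₁⟩ := hX
  obtain ⟨V₂, J₂, l₂', e₂, g₂, i₂, r₂, L₂, c₂⟩ := hY
  have m₁ : ∀ x, e₁ x ∈ X := fun x => by rw [← r₁]; exact ⟨x, rfl⟩
  have m₂ : ∀ x, e₂ x ∈ Y := fun x => by rw [← r₂]; exact ⟨x, rfl⟩
  let R : ∀ s : S, (Fin (ar s) → Fin K ⊕ Fin K) → Prop := fun s t =>
    ∃ v : Fin (ar s) → M, I s v ∧ ∀ i, (∀ a, t i = Sum.inl a → v i ∈ X ∧ l₁ (v i) = a) ∧
      ∀ b, t i = Sum.inr b → v i ∈ Y ∧ l₂ (v i) = b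
  let r : Fin K ⊕ Fin K → Fin K := Sum.elim
    (fun a => if h : ∃ x, x ∈ X ∧ l₁ x = a then l h.choose else a)
    (fun b => if h : ∃ y, y ∈ Y ∧ l₂ y = b then l h.choose else b)
  refine ⟨V₁ ⊕ V₂, jn R J₁ l₁' J₂ l₂', fun x => r (Sum.map l₁' l₂' x), Sum.elim e₁ e₂,
    Gen.join V₁ V₂ J₁ J₂ l₁' l₂' R r g₁ g₂, ?_, ?_, ?_, ?_⟩
  · refine i₁.sumElim i₂ fun a b hab => ?_
    exact Set.disjoint_left.1 hd (m₁ a) (hab ▸ m₂ b)
  · rw [Set.Sum.elim_range, r₁, r₂]
  · rintro (x | y)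
    · have h : ∃ x', x' ∈ X ∧ l₁ x' = l₁' x := ⟨e₁ x, m₁ x, (L₁ x).symm⟩
      have h0 : r (Sum.map l₁' l₂' (Sum.inl x)) = l h.choose := by
        change (if h : ∃ x', x' ∈ X ∧ l₁ x' = l₁' x then l h.choose else l₁' x) = _
        rw [dif_pos h]
      change r (Sum.map l₁' l₂' (Sum.inl x)) = l (e₁ x)
      rw [h0]
      exact (h₁ _ h.choose_spec.1 _ (m₁ x) (h.choose_spec.2.trans (L₁ x))).1
    · have h : ∃ y', y' ∈ Y ∧ l₂ y' = l₂' y := ⟨e₂ y, m₂ y, (L₂ y).symm⟩
      have h0 : r (Sum.map l₁' l₂' (Sum.inr y)) = l h.choose := by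
        change (if h : ∃ y', y' ∈ Y ∧ l₂ y' = l₂' y then l h.choose else l₂' y) = _
        rw [dif_pos h]
      change r (Sum.map l₁' l₂' (Sum.inr y)) = l (e₂ y)
      rw [h0]
      exact (h₂ _ h.choose_spec.1 _ (m₂ y) (h.choose_spec.2.trans (L₂ y))).1
  · intro s w
    constructor
    · rintro (⟨u, hu, rfl⟩ | ⟨u, hu, rfl⟩ | ⟨⟨i, x, hi⟩, ⟨j, y, hj⟩, v, hv, hR⟩)
      · exact (c₁ s u).1 hu
      · exact (c₂ s u).1 hu
      · have hij : i ≠ j := by
          rintro rfl
          rw [hi] at hj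
          exact absurd hj (by simp)
        have hij' : i.1 ≠ j.1 := fun h => hij (Fin.ext h)
        have hi2 := i.2
        have hj2 := j.2
        have hs := har s
        have hs2 : ar s = 2 := by omega
        have hi' : Sum.map l₁' l₂' (w i) = Sum.inl (l₁' x) := by rw [hi]; rfl
        have hj' : Sum.map l₁' l₂' (w j) = Sum.inr (l₂' y) := by rw [hj]; rfl
        obtain ⟨a1, a2⟩ := (hR i).1 (l₁' x) hi'
        obtain ⟨b1, b2⟩ := (hR j).2 (l₂' y) hj'
        have A : Same I (v i) (e₁ x) (v j) :=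
          (h₁ _ a1 _ (m₁ x) (a2.trans (L₁ x))).2 _ b1
        have B : Same I (v j) (e₂ y) (e₁ x) :=
          (h₂ _ b1 _ (m₂ y) (b2.trans (L₂ y))).2 _ (m₁ x)
        have ei : Sum.elim e₁ e₂ (w i) = e₁ x := by rw [hi]; rfl
        have ej : Sum.elim e₁ e₂ (w j) = e₂ y := by rw [hj]; rfl
        rcases (by omega : (i.1 = 0 ∧ j.1 = 1) ∨ (j.1 = 0 ∧ i.1 = 1)) with ⟨k0, k1⟩ | ⟨k0, k1⟩
        · have h3 : P2 I s (v i) (v j) := ⟨by omega, by rw [pair52 hs2 k0 k1 v]; exact hv⟩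
          have h4 := ((B s).2.1 ((A s).1.1 h3)).2
          rw [← ei, ← ej] at h4
          rw [← pair52 hs2 k0 k1 (fun i => Sum.elim e₁ e₂ (w i))]
          exact h4
        · have h3 : P2 I s (v j) (v i) := ⟨by omega, by rw [pair52 hs2 k0 k1 v]; exact hv⟩
          have h4 := ((B s).1.1 ((A s).2.1 h3)).2
          rw [← ei, ← ej] at h4
          rw [← pair52 hs2 k0 k1 (fun i => Sum.elim e₁ e₂ (w i))]
          exact h4
    · intro hI
      by_cases hl : ∃ i x, w i = Sum.inl x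
      · by_cases hr : ∃ j y, w j = Sum.inr y
        · right; right
          refine ⟨hl, hr, fun i => Sum.elim e₁ e₂ (w i), hI, fun k => ⟨fun a ha => ?_,
            fun b hb => ?_⟩⟩
          · change Sum.map l₁' l₂' (w k) = Sum.inl a at ha
            rcases hk : w k with z | z
            · rw [hk] at ha
              have h5 : l₁' z = a := Sum.inl_injective ha
              change Sum.elim e₁ e₂ (w k) ∈ X ∧ l₁ (Sum.elim e₁ e₂ (w k)) = a
              rw [hk]
              exact ⟨m₁ z, (L₁ z).symm.trans h5⟩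
            · rw [hk] at ha
              exact absurd ha (by simp)
          · change Sum.map l₁' l₂' (w k) = Sum.inr b at hb
            rcases hk : w k with z | z
            · rw [hk] at hb
              exact absurd hb (by simp)
            · rw [hk] at hb
              have h5 : l₂' z = b := Sum.inr_injective hb
              change Sum.elim e₁ e₂ (w k) ∈ Y ∧ l₂ (Sum.elim e₁ e₂ (w k)) = b
              rw [hk]
              exact ⟨m₂ z, (L₂ z).symm.trans h5⟩
        · left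
          have h6 : ∀ i, ∃ x, w i = Sum.inl x := by
            intro i
            rcases hk : w i with z | z
            · exact ⟨z, rfl⟩
            · exact absurd ⟨i, z, hk⟩ hr
          choose u hu using h6
          refine ⟨u, ?_, funext hu⟩
          rw [c₁]
          have h7 : (fun i => e₁ (u i)) = fun i => Sum.elim e₁ e₂ (w i) := by
            funext i
            rw [hu i]
            rfl
          rw [h7]
          exact hI
      · right; left
        have h6 : ∀ i, ∃ x, w i = Sum.inr x := by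
          intro i
          rcases hk : w i with z | z
          · exact absurd ⟨i, z, hk⟩ hl
          · exact ⟨z, rfl⟩
        choose u hu using h6
        refine ⟨u, ?_, funext hu⟩
        rw [c₂]
        have h7 : (fun i => e₂ (u i)) = fun i => Sum.elim e₁ e₂ (w i) := by
          funext i
          rw [hu i]
          rfl
        rw [h7]
        exact hI

end Pool.Agent.Helper29.CW
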