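import Mathlib.LinearAlgebra.Matrix.Rank
import Pool.Agent.Helper29.CW.Base

/-!
# Block CW-15: ranks of parts of a matrix, basic facts

`rk m X Y` is the rank of the matrix `m` with the rows `X` and the columns `Y`: the dimension of the span of the columns.
`rk_transpose`: `Matrix.rank_transpose`, `Matrix.rank_eq_finrank_span_cols` (choose `Fintype` instances for `X`, `Y`).
`rk_mono`: columns: `Submodule.span_mono`, `Submodule.finrank_mono`; rows: by `rk_transpose` or by the restriction map.
`rk_le_ncard`: the span of the columns is in the space of functions on `X`, of dimension `X.ncard`.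
-/

set_option autoImplicit false

namespace Pool.Agent.Helper29.CW

variable {M : Type}

/-- the rank of the matrix `m` with rows in `X` and columns in `Y` -/
noncomputable def rk (m : M → M → ZMod 2) (X Y : Set M) : ℕ :=
  Module.finrank (ZMod 2)
    (Submodule.span (ZMod 2) (Set.range fun (y : Y) => fun (x : X) => m x.1 y.1))

theorem rk_transpose [Finite M] (m : M → M → ZMod 2) (X Y : Set M) :
    rk (fun x y => m y x) X Y = rk m Y X := by
  classical
  haveI : Fintype X := Fintype.ofFinite X
  haveI : Fintype Y := Fintype.ofFinite Y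
  have h1 : rk (fun x y => m y x) X Y = (Matrix.of fun (x : X) (y : Y) => m y.1 x.1).rank := by
    rw [Matrix.rank_eq_finrank_span_cols]
    rfl
  have h2 : rk m Y X = (Matrix.of fun (y : Y) (x : X) => m y.1 x.1).rank := by
    rw [Matrix.rank_eq_finrank_span_cols]
    rfl
  rw [h1, h2, ← Matrix.rank_transpose]
  rfl

theorem rk_mono [Finite M] (m : M → M → ZMod 2) {X X' Y Y' : Set M} (hX : X ⊆ X') (hY : Y ⊆ Y') :
    rk m X Y ≤ rk m X' Y' := by
  classical
  haveI : Fintype X := Fintype.ofFinite X
  haveI : Fintype X' := Fintype.ofFinite X'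
  have h1 : Submodule.span (ZMod 2) (Set.range fun (y : Y) => fun (x : X) => m x.1 y.1) ≤
      (Submodule.span (ZMod 2) (Set.range fun (y : Y') => fun (x : X') => m x.1 y.1)).map
        (LinearMap.funLeft (ZMod 2) (ZMod 2) (fun x : X => (⟨x.1, hX x.2⟩ : X'))) := by
    rw [Submodule.span_le]
    rintro _ ⟨y, rfl⟩
    exact ⟨fun x : X' => m x.1 y.1, Submodule.subset_span ⟨⟨y.1, hY y.2⟩, rfl⟩, rfl⟩
  exact (Submodule.finrank_mono h1).trans (Submodule.finrank_map_le _ _)

theorem rk_le_ncard [Finite M] (m : M → M → ZMod 2) (X Y : Set M) : rk m X Y ≤ X.ncard := by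
  classical
  haveI : Fintype X := Fintype.ofFinite X
  refine (Submodule.finrank_le _).trans (le_of_eq ?_)
  rw [Module.finrank_fintype_fun_eq_card, ← Nat.card_eq_fintype_card, Nat.card_coe_set_eq]

end Pool.Agent.Helper29.CW
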