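import Pool.Agent.Helper29.CW.Rk

/-!
# Block CW-16: the rank as the dimension of a span in the space of all functions

`g m X Y` is the dimension of the span of the unit vectors of the elements outside `X` and of the columns in `Y` (as functions on `M`).
`g_eq`: let `U` be this span, `ρ : (M → ZMod 2) → (X → ZMod 2)` the restriction to `X`.  `ρ '' U` is the span of the restricted columns (the
unit vectors restrict to `0`), of dimension `rk m X Y`.  The kernel of `ρ` on `U` is the space of the functions vanishing on `X`; it is spanned
by the unit vectors of `Xᶜ`, is contained in `U` and has dimension `Xᶜ.ncard`.  Rank-nullity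
(`LinearMap.finrank_range_add_finrank_ker` for `ρ.domRestrict U`).
-/

set_option autoImplicit false

namespace Pool.Agent.Helper29.CW

open Classical

variable {M : Type}

/-- the unit vectors outside `X` and the columns in `Y` -/
def gens (m : M → M → ZMod 2) (X Y : Set M) : Set (M → ZMod 2) :=
  (fun x : M => fun z : M => if z = x then (1 : ZMod 2) else 0) '' Xᶜ ∪ (fun y z => m z y) '' Y

theorem g_eq [Finite M] (m : M → M → ZMod 2) (X Y : Set M) :
    Module.finrank (ZMod 2) (Submodule.span (ZMod 2) (gens m X Y)) = rk m X Y + Xᶜ.ncard := by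
  have : Fintype M := Fintype.ofFinite M
  have : Fintype X := Fintype.ofFinite X
  set U : Submodule (ZMod 2) (M → ZMod 2) := Submodule.span (ZMod 2) (gens m X Y) with hU
  set ρ : (M → ZMod 2) →ₗ[ZMod 2] (X → ZMod 2) :=
    LinearMap.funLeft (ZMod 2) (ZMod 2) (Subtype.val : X → M) with hρ
  have hρa : ∀ (f : M → ZMod 2) (x : X), ρ f x = f x.1 := fun f x => rfl
  -- the kernel is contained in `U`
  have hker : LinearMap.ker ρ ≤ U := by
    intro f hf
    rw [LinearMap.mem_ker] at hf
    have h1 : f = ∑ x : M, f x • (fun z : M => if z = x then (1 : ZMod 2) else 0) := by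
      funext z
      rw [Finset.sum_apply, Finset.sum_eq_single z]
      · simp
      · intro x _ hx
        have : ¬ z = x := fun h => hx h.symm
        simp [this]
      · intro h
        exact absurd (Finset.mem_univ z) h
    rw [h1]
    refine Submodule.sum_mem _ fun x _ => ?_
    by_cases hx : x ∈ X
    · have h2 : f x = 0 := by
        have := congrFun hf ⟨x, hx⟩
        rwa [hρa] at this
      rw [h2, zero_smul]
      exact Submodule.zero_mem _
    · exact Submodule.smul_mem _ _ (Submodule.subset_span (Or.inl ⟨x, hx, rfl⟩))
  -- the image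
  have himg : U.map ρ = Submodule.span (ZMod 2)
      (Set.range fun (y : Y) => fun (x : X) => m x.1 y.1) := by
    rw [hU, Submodule.map_span]
    refine le_antisymm ?_ ?_
    · rw [Submodule.span_le]
      rintro _ ⟨f, hf, rfl⟩
      rcases hf with ⟨x, hx, rfl⟩ | ⟨y, hy, rfl⟩
      · have h1 : ρ (fun z : M => if z = x then (1 : ZMod 2) else 0) = 0 := by
          funext z
          rw [hρa]
          have : ¬ z.1 = x := fun h => hx (h ▸ z.2)
          simp [this]
        change ρ (fun z : M => if z = x then (1 : ZMod 2) else 0) ∈ _
        rw [h1]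
        exact Submodule.zero_mem _
      · exact Submodule.subset_span ⟨⟨y, hy⟩, rfl⟩
    · rw [Submodule.span_le]
      rintro _ ⟨y, rfl⟩
      exact Submodule.subset_span ⟨fun z => m z y.1, Or.inr ⟨y.1, y.2, rfl⟩, rfl⟩
  -- the dimension of the kernel
  have hkd : Module.finrank (ZMod 2) (LinearMap.ker ρ) = Xᶜ.ncard := by
    have h1 := ρ.finrank_range_add_finrank_ker
    have h2 : LinearMap.range ρ = ⊤ := by
      rw [LinearMap.range_eq_top]
      exact LinearMap.funLeft_surjective_of_injective _ _ _ Subtype.val_injective
    rw [h2, finrank_top, Module.finrank_fintype_fun_eq_card, Module.finrank_fintype_fun_eq_card,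
      ← Nat.card_eq_fintype_card, ← Nat.card_eq_fintype_card, Nat.card_coe_set_eq] at h1
    have h3 := Set.ncard_add_ncard_compl X
    omega
  have h1 := (ρ.domRestrict U).finrank_range_add_finrank_ker
  rw [LinearMap.range_domRestrict, himg] at h1
  have h2 : Module.finrank (ZMod 2) (LinearMap.ker (ρ.domRestrict U)) =
      Module.finrank (ZMod 2) (LinearMap.ker ρ) := by
    have h3 : LinearMap.ker (ρ.domRestrict U) = (LinearMap.ker ρ).comap U.subtype := by
      ext f
      rfl
    rw [h3]
    exact (Submodule.comapSubtypeEquivOfLe hker).finrank_eq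
  rw [h2, hkd] at h1
  exact h1.symm

end Pool.Agent.Helper29.CW
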