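import Pool.Agent.Helper29.CW.RkSpan

/-!
# Block CW-17: the rank is submodular

`gens m (X ∩ X') (Y ∪ Y') = gens m X Y ∪ gens m X' Y'` and `gens m (X ∪ X') (Y ∩ Y') ⊆ gens m X Y ∩ gens m X' Y'`.  So by
`Submodule.span_union`, `Submodule.finrank_sup_add_finrank_inf_eq` and `g_eq` the claim follows, with
`(X ∩ X')ᶜ.ncard + (X ∪ X')ᶜ.ncard = Xᶜ.ncard + X'ᶜ.ncard`.
-/

set_option autoImplicit false

namespace Pool.Agent.Helper29.CW

variable {M : Type}

theorem rk_submod [Finite M] (m : M → M → ZMod 2) (X X' Y Y' : Set M) :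
    rk m (X ∩ X') (Y ∪ Y') + rk m (X ∪ X') (Y ∩ Y') ≤ rk m X Y + rk m X' Y' := by
  have h1 : gens m (X ∩ X') (Y ∪ Y') = gens m X Y ∪ gens m X' Y' := by
    simp only [gens, Set.compl_inter, Set.image_union]
    ext f
    simp only [Set.mem_union]
    tauto
  have h2 : gens m (X ∪ X') (Y ∩ Y') ⊆ gens m X Y := by
    simp only [gens, Set.compl_union]
    exact Set.union_subset_union (Set.image_mono Set.inter_subset_left)
      (Set.image_mono Set.inter_subset_left)
  have h3 : gens m (X ∪ X') (Y ∩ Y') ⊆ gens m X' Y' := by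
    simp only [gens, Set.compl_union]
    exact Set.union_subset_union (Set.image_mono Set.inter_subset_right)
      (Set.image_mono Set.inter_subset_right)
  have e1 := g_eq m X Y
  have e2 := g_eq m X' Y'
  have e3 := g_eq m (X ∩ X') (Y ∪ Y')
  have e4 := g_eq m (X ∪ X') (Y ∩ Y')
  rw [h1, Submodule.span_union] at e3
  have h4 : Submodule.span (ZMod 2) (gens m (X ∪ X') (Y ∩ Y')) ≤
      Submodule.span (ZMod 2) (gens m X Y) ⊓ Submodule.span (ZMod 2) (gens m X' Y') :=
    le_inf (Submodule.span_mono h2) (Submodule.span_mono h3)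
  have h5 := Submodule.finrank_mono h4
  have h6 := Submodule.finrank_sup_add_finrank_inf_eq (Submodule.span (ZMod 2) (gens m X Y))
    (Submodule.span (ZMod 2) (gens m X' Y'))
  have h7 : (X ∩ X')ᶜ.ncard + (X ∪ X')ᶜ.ncard = Xᶜ.ncard + X'ᶜ.ncard := by
    rw [Set.compl_inter, Set.compl_union]
    exact Set.ncard_union_add_ncard_inter _ _
  omega

end Pool.Agent.Helper29.CW
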