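import Pool.Agent.Helper29.CW.Base
import Pool.Agent.Helper29.TD.BFSat
import Pool.Agent.Helper29.TD.Types

/-!
# Block CW-9: types determine the truth of sentences

`BF.sat φ` gives `q`.  `lty q J l = lty q J' l'` is by `tp_eq_iff` the game on `lab J l`, `lab J' l'` with `univ`, `univ` and the empty set of pairs.
It gives the game on `J`, `J'` (induction on `q`: `PIso (lab J l) (lab J' l') P` implies `PIso J J' P`, by the relations `Sum.inl s`).  Then
`BF.sat` and `Sat.univ`.
-/

set_option autoImplicit false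

namespace Pool.Agent.Helper29.CW

open FirstOrder FirstOrder.Language Pool.Agent.Helper20.Spectra Pool.Agent.Helper29.TD

variable {S : Type} {ar : S → ℕ}

/-- forgetting the labels in the game -/
private theorem bf_lab52 {L V V' : Type} {J : Interp S ar V} {J' : Interp S ar V'} {l : V → L}
    {l' : V' → L} {X : Set V} {Y : Set V'} : ∀ (q : ℕ) {P : Set (V × V')},
      BF (lab J l) (lab J' l') X Y q P → BF J J' X Y q P := by
  have hp : ∀ {P : Set (V × V')}, PIso (lab J l) (lab J' l') P → PIso J J' P :=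
    fun h => ⟨h.1, fun s v hv => h.2 (Sum.inl s) v hv⟩
  intro q
  induction q with
  | zero => intro P h; exact hp h
  | succ q ih =>
    intro P h
    refine ⟨hp h.1, fun x hx => ?_, fun y hy => ?_⟩
    · obtain ⟨y, hy, h1⟩ := h.2.1 x hx
      exact ⟨y, hy, ih h1⟩
    · obtain ⟨x, hx, h1⟩ := h.2.2 y hy
      exact ⟨x, hx, ih h1⟩

theorem sat_lty (φ : (RelLang S ar).Sentence) : ∃ q : ℕ, ∀ (L V V' : Type)
    (J : Interp S ar V) (J' : Interp S ar V') (l : V → L) (l' : V' → L),
      lty q J l = lty q J' l' → (Sat J φ ↔ Sat J' φ) := by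
  obtain ⟨q, hq⟩ := BF.sat (S := S) (ar := ar) φ
  refine ⟨q, fun L V V' J J' l l' h => ?_⟩
  rw [← Sat.univ J φ, ← Sat.univ J' φ]
  exact hq _ _ J J' _ _ (BF.anti (Set.empty_subset _) (bf_lab52 q ((tp_eq_iff q _ _).1 h)))

end Pool.Agent.Helper29.CW
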