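import Pool.Agent.Helper29.CW.Bld
import Pool.Agent.Helper29.TD.Comp

/-!
# Block CW-5: structures with short paths have small clique-width

Compare `Pool/Agent/Helper29/TW/ShortB.lean` (the same depth first search; its private lemmas may be copied).
Let all paths have at most `w` vertices.  For a path `p : Fin j → M` (`IsPath I p`, so `j ≤ w`) with the set `P` of vertices let
`lp x : Fin (w + 1)` be `i` if `x = p i`, and `w` (the last label) if `x ∉ P`.
Claim (induction on the number `n` of elements outside `P`): let `u ∉ P`, `j = 0` or `Adj (p (j - 1)) u`, `X := comp I P u`; let `P ⊆ Z`,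
`Z ∩ X = ∅`, and `Z = ∅` or `Bld I (w + 1) Z lp`.  Then `Bld I (w + 1) (Z ∪ X) lp`.
Proof.  Let `p'` be the path with `u` added (`j + 1 ≤ w`), `P' = insert u P`, `lp'` its labels; `lp' = lp` on `Z`.
(1) `Bld I (w + 1) (insert u Z) lp'`: if `Z = ∅` by `Bld.point`, otherwise `Bld.insert` with `P`: the label `i < j` is used only by `p i`, the
label `j` of `u` is not used in `Z` (labels `< j` or `w`, and `j < w`); an element of `Z` adjacent to `u ∈ X` is in `P`, otherwise it would be in `X`
(`comp_closed`).
(2) For the neighbours `v ∉ P'` of `u` let `X_v := comp I P' v`.  For every finite set `F` of such `v`: `Bld I (w + 1) (insert u Z ∪ ⋃ v ∈ F, X_v) lp'`,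
by induction on `F`: if `X_v = X_{v'}` for a `v' ∈ F` nothing changes, otherwise `X_v` is disjoint from the set built so far (different components
are disjoint, `comp_eq`; `X_v ⊆ X` is disjoint from `Z`, and `u ∉ X_v`), use the induction hypothesis of the claim for `p'` and `v`.
(3) `insert u Z ∪ ⋃ v, X_v = Z ∪ X` by `comp_insert`.  `Bld.rename` with `r j = w`, `r i = i` otherwise gives the labels `lp`.
Finally the same induction on finite sets as in (2), with `P = ∅` and the empty path, starting with `Z = ∅`: `M` is the union of the `comp I ∅ u`.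
`Bld.cwLe`.
-/

set_option autoImplicit false

namespace Pool.Agent.Helper29.CW

open Pool.Agent.Helper20.Spectra Pool.Agent.Helper29.TD

variable {S : Type} {ar : S → ℕ} {M : Type} {I : Interp S ar M}

open Classical in
/-- the labels of a path -/
private noncomputable def lb63 (w : ℕ) {j : ℕ} (p : Fin j → M) (x : M) : Fin (w + 1) :=
  if h : ∃ i, p i = x then Fin.ofNat (w + 1) h.choose.1 else Fin.last w

private lemma lb_mem63 {w j : ℕ} {p : Fin j → M} (hp : Function.Injective p) (hj : j ≤ w) (i : Fin j) :
    (lb63 w p (p i)).1 = i.1 := by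
  have h : ∃ i', p i' = p i := ⟨i, rfl⟩
  unfold lb63
  rw [dif_pos h]
  have h1 : h.choose = i := hp h.choose_spec
  rw [h1]
  have h2 : i.1 < w + 1 := by
    have := i.2
    omega
  simp only [Fin.ofNat]
  exact Nat.mod_eq_of_lt h2

private lemma lb_not63 {w j : ℕ} {p : Fin j → M} {x : M} (hx : x ∉ Set.range p) :
    lb63 w p x = Fin.last w := by
  unfold lb63
  rw [dif_neg]
  rintro ⟨i, hi⟩
  exact hx ⟨i, hi⟩

private lemma grow63 {K : ℕ} {l : M → Fin K} {C Y : Set M} (hCY : C ⊆ Y) (F : Finset M)
    (hF : ∀ v ∈ F, v ∉ C ∧ Disjoint Y (comp I C v) ∧ ∀ Z : Set M, C ⊆ Z → Disjoint Z (comp I C v) →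
      (Z = ∅ ∨ Bld I K Z l) → Bld I K (Z ∪ comp I C v) l) (hY : Y = ∅ ∨ Bld I K Y l) :
    (Y ∪ ⋃ v ∈ F, comp I C v) = ∅ ∨ Bld I K (Y ∪ ⋃ v ∈ F, comp I C v) l := by
  classical
  induction F using Finset.induction_on with
  | empty =>
    have h1 : (Y ∪ ⋃ v ∈ (∅ : Finset M), comp I C v) = Y := by simp
    rw [h1]
    exact hY
  | insert v F hv ih =>
    have h2 := ih fun v' hv' => hF v' (Finset.mem_insert_of_mem hv')
    obtain ⟨h3, h4, h5⟩ := hF v (Finset.mem_insert_self v F)
    by_cases hd : Disjoint (Y ∪ ⋃ v ∈ F, comp I C v) (comp I C v)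
    · right
      have h6 := h5 _ (hCY.trans Set.subset_union_left) hd h2
      have h7 : (Y ∪ ⋃ v' ∈ insert v F, comp I C v') = (Y ∪ ⋃ v ∈ F, comp I C v) ∪ comp I C v := by
        rw [Finset.set_biUnion_insert, Set.union_assoc, Set.union_comm (comp I C v)]
      rw [h7]
      exact h6
    · have h6 : comp I C v ⊆ ⋃ v ∈ F, comp I C v := by
        rw [Set.not_disjoint_iff] at hd
        obtain ⟨z, hz, hz'⟩ := hd
        rcases hz with hz | hz
        · exact absurd hz' (Set.disjoint_left.1 h4 hz)
        · simp only [Set.mem_iUnion] at hz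
          obtain ⟨v', hv', hz''⟩ := hz
          have h7 : comp I C v = comp I C v' := by
            rw [← comp_eq h3 hz', comp_eq (hF v' (Finset.mem_insert_of_mem hv')).1 hz'']
          rw [h7]
          exact Set.subset_biUnion_of_mem (u := fun v => comp I C v) (show v' ∈ (F : Set M) from hv')
      have h7 : (Y ∪ ⋃ v' ∈ insert v F, comp I C v') = (Y ∪ ⋃ v ∈ F, comp I C v) := by
        rw [Finset.set_biUnion_insert, Set.union_eq_right.2 h6]
      rw [h7]
      exact h2

private lemma claim63 [Finite M] (har : ∀ s, ar s ≤ 2) {w : ℕ} (h : PathLe I w) (n : ℕ) :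
    ∀ (j : ℕ) (p : Fin j → M), IsPath I p → Nat.card M ≤ n + j → ∀ u, u ∉ Set.range p →
    (∀ i : Fin j, i.1 + 1 = j → Adj I (p i) u) → ∀ Z : Set M, Set.range p ⊆ Z →
    Disjoint Z (comp I (Set.range p) u) → (Z = ∅ ∨ Bld I (w + 1) Z (lb63 w p)) →
    Bld I (w + 1) (Z ∪ comp I (Set.range p) u) (lb63 w p) := by
  classical
  induction n with
  | zero =>
    intro j p hp hc u hu _
    exfalso
    have h1 : Nat.card (Fin j) = Nat.card M := by
      apply le_antisymm (Nat.card_le_card_of_injective p hp.1)
      rw [Nat.card_eq_fintype_card (α := Fin j), Fintype.card_fin]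
      omega
    have h2 : Function.Bijective p := (Nat.bijective_iff_injective_and_card p).2 ⟨hp.1, h1⟩
    exact hu (h2.2 u)
  | succ n ih =>
    intro j p hp hc u hu hadj Z hPZ hZX hZ
    have hu' : ∀ i, p i ≠ u := fun i h1 => hu ⟨i, h1⟩
    have hp' : IsPath I (Fin.snoc (α := fun _ => M) p u) := by
      constructor
      · intro i j
        refine Fin.lastCases ?_ (fun i => ?_) i
        · refine Fin.lastCases ?_ (fun j => ?_) j
          · intro _
            rfl
          · intro hij
            rw [Fin.snoc_last, Fin.snoc_castSucc] at hij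
            exact absurd hij.symm (hu' j)
        · refine Fin.lastCases ?_ (fun j => ?_) j
          · intro hij
            rw [Fin.snoc_last, Fin.snoc_castSucc] at hij
            exact absurd hij (hu' i)
          · intro hij
            rw [Fin.snoc_castSucc, Fin.snoc_castSucc] at hij
            rw [hp.1 hij]
      · intro i j
        refine Fin.lastCases ?_ (fun i => ?_) i
        · refine Fin.lastCases ?_ (fun j => ?_) j
          · intro hij
            rw [Fin.val_last] at hij
            omega
          · intro hij
            rw [Fin.val_last, Fin.val_castSucc] at hij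
            have := j.2
            omega
        · refine Fin.lastCases ?_ (fun j => ?_) j
          · intro hij
            rw [Fin.val_last, Fin.val_castSucc] at hij
            rw [Fin.snoc_last, Fin.snoc_castSucc]
            exact hadj i hij
          · intro hij
            rw [Fin.val_castSucc, Fin.val_castSucc] at hij
            rw [Fin.snoc_castSucc, Fin.snoc_castSucc]
            exact hp.2 i j hij
    set p' : Fin (j + 1) → M := Fin.snoc (α := fun _ => M) p u with hp'def
    have hrange : Set.range p' = insert u (Set.range p) := by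
      ext y
      rw [Set.mem_insert_iff, Set.mem_range, Set.mem_range]
      constructor
      · rintro ⟨i, hi⟩
        revert hi
        refine Fin.lastCases ?_ (fun i => ?_) i
        · intro hi
          rw [hp'def, Fin.snoc_last] at hi
          exact Or.inl hi.symm
        · intro hi
          rw [hp'def, Fin.snoc_castSucc] at hi
          exact Or.inr ⟨i, hi⟩
      · rintro (hi | ⟨i, hi⟩)
        · exact ⟨Fin.last j, by rw [hp'def, Fin.snoc_last]; exact hi.symm⟩
        · exact ⟨Fin.castSucc i, by rw [hp'def, Fin.snoc_castSucc]; exact hi⟩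
    have hl : j + 1 ≤ w := h (j + 1) _ hp'
    -- labels
    have hlu : (lb63 w p' u).1 = j := by
      have h1 := lb_mem63 (w := w) hp'.1 hl (Fin.last j)
      rw [hp'def, Fin.snoc_last, ← hp'def, Fin.val_last] at h1
      exact h1
    have hlp : ∀ i, (lb63 w p' (p i)).1 = i.1 := by
      intro i
      have h1 := lb_mem63 (w := w) hp'.1 hl (Fin.castSucc i)
      rw [hp'def, Fin.snoc_castSucc, ← hp'def, Fin.val_castSucc] at h1
      exact h1
    have hln : ∀ x, x ≠ u → x ∉ Set.range p → (lb63 w p' x).1 = w := by
      intro x hx hx'
      rw [lb_not63, Fin.val_last]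
      rw [hrange, Set.mem_insert_iff]
      rintro (h1 | h1)
      · exact hx h1
      · exact hx' h1
    have hlab : ∀ x ∈ Z, lb63 w p x = lb63 w p' x := by
      intro x hx
      have hxu : x ≠ u := by
        rintro rfl
        exact Set.disjoint_left.1 hZX hx comp_self
      apply Fin.ext
      by_cases hxp : x ∈ Set.range p
      · obtain ⟨i, rfl⟩ := hxp
        rw [hlp i, lb_mem63 hp.1 (by omega) i]
      · rw [hln x hxu hxp, lb_not63 hxp, Fin.val_last]
    -- the first step
    have h1 : Bld I (w + 1) (insert u Z) (lb63 w p') := by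
      rcases hZ with hZ | hZ
      · rw [hZ]
        have h2 : (insert u ∅ : Set M) = {u} := by simp
        rw [h2]
        exact Bld.point u _
      · have hZ' : Bld I (w + 1) Z (lb63 w p') := by
          refine hZ.rename id ?_
          intro x hx
          rw [id, hlab x hx]
        have huZ : u ∉ Z := fun hx => Set.disjoint_left.1 hZX hx comp_self
        refine hZ'.insert har huZ (P := Set.range p) ?_ hPZ ?_ ?_
        · rintro _ ⟨i, rfl⟩ x hx hxl
          have h2 := congrArg Fin.val hxl
          rw [hlp i] at h2
          by_cases hxp : x ∈ Set.range p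
          · obtain ⟨i', rfl⟩ := hxp
            rw [hlp i'] at h2
            rw [Fin.ext h2]
          · rw [hln x (fun e => huZ (e ▸ hx)) hxp] at h2
            have := i.2
            omega
        · intro x hx hxl
          have h2 := congrArg Fin.val hxl
          rw [hlu] at h2
          by_cases hxp : x ∈ Set.range p
          · obtain ⟨i', rfl⟩ := hxp
            rw [hlp i'] at h2
            have := i'.2
            omega
          · rw [hln x (fun e => huZ (e ▸ hx)) hxp] at h2
            omega
        · intro x hx hxu
          by_contra hxp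
          exact Set.disjoint_left.1 hZX hx (comp_closed comp_self hxu.symm hxp)
    -- the neighbours
    have hfin : ({v : M | Adj I u v ∧ v ∉ Set.range p} : Set M).Finite := Set.toFinite _
    have hins := comp_insert (I := I) (C := Set.range p) (v := u) hu
    have h2 := grow63 (I := I) (K := w + 1) (l := lb63 w p') (C := insert u (Set.range p)) (Y := insert u Z)
      (Set.insert_subset_insert hPZ) hfin.toFinset (by
        intro v hv
        rw [Set.Finite.mem_toFinset] at hv
        have hv1 : v ∉ insert u (Set.range p) := by
          rintro (h3 | h3)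
          · exact hv.1.1 h3.symm
          · exact hv.2 h3
        refine ⟨hv1, ?_, ?_⟩
        · rw [Set.disjoint_left]
          rintro y (rfl | hy) hy'
          · exact comp_not hv1 hy' (Set.mem_insert _ _)
          · refine Set.disjoint_left.1 hZX hy ?_
            rw [hins]
            exact Set.mem_insert_of_mem _ (Set.mem_biUnion hv hy')
        · intro Z' hZ1 hZ2 hZ3
          have h4 := ih (j + 1) p' hp' (by omega) v (by rw [hrange]; exact hv1) (fun i => by
            refine Fin.lastCases ?_ (fun i => ?_) i
            · intro _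
              rw [hp'def, Fin.snoc_last]
              exact hv.1
            · intro hi
              rw [Fin.val_castSucc] at hi
              have := i.2
              omega) Z' (by rw [hrange]; exact hZ1) (by rw [hrange]; exact hZ2) hZ3
          rw [hrange] at h4
          exact h4) (Or.inr h1)
    have h3 : (insert u Z ∪ ⋃ v ∈ hfin.toFinset, comp I (insert u (Set.range p)) v) =
        Z ∪ comp I (Set.range p) u := by
      rw [hins]
      have h4 : (⋃ v ∈ hfin.toFinset, comp I (insert u (Set.range p)) v) =
          ⋃ v ∈ {v | Adj I u v ∧ v ∉ Set.range p}, comp I (insert u (Set.range p)) v := by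
        ext y
        simp only [Set.mem_iUnion, Set.Finite.mem_toFinset]
      rw [h4]
      ext y
      simp only [Set.mem_union, Set.mem_insert_iff]
      tauto
    rw [h3] at h2
    rcases h2 with h2 | h2
    · exfalso
      have h4 : u ∈ Z ∪ comp I (Set.range p) u := Or.inr comp_self
      rw [h2] at h4
      exact h4
    · refine h2.rename (fun i => if i.1 = j then Fin.last w else i) ?_
      intro x _
      apply Fin.ext
      by_cases hxu : x = u
      · rw [if_pos (by rw [hxu, hlu]), hxu, lb_not63 hu]
      · by_cases hxp : x ∈ Set.range p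
        · obtain ⟨i, rfl⟩ := hxp
          rw [if_neg (by rw [hlp i]; exact (i.2).ne), hlp i, lb_mem63 hp.1 (by omega) i]
        · rw [lb_not63 hxp, Fin.val_last]
          split_ifs
          · rw [Fin.val_last]
          · rw [hln x hxu hxp]

theorem cwLe_of_pathLe [Finite M] [Nonempty M] (har : ∀ s, ar s ≤ 2) {w : ℕ} (h : PathLe I w) :
    CwLe I (w + 1) := by
  classical
  have hr : Set.range (fun i : Fin 0 => (i.elim0 : M)) = ∅ := by
    ext y
    simp
  have hfin : (Set.univ : Set M).Finite := Set.toFinite _
  have h1 := grow63 (I := I) (K := w + 1) (l := lb63 w (fun i : Fin 0 => (i.elim0 : M))) (C := ∅) (Y := ∅)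
    (Set.empty_subset _) hfin.toFinset (by
      intro v _
      refine ⟨Set.notMem_empty v, Set.empty_disjoint _, ?_⟩
      intro Z _ hZ2 hZ3
      have h4 := claim63 har h (Nat.card M) 0 (fun i => i.elim0) ⟨fun i => i.elim0, fun i => i.elim0⟩ (by omega) v
        (by rw [hr]; exact Set.notMem_empty v) (fun i => i.elim0) Z (by rw [hr]; exact Set.empty_subset _)
        (by rw [hr]; exact hZ2) hZ3
      rw [hr] at h4
      exact h4) (Or.inl rfl)
  have h2 : (∅ ∪ ⋃ v ∈ hfin.toFinset, comp I ∅ v) = (Set.univ : Set M) := by
    apply Set.eq_univ_of_forall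
    intro y
    right
    simp only [Set.mem_iUnion, Set.Finite.mem_toFinset]
    exact ⟨y, Set.mem_univ y, comp_self⟩
  rw [h2] at h1
  rcases h1 with h1 | h1
  · exfalso
    have h3 : (Classical.arbitrary M) ∈ (Set.univ : Set M) := Set.mem_univ _
    rw [h1] at h3
    exact h3
  · exact h1.cwLe

end Pool.Agent.Helper29.CW
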