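import Pool.Agent.Helper29.CW.Base

/-!
# Block CW-11: the colourings of a join

A colouring `κ` of `V₁ ⊕ V₂` is a pair of colourings `κ₁ = κ ∘ inl`, `κ₂ = κ ∘ inr`.  `P2 (jn R J₁ l₁ J₂ l₂) s (inl x) (inl y) ↔ P2 J₁ s x y`, the same
for `inr`, and `P2 (jn R J₁ l₁ J₂ l₂) s (inl x) (inr y) ↔ R2 R s (inl (l₁ x)) (inr (l₂ y))`,
`P2 (jn R J₁ l₁ J₂ l₂) s (inr y) (inl x) ↔ R2 R s (inr (l₂ y)) (inl (l₁ x))` (if `2 ≤ ar s` the tuple has both elements, in the positions `0` and `1`).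
So `Valid` of `κ` means `Valid` of `κ₁`, of `κ₂`, and `Comp R P₁ P₂` for the sets `P₁`, `P₂` of pairs of label and colour.  The range of
`(label, colour)` is the union of two images (`Set.range` of a function on a sum).  The numbers: `W` is the disjoint union of
`inl '' (inl ⁻¹' W)` and `inr '' (inr ⁻¹' W)` (`V₁`, `V₂` finite).
-/

set_option autoImplicit false

namespace Pool.Agent.Helper29.CW

open Pool.Agent.Helper20.Spectra Pool.Agent.Helper29.TD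

variable {S : Type} {ar : S → ℕ} {L V₁ V₂ : Type} {k : ℕ}

/-- the relation between two labels -/
def R2 (R : ∀ s : S, (Fin (ar s) → L ⊕ L) → Prop) (s : S) (t t' : L ⊕ L) : Prop :=
  2 ≤ ar s ∧ R s (fun i => if i.1 = 0 then t else t')

/-- compatible sets of pairs of label and colour -/
def Comp (R : ∀ s : S, (Fin (ar s) → L ⊕ L) → Prop) (P₁ P₂ : Set (L × Col S k)) : Prop :=
  ∀ (a b : L) (α β : Col S k), (a, α) ∈ P₁ → (b, β) ∈ P₂ →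
    (∀ c π, α = Sum.inl c → β = Sum.inr π → ∀ s,
      (R2 R s (Sum.inl a) (Sum.inr b) ↔ π s true c) ∧
      (R2 R s (Sum.inr b) (Sum.inl a) ↔ π s false c)) ∧
    (∀ c π, β = Sum.inl c → α = Sum.inr π → ∀ s,
      (R2 R s (Sum.inr b) (Sum.inl a) ↔ π s true c) ∧
      (R2 R s (Sum.inl a) (Sum.inr b) ↔ π s false c))

theorem ncard_sum [Finite V₁] [Finite V₂] (W : Set (V₁ ⊕ V₂)) :
    W.ncard = (Sum.inl ⁻¹' W).ncard + (Sum.inr ⁻¹' W).ncard := by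
  have h1 : (Sum.inl '' (Sum.inl ⁻¹' W) : Set (V₁ ⊕ V₂)) ∪ Sum.inr '' (Sum.inr ⁻¹' W) = W :=
    Set.image_preimage_inl_union_image_preimage_inr W
  have h2 : Disjoint (Sum.inl '' (Sum.inl ⁻¹' W) : Set (V₁ ⊕ V₂)) (Sum.inr '' (Sum.inr ⁻¹' W)) := by
    rw [Set.disjoint_left]
    rintro _ ⟨x, _, rfl⟩ ⟨y, _, h⟩
    exact absurd h (by simp)
  conv_lhs => rw [← h1]
  rw [Set.ncard_union_eq h2 (Set.toFinite _) (Set.toFinite _),
    Set.ncard_image_of_injective _ Sum.inl_injective,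
    Set.ncard_image_of_injective _ Sum.inr_injective]

private theorem p2ll38 {J₁ : Interp S ar V₁} {J₂ : Interp S ar V₂} {l₁ : V₁ → L} {l₂ : V₂ → L}
    (R : ∀ s : S, (Fin (ar s) → L ⊕ L) → Prop) (s : S) (x y : V₁) :
    P2 (jn R J₁ l₁ J₂ l₂) s (Sum.inl x) (Sum.inl y) ↔ P2 J₁ s x y := by
  unfold P2 jn
  constructor
  · rintro ⟨h2, h⟩
    refine ⟨h2, ?_⟩
    rcases h with ⟨u, hu, hv⟩ | ⟨u, _, hv⟩ | ⟨_, ⟨i, z, hi⟩, _⟩
    · have e : (fun i : Fin (ar s) => if i.1 = 0 then x else y) = u := by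
        funext i
        have h3 := congrFun hv i
        by_cases hi : i.1 = 0
        · simp only [hi, if_true] at h3 ⊢
          exact Sum.inl_injective h3
        · simp only [hi, if_false] at h3 ⊢
          exact Sum.inl_injective h3
      rw [e]
      exact hu
    · have h3 := congrFun hv ⟨0, by omega⟩
      simp at h3
    · by_cases h0 : i.1 = 0
      · simp [h0] at hi
      · simp [h0] at hi
  · rintro ⟨h2, h⟩
    refine ⟨h2, Or.inl ⟨_, h, ?_⟩⟩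
    funext i
    by_cases h0 : i.1 = 0
    · simp [h0]
    · simp [h0]

private theorem p2rr38 {J₁ : Interp S ar V₁} {J₂ : Interp S ar V₂} {l₁ : V₁ → L} {l₂ : V₂ → L}
    (R : ∀ s : S, (Fin (ar s) → L ⊕ L) → Prop) (s : S) (x y : V₂) :
    P2 (jn R J₁ l₁ J₂ l₂) s (Sum.inr x) (Sum.inr y) ↔ P2 J₂ s x y := by
  unfold P2 jn
  constructor
  · rintro ⟨h2, h⟩
    refine ⟨h2, ?_⟩
    rcases h with ⟨u, _, hv⟩ | ⟨u, hu, hv⟩ | ⟨⟨i, z, hi⟩, _, _⟩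
    · have h3 := congrFun hv ⟨0, by omega⟩
      simp at h3
    · have e : (fun i : Fin (ar s) => if i.1 = 0 then x else y) = u := by
        funext i
        have h3 := congrFun hv i
        by_cases hi : i.1 = 0
        · simp only [hi, if_true] at h3 ⊢
          exact Sum.inr_injective h3
        · simp only [hi, if_false] at h3 ⊢
          exact Sum.inr_injective h3
      rw [e]
      exact hu
    · by_cases h0 : i.1 = 0
      · simp [h0] at hi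
      · simp [h0] at hi
  · rintro ⟨h2, h⟩
    refine ⟨h2, Or.inr (Or.inl ⟨_, h, ?_⟩)⟩
    funext i
    by_cases h0 : i.1 = 0
    · simp [h0]
    · simp [h0]

private theorem p2lr38 {J₁ : Interp S ar V₁} {J₂ : Interp S ar V₂} {l₁ : V₁ → L} {l₂ : V₂ → L}
    (R : ∀ s : S, (Fin (ar s) → L ⊕ L) → Prop) (s : S) (x : V₁) (y : V₂) :
    P2 (jn R J₁ l₁ J₂ l₂) s (Sum.inl x) (Sum.inr y) ↔
      R2 R s (Sum.inl (l₁ x)) (Sum.inr (l₂ y)) := by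
  unfold P2 R2 jn
  have e : (fun i : Fin (ar s) => Sum.map l₁ l₂ (if i.1 = 0 then Sum.inl x else Sum.inr y)) =
      fun i : Fin (ar s) => if i.1 = 0 then Sum.inl (l₁ x) else Sum.inr (l₂ y) := by
    funext i
    by_cases h0 : i.1 = 0
    · simp [h0]
    · simp [h0]
  constructor
  · rintro ⟨h2, h⟩
    refine ⟨h2, ?_⟩
    rcases h with ⟨u, _, hv⟩ | ⟨u, _, hv⟩ | ⟨_, _, h⟩
    · have h3 := congrFun hv ⟨1, by omega⟩
      simp at h3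
    · have h3 := congrFun hv ⟨0, by omega⟩
      simp at h3
    · rw [e] at h
      exact h
  · rintro ⟨h2, h⟩
    refine ⟨h2, Or.inr (Or.inr ⟨⟨⟨0, by omega⟩, x, by simp⟩, ⟨⟨1, by omega⟩, y, by simp⟩, ?_⟩)⟩
    rw [e]
    exact h

private theorem p2rl38 {J₁ : Interp S ar V₁} {J₂ : Interp S ar V₂} {l₁ : V₁ → L} {l₂ : V₂ → L}
    (R : ∀ s : S, (Fin (ar s) → L ⊕ L) → Prop) (s : S) (x : V₁) (y : V₂) :
    P2 (jn R J₁ l₁ J₂ l₂) s (Sum.inr y) (Sum.inl x) ↔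
      R2 R s (Sum.inr (l₂ y)) (Sum.inl (l₁ x)) := by
  unfold P2 R2 jn
  have e : (fun i : Fin (ar s) => Sum.map l₁ l₂ (if i.1 = 0 then Sum.inr y else Sum.inl x)) =
      fun i : Fin (ar s) => if i.1 = 0 then Sum.inr (l₂ y) else Sum.inl (l₁ x) := by
    funext i
    by_cases h0 : i.1 = 0
    · simp [h0]
    · simp [h0]
  constructor
  · rintro ⟨h2, h⟩
    refine ⟨h2, ?_⟩
    rcases h with ⟨u, _, hv⟩ | ⟨u, _, hv⟩ | ⟨_, _, h⟩
    · have h3 := congrFun hv ⟨0, by omega⟩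
      simp at h3
    · have h3 := congrFun hv ⟨1, by omega⟩
      simp at h3
    · rw [e] at h
      exact h
  · rintro ⟨h2, h⟩
    refine ⟨h2, Or.inr (Or.inr ⟨⟨⟨1, by omega⟩, x, by simp⟩, ⟨⟨0, by omega⟩, y, by simp⟩, ?_⟩)⟩
    rw [e]
    exact h

private theorem range38 {l₁ : V₁ → L} {l₂ : V₂ → L} (r : L ⊕ L → L) (κ₁ : V₁ → Col S k)
    (κ₂ : V₂ → Col S k) :
    Set.range (fun x : V₁ ⊕ V₂ => (r (Sum.map l₁ l₂ x), Sum.elim κ₁ κ₂ x)) =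
      (fun p : L × Col S k => (r (Sum.inl p.1), p.2)) '' (Set.range fun x => (l₁ x, κ₁ x)) ∪
        (fun p : L × Col S k => (r (Sum.inr p.1), p.2)) '' (Set.range fun x => (l₂ x, κ₂ x)) := by
  ext p
  constructor
  · rintro ⟨x | y, rfl⟩
    · exact Or.inl ⟨_, ⟨x, rfl⟩, rfl⟩
    · exact Or.inr ⟨_, ⟨y, rfl⟩, rfl⟩
  · rintro (⟨_, ⟨x, rfl⟩, rfl⟩ | ⟨_, ⟨y, rfl⟩, rfl⟩)
    · exact ⟨Sum.inl x, rfl⟩
    · exact ⟨Sum.inr y, rfl⟩

private theorem num38 [Finite V₁] [Finite V₂] (W : Set (V₁ ⊕ V₂)) (κ₁ : V₁ → Col S k)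
    (κ₂ : V₂ → Col S k) :
    (W ∩ lft (Sum.elim κ₁ κ₂)).ncard = (Sum.inl ⁻¹' W ∩ lft κ₁).ncard +
      (Sum.inr ⁻¹' W ∩ lft κ₂).ncard ∧
    (W \ lft (Sum.elim κ₁ κ₂)).ncard = (Sum.inl ⁻¹' W \ lft κ₁).ncard +
      (Sum.inr ⁻¹' W \ lft κ₂).ncard :=
  ⟨ncard_sum _, ncard_sum _⟩

theorem sp_jn [Finite V₁] [Finite V₂] {J₁ : Interp S ar V₁} {J₂ : Interp S ar V₂} {l₁ : V₁ → L}
    {l₂ : V₂ → L} (R : ∀ s : S, (Fin (ar s) → L ⊕ L) → Prop) (r : L ⊕ L → L)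
    (W : Set (V₁ ⊕ V₂)) (P : Set (L × Col S k)) (a b : ℕ) :
    Sp (jn R J₁ l₁ J₂ l₂) (fun x => r (Sum.map l₁ l₂ x)) W P a b ↔
      ∃ (P₁ P₂ : Set (L × Col S k)) (a₁ b₁ a₂ b₂ : ℕ), Sp J₁ l₁ (Sum.inl ⁻¹' W) P₁ a₁ b₁ ∧
        Sp J₂ l₂ (Sum.inr ⁻¹' W) P₂ a₂ b₂ ∧ Comp R P₁ P₂ ∧
        P = (fun p : L × Col S k => (r (Sum.inl p.1), p.2)) '' P₁ ∪
          (fun p : L × Col S k => (r (Sum.inr p.1), p.2)) '' P₂ ∧ a = a₁ + a₂ ∧ b = b₁ + b₂ := by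
  constructor
  · rintro ⟨κ, hv, hP, ha, hb⟩
    have hκ : κ = Sum.elim (fun x => κ (Sum.inl x)) (fun y => κ (Sum.inr y)) := by
      funext x
      rcases x with x | y <;> rfl
    refine ⟨_, _, _, _, _, _, ⟨fun x => κ (Sum.inl x), ?_, rfl, rfl, rfl⟩,
      ⟨fun y => κ (Sum.inr y), ?_, rfl, rfl, rfl⟩, ?_, ?_, ?_, ?_⟩
    · intro x y c π hx hy s
      rw [← p2ll38 (J₂ := J₂) (l₁ := l₁) (l₂ := l₂) R, ← p2ll38 (J₂ := J₂) (l₁ := l₁) (l₂ := l₂) R]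
      exact hv _ _ c π hx hy s
    · intro x y c π hx hy s
      rw [← p2rr38 (J₁ := J₁) (l₁ := l₁) (l₂ := l₂) R, ← p2rr38 (J₁ := J₁) (l₁ := l₁) (l₂ := l₂) R]
      exact hv _ _ c π hx hy s
    · rintro _ _ _ _ ⟨x, hx⟩ ⟨y, hy⟩
      obtain ⟨rfl, rfl⟩ := Prod.mk.inj hx
      obtain ⟨rfl, rfl⟩ := Prod.mk.inj hy
      refine ⟨fun c π h1 h2 s => ?_, fun c π h1 h2 s => ?_⟩
      · have h3 := hv _ _ c π h1 h2 s
        rw [p2lr38, p2rl38] at h3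
        exact h3
      · have h3 := hv _ _ c π h1 h2 s
        rw [p2lr38, p2rl38] at h3
        exact h3
    · rw [← hP, ← range38 r, ← hκ]
    · rw [← ha]
      conv_lhs => rw [hκ]
      exact (num38 W _ _).1
    · rw [← hb]
      conv_lhs => rw [hκ]
      exact (num38 W _ _).2
  · rintro ⟨P₁, P₂, a₁, b₁, a₂, b₂, ⟨κ₁, hv₁, rfl, rfl, rfl⟩, ⟨κ₂, hv₂, rfl, rfl, rfl⟩, hc, rfl,
      rfl, rfl⟩
    refine ⟨Sum.elim κ₁ κ₂, ?_, range38 r κ₁ κ₂, (num38 W κ₁ κ₂).1, (num38 W κ₁ κ₂).2⟩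
    rintro (x | x) (y | y) c π hx hy s
    · rw [p2ll38, p2ll38]
      exact hv₁ x y c π hx hy s
    · rw [p2lr38, p2rl38]
      exact (hc _ _ _ _ ⟨x, rfl⟩ ⟨y, rfl⟩).1 c π hx hy s
    · rw [p2lr38, p2rl38]
      exact (hc _ _ _ _ ⟨y, rfl⟩ ⟨x, rfl⟩).2 c π hx hy s
    · rw [p2rr38, p2rr38]
      exact hv₂ x y c π hx hy s

end Pool.Agent.Helper29.CW
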