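import Pool.Agent.Helper29.CW.TyJn
import Pool.Agent.Helper29.CW.SpJn

/-!
# Block CW-12: the state of a join depends only on the states of the parts

`exists_st`: take `lty q J l`, `⟨W.ncard, _⟩` and the set of the `κ` with `Sp J l W κ.1 κ.2.1 κ.2.2`.
`HasSt.jn`: the type by `lty_jn`; the number by `ncard_sum` (the parts of `W` and `W'` have the same numbers); the set: by `sp_jn`, where
all numbers are at most the number of elements of the parts of `W`, `W'`, so at most `3 * N` and in `Fin (3 * N + 1)`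
(`(W ∩ lft κ).ncard ≤ W.ncard`), and so `Sp J₁ l₁ _ P₁ a₁ b₁ ↔ Sp J₁' l₁' _ P₁ a₁ b₁` for such numbers (both mean that the element is in
`σ₁.2.2`); for numbers above `3 * N` both are false.
-/

set_option autoImplicit false

namespace Pool.Agent.Helper29.CW

open Pool.Agent.Helper20.Spectra Pool.Agent.Helper29.TD

variable {S : Type} {ar : S → ℕ} {q K k N : ℕ} {V V' V₁ V₂ V₁' V₂' : Type}

theorem exists_st (q : ℕ) {k N : ℕ} (J : Interp S ar V) (l : V → Fin K) (W : Set V)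
    (hW : W.ncard ≤ 3 * N) : ∃ σ : Stt S ar q K k N, HasSt J l W σ :=
  ⟨(lty q J l, ⟨W.ncard, Nat.lt_succ_of_le hW⟩, {κ | Sp J l W κ.1 κ.2.1 κ.2.2}), rfl, rfl,
    fun _ => Iff.rfl⟩

private theorem sp_iff56 {J : Interp S ar V} {J' : Interp S ar V'} {l : V → Fin K}
    {l' : V' → Fin K} {W : Set V} {W' : Set V'} {σ : Stt S ar q K k N} (h : HasSt J l W σ)
    (h' : HasSt J' l' W' σ) {P : Set (Fin K × Col S k)} {a b : ℕ} (ha : a ≤ 3 * N)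
    (hb : b ≤ 3 * N) : Sp J l W P a b ↔ Sp J' l' W' P a b :=
  (h.2.2 (P, ⟨a, Nat.lt_succ_of_le ha⟩, ⟨b, Nat.lt_succ_of_le hb⟩)).symm.trans (h'.2.2 _)

private theorem jn_imp56 {J₁ : Interp S ar V₁} {J₁' : Interp S ar V₁'} {J₂ : Interp S ar V₂}
    {J₂' : Interp S ar V₂'} {l₁ : V₁ → Fin K} {l₁' : V₁' → Fin K} {l₂ : V₂ → Fin K}
    {l₂' : V₂' → Fin K} {W₁ : Set V₁} {W₁' : Set V₁'} {W₂ : Set V₂} {W₂' : Set V₂'}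
    {σ₁ σ₂ : Stt S ar q K k N} (h₁ : HasSt J₁ l₁ W₁ σ₁) (h₁' : HasSt J₁' l₁' W₁' σ₁)
    (h₂ : HasSt J₂ l₂ W₂ σ₂) (h₂' : HasSt J₂' l₂' W₂' σ₂) {a b : ℕ} (ha : a ≤ 3 * N)
    (hb : b ≤ 3 * N) {Q : Set (Fin K × Col S k) → Set (Fin K × Col S k) → Prop}
    (h : ∃ (P₁ P₂ : Set (Fin K × Col S k)) (a₁ b₁ a₂ b₂ : ℕ), Sp J₁ l₁ W₁ P₁ a₁ b₁ ∧
      Sp J₂ l₂ W₂ P₂ a₂ b₂ ∧ Q P₁ P₂ ∧ a = a₁ + a₂ ∧ b = b₁ + b₂) :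
    ∃ (P₁ P₂ : Set (Fin K × Col S k)) (a₁ b₁ a₂ b₂ : ℕ), Sp J₁' l₁' W₁' P₁ a₁ b₁ ∧
      Sp J₂' l₂' W₂' P₂ a₂ b₂ ∧ Q P₁ P₂ ∧ a = a₁ + a₂ ∧ b = b₁ + b₂ := by
  obtain ⟨P₁, P₂, a₁, b₁, a₂, b₂, s1, s2, hQ, e1, e2⟩ := h
  exact ⟨P₁, P₂, a₁, b₁, a₂, b₂, (sp_iff56 h₁ h₁' (by omega) (by omega)).1 s1,
    (sp_iff56 h₂ h₂' (by omega) (by omega)).1 s2, hQ, e1, e2⟩

private theorem sp_jn56 [Finite V₁] [Finite V₂] {J₁ : Interp S ar V₁} {J₂ : Interp S ar V₂}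
    {l₁ : V₁ → Fin K} {l₂ : V₂ → Fin K} (R : ∀ s : S, (Fin (ar s) → Fin K ⊕ Fin K) → Prop)
    (r : Fin K ⊕ Fin K → Fin K) (W : Set (V₁ ⊕ V₂)) (P : Set (Fin K × Col S k)) (a b : ℕ) :
    Sp (CW.jn R J₁ l₁ J₂ l₂) (fun x => r (Sum.map l₁ l₂ x)) W P a b ↔
      ∃ (P₁ P₂ : Set (Fin K × Col S k)) (a₁ b₁ a₂ b₂ : ℕ), Sp J₁ l₁ (Sum.inl ⁻¹' W) P₁ a₁ b₁ ∧
        Sp J₂ l₂ (Sum.inr ⁻¹' W) P₂ a₂ b₂ ∧ (Comp R P₁ P₂ ∧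
        P = (fun p : Fin K × Col S k => (r (Sum.inl p.1), p.2)) '' P₁ ∪
          (fun p : Fin K × Col S k => (r (Sum.inr p.1), p.2)) '' P₂) ∧ a = a₁ + a₂ ∧
            b = b₁ + b₂ := by
  rw [sp_jn]
  constructor
  · rintro ⟨P₁, P₂, a₁, b₁, a₂, b₂, s1, s2, hC, hP, e1, e2⟩
    exact ⟨P₁, P₂, a₁, b₁, a₂, b₂, s1, s2, ⟨hC, hP⟩, e1, e2⟩
  · rintro ⟨P₁, P₂, a₁, b₁, a₂, b₂, s1, s2, ⟨hC, hP⟩, e1, e2⟩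
    exact ⟨P₁, P₂, a₁, b₁, a₂, b₂, s1, s2, hC, hP, e1, e2⟩

theorem HasSt.jn [Finite V₁] [Finite V₂] [Finite V₁'] [Finite V₂']
    {J₁ : Interp S ar V₁} {J₁' : Interp S ar V₁'} {J₂ : Interp S ar V₂} {J₂' : Interp S ar V₂'}
    {l₁ : V₁ → Fin K} {l₁' : V₁' → Fin K} {l₂ : V₂ → Fin K} {l₂' : V₂' → Fin K}
    {W : Set (V₁ ⊕ V₂)} {W' : Set (V₁' ⊕ V₂')} {σ₁ σ₂ σ : Stt S ar q K k N}
    (R : ∀ s : S, (Fin (ar s) → Fin K ⊕ Fin K) → Prop) (r : Fin K ⊕ Fin K → Fin K)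
    (h₁ : HasSt J₁ l₁ (Sum.inl ⁻¹' W) σ₁) (h₁' : HasSt J₁' l₁' (Sum.inl ⁻¹' W') σ₁)
    (h₂ : HasSt J₂ l₂ (Sum.inr ⁻¹' W) σ₂) (h₂' : HasSt J₂' l₂' (Sum.inr ⁻¹' W') σ₂)
    (h : HasSt (CW.jn R J₁ l₁ J₂ l₂) (fun x => r (Sum.map l₁ l₂ x)) W σ) :
    HasSt (CW.jn R J₁' l₁' J₂' l₂') (fun x => r (Sum.map l₁' l₂' x)) W' σ := by
  refine ⟨?_, ?_, fun κ => ?_⟩
  · rw [h.1]
    exact lty_jn q R r (h₁.1.symm.trans h₁'.1) (h₂.1.symm.trans h₂'.1)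
  · rw [h.2.1, ncard_sum W, ncard_sum W', ← h₁.2.1, ← h₂.2.1, ← h₁'.2.1, ← h₂'.2.1]
  · have ha : (κ.2.1 : ℕ) ≤ 3 * N := Nat.le_of_lt_succ κ.2.1.2
    have hb : (κ.2.2 : ℕ) ≤ 3 * N := Nat.le_of_lt_succ κ.2.2.2
    refine (h.2.2 κ).trans ((sp_jn56 R r W _ _ _).trans (Iff.trans ?_ (sp_jn56 R r W' _ _ _).symm))
    exact ⟨jn_imp56 h₁ h₁' h₂ h₂' ha hb, jn_imp56 h₁' h₁ h₂' h₂ ha hb⟩

end Pool.Agent.Helper29.CW
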