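import Pool.Agent.Helper29.CW.Ord
import Pool.Agent.Helper29.CW.RepJoin

/-!
# Block CW-23: a structure without linked set is generated with few labels

(After Oum and Seymour.)  Let `D = DD S`, `N = NN S k = D * k + 1`, `r = rr S k = (3 * N + 1) * D`, `KK S k = 2 ^ r`.  Claim: for every nonempty `X`
with `ord I X ≤ r` there is `l : M → Fin (KK S k)` with `l x = l x' ↔ ∀ y ∉ X, Same I x x' y` for `x`, `x'` in `X`, and `Rep I (KK S k) X l`.
Strong induction on `X.ncard`.  `l` is given by `ord_types`.  If `X = {x}`: `Rep.point`.  Otherwise it is enough to find a partition of `X` into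
nonempty `X₁`, `X₂` with `ord I X₁ ≤ r`, `ord I X₂ ≤ r`: `Rep.join` (elements of `X₁` with the same `l₁` have the same relations to the elements
outside `X₁`, so to those of `X₂` and to those outside `X`).
Case 1: `ord I X ≤ 3 * N * D`.  Take `x ∈ X`, `X₁ = {x}` (`ord_singleton`), `X₂ = X \ {x} = X ∩ {x}ᶜ`: by `ord_submod`, `ord_compl`
`ord I X₂ ≤ ord I X + ord I {x} ≤ r`.
Case 2: `3 * N * D ≤ ord I X`.  `ord_base` with `n = 3 * N` gives `B`.  As `B` is not linked there is `Z` with `Cut I k Z`,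
`N ≤ (B ∩ Z).ncard`, `N ≤ (B \ Z).ncard`, and `ord I Z ≤ D * k < N` (`ord_le_of_cut`), `ord I Zᶜ = ord I Z`.
`ord I (X ∩ Z) + ord I (X ∪ Z) ≤ ord I X + ord I Z` and `ord I (X ∪ Z) ≥ (B \ (X ∪ Z)).ncard = (B \ Z).ncard ≥ N` (`B ⊆ Xᶜ`), so
`ord I (X ∩ Z) < ord I X`; similarly with `Zᶜ`: `ord I (X \ Z) < ord I X`.  Both are nonempty, since `X ∩ Z = ∅` would give `X \ Z = X`.
Finally `X = univ` (`ord_univ`).
-/

set_option autoImplicit false

namespace Pool.Agent.Helper29.CW

open Pool.Agent.Helper20.Spectra Pool.Agent.Helper29.TD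

variable {S : Type} {ar : S → ℕ} {M : Type}

private theorem split4 [Fintype S] [Finite M] (I : Interp S ar M) (k : ℕ)
    (h : ∀ W : Set M, ¬ Lnk I k (NN S k) W) (X : Set M) (hne : X.Nonempty)
    (hs : ¬ ∃ x, X = {x}) (hord : ord I X ≤ rr S k) : ∃ X₁ X₂ : Set M, X₁ ∪ X₂ = X ∧
      Disjoint X₁ X₂ ∧ X₁.Nonempty ∧ X₂.Nonempty ∧ ord I X₁ ≤ rr S k ∧ ord I X₂ ≤ rr S k := by
  have hrr : rr S k = DD S * (3 * NN S k) + DD S := by
    unfold rr
    ring
  rcases le_total (ord I X) (DD S * (3 * NN S k)) with hc | hc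
  · obtain ⟨x, hx⟩ := hne
    have h1 := ord_submod (I := I) X {x}ᶜ
    rw [ord_compl] at h1
    have h2 := ord_singleton (I := I) x
    refine ⟨{x}, X ∩ {x}ᶜ, ?_, ?_, ⟨x, rfl⟩, ?_, ?_, ?_⟩
    · ext y
      constructor
      · rintro (hy | hy)
        · rw [Set.mem_singleton_iff] at hy
          rw [hy]
          exact hx
        · exact hy.1
      · intro hy
        by_cases hyx : y = x
        · exact Or.inl hyx
        · exact Or.inr ⟨hy, hyx⟩
    · rw [Set.disjoint_left]
      intro y hy hy2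
      exact hy2.2 hy
    · by_contra hcon
      rw [Set.not_nonempty_iff_eq_empty] at hcon
      refine hs ⟨x, ?_⟩
      ext y
      constructor
      · intro hy
        by_contra hyx
        have h3 : y ∈ X ∩ {x}ᶜ := ⟨hy, hyx⟩
        rw [hcon] at h3
        exact h3
      · intro hy
        rw [Set.mem_singleton_iff] at hy
        rw [hy]
        exact hx
    · omega
    · omega
  · obtain ⟨B, hBX, hBn, hB⟩ := ord_base (I := I) hc
    have h1 := h B
    unfold Lnk at h1
    push Not at h1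
    obtain ⟨Z, hZ, hZ1, hZ2⟩ := h1 hBn
    have hoZ := ord_le_of_cut hZ
    have hN : NN S k = DD S * k + 1 := rfl
    have h2 := ord_submod (I := I) X Z
    have h3 := ord_submod (I := I) X Zᶜ
    rw [ord_compl] at h3
    have h4 := hB (X ∪ Z) Set.subset_union_left
    have h5 := hB (X ∪ Zᶜ) Set.subset_union_left
    have h6 : B \ (X ∪ Z) = B \ Z := by
      ext y
      constructor
      · rintro ⟨hy, hy2⟩
        exact ⟨hy, fun hz => hy2 (Or.inr hz)⟩
      · rintro ⟨hy, hy2⟩
        refine ⟨hy, ?_⟩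
        rintro (hz | hz)
        · exact hBX hy hz
        · exact hy2 hz
    have h7 : B \ (X ∪ Zᶜ) = B ∩ Z := by
      ext y
      constructor
      · rintro ⟨hy, hy2⟩
        refine ⟨hy, ?_⟩
        by_contra hz
        exact hy2 (Or.inr hz)
      · rintro ⟨hy, hy2⟩
        refine ⟨hy, ?_⟩
        rintro (hz | hz)
        · exact hBX hy hz
        · exact hz hy2
    rw [h6] at h4
    rw [h7] at h5
    have h8 : ord I (X ∩ Z) < ord I X := by omega
    have h9 : ord I (X ∩ Zᶜ) < ord I X := by omega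
    have hun : (X ∩ Z) ∪ (X ∩ Zᶜ) = X := Set.inter_union_compl X Z
    refine ⟨X ∩ Z, X ∩ Zᶜ, hun, ?_, ?_, ?_, by omega, by omega⟩
    · rw [Set.disjoint_left]
      intro y hy hy2
      exact hy2.2 hy.2
    · by_contra hcon
      rw [Set.not_nonempty_iff_eq_empty] at hcon
      rw [hcon, Set.empty_union] at hun
      rw [hun] at h9
      exact lt_irrefl _ h9
    · by_contra hcon
      rw [Set.not_nonempty_iff_eq_empty] at hcon
      rw [hcon, Set.union_empty] at hun
      rw [hun] at h8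
      exact lt_irrefl _ h8

private theorem up_aux4 [Fintype S] [Finite M] (har : ∀ s, ar s ≤ 2) (I : Interp S ar M) (k : ℕ)
    (h : ∀ W : Set M, ¬ Lnk I k (NN S k) W) (n : ℕ) : ∀ X : Set M, X.ncard ≤ n → X.Nonempty →
    ord I X ≤ rr S k → ∃ l : M → Fin (2 ^ rr S k),
      (∀ x ∈ X, ∀ x' ∈ X, (l x = l x' ↔ ∀ y, y ∉ X → Same I x x' y)) ∧
        Rep I (2 ^ rr S k) X l := by
  induction n with
  | zero =>
    intro X hX hne _
    rw [Nat.le_zero, Set.ncard_eq_zero (Set.toFinite X)] at hX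
    exact absurd hX hne.ne_empty
  | succ n ih =>
    intro X hXn hne hord
    obtain ⟨l, hl⟩ := ord_types hord
    by_cases hsing : ∃ x, X = {x}
    · obtain ⟨x, rfl⟩ := hsing
      exact ⟨l, hl, Rep.point x l⟩
    obtain ⟨X₁, X₂, hun, hdisj, hne1, hne2, ho1, ho2⟩ := split4 I k h X hne hsing hord
    have hc := Set.ncard_union_eq hdisj (Set.toFinite X₁) (Set.toFinite X₂)
    rw [hun] at hc
    have hc1 := (Set.ncard_pos (Set.toFinite X₁)).2 hne1
    have hc2 := (Set.ncard_pos (Set.toFinite X₂)).2 hne2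
    obtain ⟨l₁, hl₁, hR₁⟩ := ih X₁ (by omega) hne1 ho1
    obtain ⟨l₂, hl₂, hR₂⟩ := ih X₂ (by omega) hne2 ho2
    have hsub1 : X₁ ⊆ X := by
      rw [← hun]
      exact Set.subset_union_left
    have hsub2 : X₂ ⊆ X := by
      rw [← hun]
      exact Set.subset_union_right
    refine ⟨l, hl, ?_⟩
    rw [← hun]
    refine Rep.join har hdisj hR₁ hR₂ ?_ ?_
    · intro x hx x' hx' hxx
      have h1 := (hl₁ x hx x' hx').1 hxx
      refine ⟨(hl x (hsub1 hx) x' (hsub1 hx')).2 fun y hy => h1 y fun hy1 => hy (hsub1 hy1), ?_⟩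
      intro y hy
      exact h1 y fun hy1 => Set.disjoint_left.1 hdisj hy1 hy
    · intro x hx x' hx' hxx
      have h1 := (hl₂ x hx x' hx').1 hxx
      refine ⟨(hl x (hsub2 hx) x' (hsub2 hx')).2 fun y hy => h1 y fun hy1 => hy (hsub2 hy1), ?_⟩
      intro y hy
      exact h1 y fun hy1 => Set.disjoint_left.1 hdisj hy hy1

theorem up [Finite S] [Finite M] [Nonempty M] (har : ∀ s, ar s ≤ 2) (I : Interp S ar M) (k : ℕ)
    (h : ∀ W : Set M, ¬ Lnk I k (NN S k) W) : ∃ l : M → Fin (KK S k), Rep I (KK S k) Set.univ l := by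
  have := Fintype.ofFinite S
  obtain ⟨l, _, hl⟩ := up_aux4 har I k h (Set.univ : Set M).ncard Set.univ le_rfl
    Set.univ_nonempty (by rw [ord_univ]; exact Nat.zero_le _)
  exact ⟨l, hl⟩

end Pool.Agent.Helper29.CW
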